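import Pool.Agent.H59.TN.Defs

/-!
# Module Wgt: the number of position sets with a given window state

`pre_add`: `S.filter (· < t₀ + i)` is the disjoint union of `S.filter (· < t₀)` and of the elements of
`S` in `[t₀, t₀ + i)`, and `j ↦ t₀ + j` is a bijection from `(win S t₀ W).filter (· < i)` to the latter.
`card_win`: a set `S` with `pre S t₀ = x` and `win S t₀ W = π` is the disjoint union of a set `A` of `x`
elements of `F₀ = {i | i < t₀}` (`t₀` elements), of the fixed set `π' = {i | i = t₀ + j, j ∈ π}`, and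
of a set `C` of `N - x - π.card` elements of `F₂ = {i | t₀ + W ≤ i}` (`n - t₀ - W` elements). So
`(A, C) ↦ A ∪ π' ∪ C` is a bijection from `powersetCard x F₀ ×ˢ powersetCard (N - x - π.card) F₂` to
the set on the left (`Finset.card_bij` / `Finset.card_nbij'` with the inverse
`S ↦ (S.filter (· < t₀), S.filter (t₀ + W ≤ ·))`), and `Finset.card_powersetCard`.
-/

set_option autoImplicit false

namespace Pool.Agent.H59.TN

/-- the embedding of the window -/
private def Wgt_e {n t₀ W : ℕ} (hW : t₀ + W ≤ n) : Fin W ↪ Fin n :=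
  ⟨fun j => ⟨t₀ + j.1, by have := j.2; omega⟩, fun a b h => by
    have h1 : t₀ + a.1 = t₀ + b.1 := congrArg Fin.val h
    exact Fin.ext (by omega)⟩

private theorem Wgt_mem_map {n t₀ W : ℕ} (hW : t₀ + W ≤ n) (π : Finset (Fin W)) (i : Fin n) :
    i ∈ π.map (Wgt_e hW) ↔ ∃ j ∈ π, i.1 = t₀ + j.1 := by
  rw [Finset.mem_map]
  constructor
  · rintro ⟨j, hj, rfl⟩
    exact ⟨j, hj, rfl⟩
  · rintro ⟨j, hj, h⟩
    exact ⟨j, hj, Fin.ext h.symm⟩

private theorem Wgt_mem_win {n t₀ W : ℕ} (hW : t₀ + W ≤ n) (S : Finset (Fin n)) (i : Fin W) :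
    i ∈ win S t₀ W ↔ Wgt_e hW i ∈ S := by
  unfold win
  rw [Finset.mem_filter]
  constructor
  · rintro ⟨-, j, hj, h⟩
    have : Wgt_e hW i = j := Fin.ext h.symm
    rw [this]; exact hj
  · intro h
    exact ⟨Finset.mem_univ _, _, h, rfl⟩

theorem pre_add {n : ℕ} (S : Finset (Fin n)) {t₀ W : ℕ} (hW : t₀ + W ≤ n) {i : ℕ} (hi : i ≤ W) :
    pre S (t₀ + i) = pre S t₀ + pre (win S t₀ W) i := by
  unfold pre
  have h1 : S.filter (fun x => x.1 < t₀ + i) =
      S.filter (fun x => x.1 < t₀) ∪ ((win S t₀ W).filter (fun x => x.1 < i)).map (Wgt_e hW) := by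
    ext x
    rw [Finset.mem_union, Wgt_mem_map, Finset.mem_filter, Finset.mem_filter]
    constructor
    · rintro ⟨hx, hlt⟩
      by_cases h : x.1 < t₀
      · exact Or.inl ⟨hx, h⟩
      · right
        refine ⟨⟨x.1 - t₀, by omega⟩, ?_, ?_⟩
        · rw [Finset.mem_filter, Wgt_mem_win hW]
          refine ⟨?_, ?_⟩
          · have : Wgt_e hW ⟨x.1 - t₀, by omega⟩ = x := Fin.ext (by
              change t₀ + (x.1 - t₀) = x.1
              omega)
            rw [this]; exact hx
          · change x.1 - t₀ < i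
            omega
        · change x.1 = t₀ + (x.1 - t₀)
          omega
    · rintro (⟨hx, hlt⟩ | ⟨j, hj, hxj⟩)
      · exact ⟨hx, by omega⟩
      · rw [Finset.mem_filter, Wgt_mem_win hW] at hj
        have : Wgt_e hW j = x := Fin.ext hxj.symm
        rw [this] at hj
        exact ⟨hj.1, by omega⟩
  rw [h1, Finset.card_union_of_disjoint, Finset.card_map]
  rw [Finset.disjoint_left]
  intro x hx hx'
  rw [Finset.mem_filter] at hx
  rw [Wgt_mem_map] at hx'
  obtain ⟨j, -, hj⟩ := hx'
  omega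

private theorem Wgt_card_lt {n t₀ : ℕ} (h : t₀ ≤ n) :
    ((Finset.univ : Finset (Fin n)).filter (fun i => i.1 < t₀)).card = t₀ := by
  have : (Finset.univ : Finset (Fin n)).filter (fun i => i.1 < t₀) =
      (Finset.univ : Finset (Fin t₀)).map (Fin.castLEEmb h) := by
    ext x
    rw [Finset.mem_filter, Finset.mem_map]
    constructor
    · rintro ⟨-, hx⟩
      exact ⟨⟨x.1, hx⟩, Finset.mem_univ _, Fin.ext rfl⟩
    · rintro ⟨j, -, rfl⟩
      exact ⟨Finset.mem_univ _, j.2⟩
  rw [this, Finset.card_map, Finset.card_univ, Fintype.card_fin]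

private theorem Wgt_card_ge {n t : ℕ} (h : t ≤ n) :
    ((Finset.univ : Finset (Fin n)).filter (fun i => t ≤ i.1)).card = n - t := by
  have h1 := Finset.card_filter_add_card_filter_not (s := (Finset.univ : Finset (Fin n)))
    (fun i : Fin n => i.1 < t)
  rw [Wgt_card_lt h, Finset.card_univ, Fintype.card_fin] at h1
  have h2 : (Finset.univ : Finset (Fin n)).filter (fun i => t ≤ i.1) =
      (Finset.univ : Finset (Fin n)).filter (fun i => ¬ i.1 < t) := by
    apply Finset.filter_congr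
    intro x _
    omega
  rw [h2]
  omega

theorem card_win {n t₀ W : ℕ} (hW : t₀ + W ≤ n) (N x : ℕ) (π : Finset (Fin W))
    (hx : x + π.card ≤ N) :
    ((Finset.univ : Finset (Finset (Fin n))).filter
      (fun S => S.card = N ∧ pre S t₀ = x ∧ win S t₀ W = π)).card =
      t₀.choose x * (n - t₀ - W).choose (N - x - π.card) := by
  classical
  set F₀ := (Finset.univ : Finset (Fin n)).filter (fun i => i.1 < t₀) with hF₀
  set F₂ := (Finset.univ : Finset (Fin n)).filter (fun i => t₀ + W ≤ i.1) with hF₂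
  have hc₀ : F₀.card = t₀ := Wgt_card_lt (by omega)
  have hc₂ : F₂.card = n - t₀ - W := by
    rw [hF₂, Wgt_card_ge hW]; omega
  have hsplit : ∀ S : Finset (Fin n), S = S.filter (fun i => i.1 < t₀) ∪
      ((win S t₀ W).map (Wgt_e hW) ∪ S.filter (fun i => t₀ + W ≤ i.1)) := by
    intro S
    ext y
    rw [Finset.mem_union, Finset.mem_union, Wgt_mem_map, Finset.mem_filter, Finset.mem_filter]
    constructor
    · intro hy
      by_cases h1 : y.1 < t₀
      · exact Or.inl ⟨hy, h1⟩
      · by_cases h2 : t₀ + W ≤ y.1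
        · exact Or.inr (Or.inr ⟨hy, h2⟩)
        · refine Or.inr (Or.inl ⟨⟨y.1 - t₀, by omega⟩, ?_, ?_⟩)
          · rw [Wgt_mem_win hW]
            have : Wgt_e hW ⟨y.1 - t₀, by omega⟩ = y := Fin.ext (by
              change t₀ + (y.1 - t₀) = y.1
              omega)
            rw [this]; exact hy
          · change y.1 = t₀ + (y.1 - t₀)
            omega
    · rintro (⟨hy, -⟩ | ⟨j, hj, hyj⟩ | ⟨hy, -⟩)
      · exact hy
      · rw [Wgt_mem_win hW] at hj
        have : Wgt_e hW j = y := Fin.ext hyj.symm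
        rw [this] at hj
        exact hj
      · exact hy
  have hcardU : ∀ (A C : Finset (Fin n)) (ρ : Finset (Fin W)), A ⊆ F₀ → C ⊆ F₂ →
      (A ∪ (ρ.map (Wgt_e hW) ∪ C)).card = A.card + (ρ.card + C.card) := by
    intro A C ρ hA hC
    rw [Finset.card_union_of_disjoint, Finset.card_union_of_disjoint, Finset.card_map]
    · rw [Finset.disjoint_left]
      intro y hy hy'
      rw [Wgt_mem_map] at hy
      obtain ⟨j, -, hj⟩ := hy
      have h2 := (Finset.mem_filter.1 (hC hy')).2
      have := j.2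
      omega
    · rw [Finset.disjoint_left]
      intro y hy hy'
      have h1 := (Finset.mem_filter.1 (hA hy)).2
      rcases Finset.mem_union.1 hy' with h | h
      · rw [Wgt_mem_map] at h
        obtain ⟨j, -, hj⟩ := h
        omega
      · have h2 := (Finset.mem_filter.1 (hC h)).2
        omega
  have hf₀ : ∀ (A C : Finset (Fin n)) (ρ : Finset (Fin W)), A ⊆ F₀ → C ⊆ F₂ →
      (A ∪ (ρ.map (Wgt_e hW) ∪ C)).filter (fun i => i.1 < t₀) = A := by
    intro A C ρ hA hC
    ext y
    rw [Finset.mem_filter, Finset.mem_union, Finset.mem_union, Wgt_mem_map]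
    constructor
    · rintro ⟨hy | ⟨j, -, hj⟩ | hy, hlt⟩
      · exact hy
      · omega
      · have h2 := (Finset.mem_filter.1 (hC hy)).2
        omega
    · intro hy
      exact ⟨Or.inl hy, (Finset.mem_filter.1 (hA hy)).2⟩
  have hf₂ : ∀ (A C : Finset (Fin n)) (ρ : Finset (Fin W)), A ⊆ F₀ → C ⊆ F₂ →
      (A ∪ (ρ.map (Wgt_e hW) ∪ C)).filter (fun i => t₀ + W ≤ i.1) = C := by
    intro A C ρ hA hC
    ext y
    rw [Finset.mem_filter, Finset.mem_union, Finset.mem_union, Wgt_mem_map]
    constructor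
    · rintro ⟨hy | ⟨j, -, hj⟩ | hy, hlt⟩
      · have h1 := (Finset.mem_filter.1 (hA hy)).2
        omega
      · have := j.2
        omega
      · exact hy
    · intro hy
      exact ⟨Or.inr (Or.inr hy), (Finset.mem_filter.1 (hC hy)).2⟩
  have hfw : ∀ (A C : Finset (Fin n)) (ρ : Finset (Fin W)), A ⊆ F₀ → C ⊆ F₂ →
      win (A ∪ (ρ.map (Wgt_e hW) ∪ C)) t₀ W = ρ := by
    intro A C ρ hA hC
    ext y
    rw [Wgt_mem_win hW, Finset.mem_union, Finset.mem_union]
    have hval : (Wgt_e hW y).1 = t₀ + y.1 := rfl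
    have hylt := y.2
    constructor
    · rintro (hy | hy | hy)
      · have h1 := (Finset.mem_filter.1 (hA hy)).2
        omega
      · rw [Finset.mem_map'] at hy
        exact hy
      · have h2 := (Finset.mem_filter.1 (hC hy)).2
        omega
    · intro hy
      exact Or.inr (Or.inl ((Finset.mem_map' _).2 hy))
  rw [← hc₂]
  conv_rhs => rw [← hc₀]
  rw [← Finset.card_powersetCard, ← Finset.card_powersetCard, ← Finset.card_product]
  refine Finset.card_nbij' (fun S => (S.filter (fun i => i.1 < t₀),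
      S.filter (fun i => t₀ + W ≤ i.1))) (fun p => p.1 ∪ (π.map (Wgt_e hW) ∪ p.2)) ?_ ?_ ?_ ?_
  · intro S hS
    obtain ⟨-, hcard, hpre, hwin⟩ := Finset.mem_filter.1 (Finset.mem_coe.1 hS)
    have hA : S.filter (fun i => i.1 < t₀) ⊆ F₀ := by
      intro y hy
      exact Finset.mem_filter.2 ⟨Finset.mem_univ _, (Finset.mem_filter.1 hy).2⟩
    have hC : S.filter (fun i => t₀ + W ≤ i.1) ⊆ F₂ := by
      intro y hy
      exact Finset.mem_filter.2 ⟨Finset.mem_univ _, (Finset.mem_filter.1 hy).2⟩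
    have hcc := hcardU _ _ (win S t₀ W) hA hC
    rw [← hsplit S, hcard, hwin] at hcc
    have hpre' : (S.filter (fun i => i.1 < t₀)).card = x := hpre
    refine Finset.mem_coe.2 (Finset.mem_product.2
      ⟨Finset.mem_powersetCard.2 ⟨hA, hpre'⟩, Finset.mem_powersetCard.2 ⟨hC, ?_⟩⟩)
    change (S.filter (fun i => t₀ + W ≤ i.1)).card = N - x - π.card
    omega
  · rintro ⟨A, C⟩ hp
    obtain ⟨h1, h2⟩ := Finset.mem_product.1 (Finset.mem_coe.1 hp)
    obtain ⟨hA, hAc⟩ := Finset.mem_powersetCard.1 h1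
    obtain ⟨hC, hCc⟩ := Finset.mem_powersetCard.1 h2
    refine Finset.mem_coe.2 (Finset.mem_filter.2 ⟨Finset.mem_univ _, ?_, ?_, ?_⟩)
    · rw [hcardU A C π hA hC]
      change A.card = x at hAc
      change C.card = N - x - π.card at hCc
      omega
    · unfold pre
      rw [hf₀ A C π hA hC]
      exact hAc
    · exact hfw A C π hA hC
  · intro S hS
    obtain ⟨-, -, -, hwin⟩ := Finset.mem_filter.1 (Finset.mem_coe.1 hS)
    have := hsplit S
    rw [hwin] at this
    exact this.symm
  · rintro ⟨A, C⟩ hp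
    obtain ⟨h1, h2⟩ := Finset.mem_product.1 (Finset.mem_coe.1 hp)
    obtain ⟨hA, -⟩ := Finset.mem_powersetCard.1 h1
    obtain ⟨hC, -⟩ := Finset.mem_powersetCard.1 h2
    exact Prod.ext (hf₀ A C π hA hC) (hf₂ A C π hA hC)

end Pool.Agent.H59.TN
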