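import Pool.Agent.H59.TN.EncA

set_option autoImplicit false

/-!
# Module EncB: the linear extensions of two chains are the shuffles

`lin_eq`: if `lin S hS = lin S' hS'` let `e`, `e'` be the two bijections to `Fin (N₁ + N₂)`:
`e x < e y ↔ e' x < e' y`, so `e.symm.trans e'` is an order automorphism of `Fin (N₁ + N₂)`, hence the
identity (`Subsingleton (Fin n ≃o Fin n)`), and `S = image of (e ∘ inl) = S'`
(`finSumEquivOfFinset_inl`, `Finset.image_orderEmbOfFin_univ` / `Finset.range_orderEmbOfFin`).
`lin_surj`: `exists_rank L` (and `Fintype.card (Fin N₁ ⊕ Fin N₂) = N₁ + N₂`, cast the target) gives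
`e : Fin N₁ ⊕ Fin N₂ ≃ Fin (N₁ + N₂)` with `L a b ↔ e a < e b`. Let `S = univ.image (e ∘ inl)`, of
cardinality `N₁`. `e ∘ inl` and `e ∘ inr` are strictly increasing by `hL`, with values in `S` and `Sᶜ`;
`Finset.orderEmbOfFin_unique` gives `e (inl i) = S.orderEmbOfFin hS i` and the same for `inr`, so
`e = finSumEquivOfFinset hS _` and `lin S hS = L` (`Subtype.ext`, `funext`, `propext`).
-/

namespace Pool.Agent.H59.TN

open Pool.Agent.H45.Corr

variable {N₁ N₂ : ℕ}

private theorem EncB_mem {S : Finset (Fin (N₁ + N₂))} (hS : S.card = N₁) (x : Fin (N₁ + N₂)) :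
    x ∈ S ↔ ∃ i : Fin N₁, finSumEquivOfFinset hS (compl_card hS) (.inl i) = x := by
  have h := Finset.range_orderEmbOfFin S hS
  have h2 : x ∈ Set.range (S.orderEmbOfFin hS) ↔ x ∈ S := by rw [h]; exact Finset.mem_coe
  rw [← h2]
  constructor
  · rintro ⟨i, hi⟩
    exact ⟨i, by rw [finSumEquivOfFinset_inl]; exact hi⟩
  · rintro ⟨i, hi⟩
    exact ⟨i, by rw [finSumEquivOfFinset_inl] at hi; exact hi⟩

theorem lin_eq {S S' : Finset (Fin (N₁ + N₂))} {hS : S.card = N₁} {hS' : S'.card = N₁}
    (h : lin S hS = lin S' hS') : S = S' := by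
  have hr : ∀ x y, finSumEquivOfFinset hS (compl_card hS) x
      < finSumEquivOfFinset hS (compl_card hS) y ↔
      finSumEquivOfFinset hS' (compl_card hS') x < finSumEquivOfFinset hS' (compl_card hS') y := by
    intro x y
    exact iff_of_eq (congrFun (congrFun (congrArg Subtype.val h) x) y)
  let f : Fin (N₁ + N₂) ≃o Fin (N₁ + N₂) :=
    { toEquiv := (finSumEquivOfFinset hS (compl_card hS)).symm.trans
        (finSumEquivOfFinset hS' (compl_card hS'))
      map_rel_iff' := by
        intro a b
        have := hr ((finSumEquivOfFinset hS (compl_card hS)).symm b)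
          ((finSumEquivOfFinset hS (compl_card hS)).symm a)
        rw [Equiv.apply_symm_apply, Equiv.apply_symm_apply] at this
        rw [← not_lt, ← not_lt]
        exact not_congr this.symm }
  have hf : f = OrderIso.refl _ := Subsingleton.elim _ _
  have he : ∀ x, finSumEquivOfFinset hS' (compl_card hS') x
      = finSumEquivOfFinset hS (compl_card hS) x := by
    intro x
    have h1 : f (finSumEquivOfFinset hS (compl_card hS) x)
        = finSumEquivOfFinset hS (compl_card hS) x := by rw [hf]; rfl
    have h2 : f (finSumEquivOfFinset hS (compl_card hS) x)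
        = finSumEquivOfFinset hS' (compl_card hS') x := by
      show (finSumEquivOfFinset hS' (compl_card hS'))
        ((finSumEquivOfFinset hS (compl_card hS)).symm (finSumEquivOfFinset hS (compl_card hS) x)) = _
      rw [Equiv.symm_apply_apply]
    rw [← h2, h1]
  ext x
  rw [EncB_mem hS, EncB_mem hS']
  simp only [he]

theorem lin_surj (L : LinOrd (Fin N₁ ⊕ Fin N₂)) (hL : ∀ x y, chn N₁ N₂ x y → L.1 x y) :
    ∃ (S : Finset (Fin (N₁ + N₂))) (hS : S.card = N₁), lin S hS = L := by
  classical
  obtain ⟨e0, he0⟩ := exists_rank L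
  have hc : Fintype.card (Fin N₁ ⊕ Fin N₂) = N₁ + N₂ := by simp
  obtain ⟨e, he⟩ : ∃ e : Fin N₁ ⊕ Fin N₂ ≃ Fin (N₁ + N₂), ∀ a b, L.1 a b ↔ e a < e b := by
    refine ⟨e0.trans (finCongr hc), fun a b => ?_⟩
    rw [he0 a b]
    exact Iff.rfl
  have hinl : StrictMono (fun i : Fin N₁ => e (.inl i)) := fun i j hij =>
    (he _ _).1 (hL (.inl i) (.inl j) hij)
  have hinr : StrictMono (fun i : Fin N₂ => e (.inr i)) := fun i j hij =>
    (he _ _).1 (hL (.inr i) (.inr j) hij)
  let S : Finset (Fin (N₁ + N₂)) := Finset.univ.image (fun i : Fin N₁ => e (.inl i))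
  have hS : S.card = N₁ := by
    rw [Finset.card_image_of_injective _ hinl.injective, Finset.card_univ, Fintype.card_fin]
  refine ⟨S, hS, ?_⟩
  have h1 : ∀ i, finSumEquivOfFinset hS (compl_card hS) (.inl i) = e (.inl i) := by
    intro i
    rw [finSumEquivOfFinset_inl]
    have := Finset.orderEmbOfFin_unique hS (f := fun i : Fin N₁ => e (.inl i))
      (fun x => Finset.mem_image_of_mem _ (Finset.mem_univ x)) hinl
    exact (congrFun this i).symm
  have h2 : ∀ i, finSumEquivOfFinset hS (compl_card hS) (.inr i) = e (.inr i) := by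
    intro i
    rw [finSumEquivOfFinset_inr]
    have := Finset.orderEmbOfFin_unique (compl_card hS) (f := fun i : Fin N₂ => e (.inr i))
      (fun x => by
        rw [Finset.mem_compl]
        intro hx
        obtain ⟨j, -, hj⟩ := Finset.mem_image.1 hx
        exact absurd (e.injective hj) (by simp)) hinr
    exact (congrFun this i).symm
  have h3 : ∀ x, finSumEquivOfFinset hS (compl_card hS) x = e x := by
    rintro (i | i)
    · exact h1 i
    · exact h2 i
  apply Subtype.ext
  funext x y
  apply propext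
  rw [he x y, ← h3 x, ← h3 y]
  exact Iff.rfl

end Pool.Agent.H59.TN
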