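import Pool.Agent.H59.TN.Seg

set_option autoImplicit false

/-!
# Module Srt: no ordering of `V \ U` is an unshuffle of an ordering of `U \ V`

Let `b ∈ U \ V`, `c ∈ V \ U`, `Unsh b c` with `cl`, `M`. Let `n = Nat.card T` and let `ρ t < n` be the
rank of `t` in `b` (`exists_rank`, or the number of `s` with `b s t`): `b s t ↔ ρ s < ρ t`. Let
`r = n ^ 2 + n + 1`, `H = 2 * (r + n + 1)` and `p t = H (cl t) + ρ t`.
`Sep p M`: `p` is injective since `ρ t < n ≤ H`. TIME 0: `lineOrd p M 0 = b`: as
`p s < p t ↔ b s t` (if `cl s < cl t` both hold, by the first property of `Unsh` and `ρ < H`; same `cl`: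
`ρ`; `cl s > cl t`: both fail, `b t s`) and `2 p s + 1 < 2 p t ↔ p s < p t`, `2 p s < 2 p t + 1 ↔ p s ≤ p t`.
TIMES `n ≤ k < r`: `lineOrd p M k = c`: for `cl s < cl t` the height of `s` is at most
`2 p s + 2 k + 1 < 2 p t`, and `c s t`; same `cl`, both in `M` or both not: `p s < p t ↔ b s t ↔ c s t`; same
`cl`, `s ∈ M`, `t ∉ M`: the height of `s` is at least `2 H cl + 2 n + 1 > 2 H cl + 2 ρ t`, so `t` is below `s`
and `c t s`. (An equality of two strict total orders follows from one implication.)
`seg` with `lam = 1`: `wsum 1 r K` is the number of `k < r` in `K`. With `x` the number of `k < r` with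
`lineOrd k ∈ U`: `x ≥ 1` (`k = 0`) and all these `k` are `< n`, so `x ≤ n`; the number for `V` is at least
`r - n`; the number for `U ∩ V` is at most `x - 1` (`0` is not in it). So `x (r - n) ≤ (x - 1) r`,
`r ≤ x n ≤ n ^ 2`, a contradiction. The second statement: the first one for `(V, U)`
(`UnivCorr.symm` is in `Pool.Agent.H45.Corr.ThreeMain`; or unfold `UnivCorr`, `Set.inter_comm`,
`mul_comm`).
-/

namespace Pool.Agent.H59.TN

open Pool.Agent.H45.Corr

private theorem Srt_eq {T : Type} {L L' : LinOrd T} (h : ∀ s t, L.1 s t → L'.1 s t) : L = L' := by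
  apply Subtype.ext
  funext s t
  apply propext
  refine ⟨h s t, fun h' => ?_⟩
  by_contra hc
  by_cases hts : L.1 t s
  · exact L'.2.irrefl s (L'.2.trans s t s h' (h t s hts))
  · have := L.2.trichotomous s t hc hts
    subst this
    exact L'.2.irrefl s h'

private theorem Srt_wsum (r : ℕ) (K : Set ℕ) [DecidablePred (fun k => k ∈ K)] :
    wsum 1 r K = (((Finset.range r).filter (fun k => k ∈ K)).card : ℝ) := by
  unfold wsum
  rw [Finset.card_filter, Nat.cast_sum]
  refine Finset.sum_congr rfl fun k _ => ?_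
  by_cases hk : k ∈ K <;> simp [Set.indicator, hk]

theorem not_unsh {T : Type} [Finite T] {U V : Set (LinOrd T)} (h : UnivCorr U V) {b c : LinOrd T}
    (hb : b ∈ U \ V) (hc : c ∈ V \ U) : ¬ Unsh b.1 c.1 := by
  classical
  rintro ⟨cl, M, h1, h2, h3⟩
  have : Fintype T := Fintype.ofFinite T
  obtain ⟨n, e, he⟩ : ∃ (n : ℕ) (e : T ≃ Fin n), ∀ x y, b.1 x y ↔ e x < e y :=
    ⟨_, exists_rank b⟩
  set r := n ^ 2 + n + 1 with hr
  set H : ℤ := 2 * ((r : ℤ) + n + 1) with hH
  set ρ : T → ℤ := fun t => ((e t).1 : ℤ) with hρ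
  have hρ0 : ∀ t, 0 ≤ ρ t := fun t => Int.natCast_nonneg _
  have hρn : ∀ t, ρ t < n := fun t => by
    have := (e t).2
    simp only [hρ]
    exact_mod_cast this
  have hbρ : ∀ s t, b.1 s t ↔ ρ s < ρ t := fun s t => by
    rw [he s t, Fin.lt_def]
    simp only [hρ]
    exact (Int.ofNat_lt (n := (e s).1) (m := (e t).1)).symm
  have hρi : ∀ s t, ρ s = ρ t → s = t := fun s t hst => by
    apply e.injective
    apply Fin.ext
    simp only [hρ] at hst
    exact_mod_cast hst
  set Q : T → ℤ := fun t => H * cl t with hQ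
  have hHn : 2 * (n : ℤ) + 2 * r + 2 ≤ H := by rw [hH]; linarith
  have hr0 : (0 : ℤ) ≤ r := Int.natCast_nonneg _
  have hn0 : (0 : ℤ) ≤ n := Int.natCast_nonneg _
  have hQlt : ∀ s t, cl s < cl t → Q s + H ≤ Q t := fun s t hst => by
    have h4 : ((cl s : ℤ) + 1) ≤ cl t := by exact_mod_cast hst
    have h5 : H * ((cl s : ℤ) + 1) ≤ H * cl t :=
      mul_le_mul_of_nonneg_left h4 (by linarith)
    simp only [hQ]
    linarith
  have hQeq : ∀ s t, cl s = cl t → Q s = Q t := fun s t hst => by
    simp only [hQ, hst]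
  have hsep : Sep (fun t => Q t + ρ t) M := by
    intro s t _ hst
    simp only at hst
    have a1 := hρ0 s
    have a2 := hρ0 t
    have a3 := hρn s
    have a4 := hρn t
    rcases lt_trichotomy (cl s) (cl t) with h4 | h4 | h4
    · have := hQlt s t h4
      linarith
    · have := hQeq s t h4
      exact hρi s t (by linarith)
    · have := hQlt t s h4
      linarith
  have t0 : lineOrd (fun t => Q t + ρ t) M hsep 0 = b := by
    refine (Srt_eq (L := b) (fun s t hst => ?_)).symm
    have h4 : ρ s < ρ t := (hbρ s t).1 hst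
    have h5 : Q s ≤ Q t := by
      rcases lt_trichotomy (cl s) (cl t) with h6 | h6 | h6
      · have := hQlt s t h6
        linarith
      · exact (hQeq s t h6).le
      · exact absurd ((hbρ t s).1 (h1 t s h6).1) (by linarith)
    change hgt (fun t => Q t + ρ t) M 0 s < hgt (fun t => Q t + ρ t) M 0 t
    unfold hgt
    by_cases hs : s ∈ M <;> by_cases ht : t ∈ M <;> simp only [hs, ht, if_true, if_false] <;>
      push_cast <;> omega
  have tk : ∀ k, n ≤ k → k < r → lineOrd (fun t => Q t + ρ t) M hsep k = c := by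
    intro k hnk hkr
    refine Srt_eq (fun s t hst => ?_)
    change hgt (fun t => Q t + ρ t) M k s < hgt (fun t => Q t + ρ t) M k t at hst
    have hnk' : (n : ℤ) ≤ k := by exact_mod_cast hnk
    have hkr' : (k : ℤ) < r := by exact_mod_cast hkr
    have a1 := hρ0 s
    have a2 := hρ0 t
    have a3 := hρn s
    have a4 := hρn t
    unfold hgt at hst
    rcases lt_trichotomy (cl s) (cl t) with h6 | h6 | h6
    · exact (h1 s t h6).2
    · have h7 := hQeq s t h6
      by_cases hs : s ∈ M <;> by_cases ht : t ∈ M <;>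
        simp only [hs, ht, if_true, if_false] at hst
      · exact (h3 s t h6 (by simp [hs, ht])).1 ((hbρ s t).2 (by linarith))
      · exfalso
        linarith
      · exact h2 t s h6.symm ht hs
      · exact (h3 s t h6 (by simp [hs, ht])).1 ((hbρ s t).2 (by linarith))
    · exfalso
      have h7 := hQlt t s h6
      by_cases hs : s ∈ M <;> by_cases ht : t ∈ M <;>
        simp only [hs, ht, if_true, if_false] at hst <;> linarith
  have hseg := seg h (fun t => Q t + ρ t) M hsep r one_pos
  rw [Srt_wsum, Srt_wsum, Srt_wsum, Srt_wsum] at hseg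
  set A := (Finset.range r).filter
    (fun k => k ∈ {k | lineOrd (fun t => Q t + ρ t) M hsep k ∈ U}) with hA
  set B := (Finset.range r).filter
    (fun k => k ∈ {k | lineOrd (fun t => Q t + ρ t) M hsep k ∈ V}) with hB
  set C := (Finset.range r).filter
    (fun k => k ∈ {k | lineOrd (fun t => Q t + ρ t) M hsep k ∈ U ∩ V}) with hC
  have hD : ((Finset.range r).filter (fun k => k ∈ (Set.univ : Set ℕ))).card = r := by
    simp
  rw [hD] at hseg
  have hrn : n < r := by
    rw [hr]
    nlinarith [sq_nonneg n]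
  have hA1 : C.card + 1 ≤ A.card := by
    have h0 : 0 ∈ A := by
      rw [hA, Finset.mem_filter]
      refine ⟨Finset.mem_range.2 (by omega), ?_⟩
      change lineOrd (fun t => Q t + ρ t) M hsep 0 ∈ U
      rw [t0]
      exact hb.1
    have h0' : 0 ∉ C := by
      rw [hC, Finset.mem_filter]
      rintro ⟨-, h4⟩
      change lineOrd (fun t => Q t + ρ t) M hsep 0 ∈ U ∩ V at h4
      rw [t0] at h4
      exact hb.2 h4.2
    have hsub : insert 0 C ⊆ A := by
      intro k hk
      rw [Finset.mem_insert] at hk
      rcases hk with rfl | hk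
      · exact h0
      · rw [hC, Finset.mem_filter] at hk
        rw [hA, Finset.mem_filter]
        exact ⟨hk.1, hk.2.1⟩
    have := Finset.card_le_card hsub
    rwa [Finset.card_insert_of_notMem h0'] at this
  have hAn : A.card ≤ n := by
    have hsub : A ⊆ Finset.range n := by
      intro k hk
      rw [hA, Finset.mem_filter, Finset.mem_range] at hk
      rw [Finset.mem_range]
      by_contra h4
      have h5 := tk k (not_lt.1 h4) hk.1
      have h6 : lineOrd (fun t => Q t + ρ t) M hsep k ∈ U := hk.2
      rw [h5] at h6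
      exact hc.2 h6
    have := Finset.card_le_card hsub
    rwa [Finset.card_range] at this
  have hBn : r ≤ B.card + n := by
    have hsub : Finset.Ico n r ⊆ B := by
      intro k hk
      rw [Finset.mem_Ico] at hk
      rw [hB, Finset.mem_filter, Finset.mem_range]
      refine ⟨hk.2, ?_⟩
      change lineOrd (fun t => Q t + ρ t) M hsep k ∈ V
      rw [tk k hk.1 hk.2]
      exact hc.1
    have := Finset.card_le_card hsub
    rw [Nat.card_Ico] at this
    omega
  have hseg' : A.card * B.card ≤ C.card * r := by exact_mod_cast hseg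
  have e1 : A.card * r ≤ A.card * B.card + A.card * n := by
    rw [← Nat.mul_add]
    exact Nat.mul_le_mul_left _ hBn
  have e2 : (C.card + 1) * r ≤ A.card * r := Nat.mul_le_mul_right _ hA1
  have e3 : A.card * n ≤ n * n := Nat.mul_le_mul_right _ hAn
  have e4 : r = n * n + n + 1 := by rw [hr]; ring
  have e5 : (C.card + 1) * r = C.card * r + r := by ring
  omega

theorem not_unsh' {T : Type} [Finite T] {U V : Set (LinOrd T)} (h : UnivCorr U V) {b c : LinOrd T}
    (hb : b ∈ U \ V) (hc : c ∈ V \ U) : ¬ Unsh c.1 b.1 := by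
  have h' : UnivCorr V U := by
    intro X _ _ ι
    have := h X ι
    rw [Set.inter_comm, mul_comm]
    exact this
  exact not_unsh h' hc hb

end Pool.Agent.H59.TN
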