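import Mathlib

set_option autoImplicit false

/-!
# Nodes, halves and links: definitions for the counting argument
-/

namespace Pool.Agent.H59.TN

/-- `nu` sorts the elements of `Ω` into nodes; for every link direction `i`, `eta i` sorts the
elements into halves (each inside one node), and `sg i` maps halves to halves (an involution). -/
structure Sys (Ω I 𝒱 ℋ : Type) where
  nu : Ω → 𝒱
  eta : I → Ω → ℋ
  sg : I → Ω → Ω
  ref : ∀ i x y, eta i x = eta i y → nu x = nu y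
  par : ∀ i x y, eta i x = eta i y → eta i (sg i x) = eta i (sg i y)
  inv : ∀ i x, sg i (sg i x) = x
  conn : ∀ t : Ω → Bool, (∀ x y, nu x = nu y → t x = t y) → (∀ i x, t (sg i x) = t x) →
    ∀ x y, t x = t y

variable {Ω I 𝒱 ℋ : Type}

/-- `x` and `y` are in the same node, or in two halves exchanged by a link -/
def Sys.rel (S : Sys Ω I 𝒱 ℋ) (x y : Ω) : Prop :=
  S.nu x = S.nu y ∨ ∃ i, S.eta i y = S.eta i (S.sg i x)

theorem Sys.rel_symm (S : Sys Ω I 𝒱 ℋ) {x y : Ω} (h : S.rel x y) : S.rel y x := by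
  rcases h with h | ⟨i, h⟩
  · exact Or.inl h.symm
  · refine Or.inr ⟨i, ?_⟩
    rw [S.par i y (S.sg i x) h, S.inv]

/-- no element of `U \ V` is related to an element of `V \ U`, `(U, V) = p` -/
def Sys.Good (S : Sys Ω I 𝒱 ℋ) (p : Set Ω × Set Ω) : Prop :=
  ∀ x ∈ p.1 \ p.2, ∀ y ∈ p.2 \ p.1, ¬ S.rel x y

/-- all halves -/
def Sys.halves (S : Sys Ω I 𝒱 ℋ) : Set (I × ℋ) := Set.range fun q : I × Ω => (q.1, S.eta q.1 q.2)

/-- the halves on which `U` and `V` agree, `(U, V) = p` -/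
def Sys.H (S : Sys Ω I 𝒱 ℋ) (p : Set Ω × Set Ω) : Set (I × ℋ) :=
  {h | h ∈ S.halves ∧ ∀ x, S.eta h.1 x = h.2 → (x ∈ p.1 ↔ x ∈ p.2)}

/-- the type of the node of `x`: does it contain an element of `V \ U` -/
noncomputable def Sys.ty (S : Sys Ω I 𝒱 ℋ) (p : Set Ω × Set Ω) (x : Ω) : Bool := by
  classical exact decide (∃ y, S.nu y = S.nu x ∧ y ∈ p.2 \ p.1)

/-- the type functions which are compatible with a set of halves -/
def Sys.Ty (S : Sys Ω I 𝒱 ℋ) (H : Set (I × ℋ)) : Set (Ω → Bool) :=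
  {t | (∀ x y, S.nu x = S.nu y → t x = t y) ∧
    ∀ i x, (i, S.eta i x) ∉ H → (i, S.eta i (S.sg i x)) ∉ H → t (S.sg i x) = t x}

/-- the elements of the halves of a set of halves -/
def Sys.X (S : Sys Ω I 𝒱 ℋ) (H : Set (I × ℋ)) : Set Ω := {x | ∃ i, (i, S.eta i x) ∈ H}

/-- the pairs `(U, V)` compatible with a set of halves and a type function -/
def Sys.Pr (S : Sys Ω I 𝒱 ℋ) (H : Set (I × ℋ)) (t : Ω → Bool) : Set (Set Ω × Set Ω) :=
  {p | (∀ x, t x = true → x ∉ p.1 \ p.2) ∧ (∀ x, t x = false → x ∉ p.2 \ p.1) ∧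
    ∀ x ∈ S.X H, (x ∈ p.1 ↔ x ∈ p.2)}

end Pool.Agent.H59.TN
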