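import Pool.Agent.H59.TN.Defs

set_option autoImplicit false

/-!
# Module Chb: second moment and Chebyshev's inequality for random bits

`chb_var`: `2 pre π (2 m) - 2 m = ∑ i < 2 m, ε_π i` with `ε_π i = 1` for `i ∈ π`, `-1` otherwise. The
sum over all `π` of `ε_π i ε_π j` is `0` for `i ≠ j` (the involution `π ↦ symmDiff π {i}` changes the
sign) and `2 ^ W` for `i = j`. So `∑ π, (2 pre π (2 m) - 2 m) ^ 2 = 2 m 2 ^ W`.
`chb`: all `π` in the set contribute at least `u ^ 2` to `∑ π, (pre π (2 m) - m) ^ 2`.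
-/

namespace Pool.Agent.H59.TN

/-- the sign of `i` in `π` -/
private def chbE {W : ℕ} (π : Finset (Fin W)) (i : Fin W) : ℤ := if i ∈ π then 1 else -1

private theorem chbE_sq {W : ℕ} (π : Finset (Fin W)) (i : Fin W) :
    chbE π i * chbE π i = 1 := by
  unfold chbE
  split_ifs <;> norm_num

private theorem chbE_self {W : ℕ} (π : Finset (Fin W)) (i : Fin W) :
    chbE (symmDiff π {i}) i = - chbE π i := by
  unfold chbE
  by_cases h : i ∈ π <;> simp [Finset.mem_symmDiff, h]

private theorem chbE_ne {W : ℕ} (π : Finset (Fin W)) {i j : Fin W} (hij : j ≠ i) :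
    chbE (symmDiff π {i}) j = chbE π j := by
  unfold chbE
  by_cases h : j ∈ π <;> simp [Finset.mem_symmDiff, h, hij]

private theorem chb_cross {W : ℕ} {i j : Fin W} (hij : i ≠ j) :
    ∑ π : Finset (Fin W), chbE π i * chbE π j = 0 := by
  refine Finset.sum_involution (fun π _ => symmDiff π {i}) ?_ ?_ ?_ ?_
  · intro π _
    rw [chbE_self, chbE_ne π (Ne.symm hij)]
    ring
  · intro π _ _ h
    have h1 := chbE_self π i
    rw [h] at h1
    have h2 := chbE_sq π i
    have h3 : chbE π i = 0 := by omega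
    rw [h3] at h2
    norm_num at h2
  · intro π _
    exact Finset.mem_univ _
  · intro π _
    rw [symmDiff_assoc, symmDiff_self, symmDiff_bot]

private theorem chb_card {W m : ℕ} (hm : 2 * m ≤ W) :
    (Finset.univ.filter (fun i : Fin W => i.1 < 2 * m)).card = 2 * m := by
  rw [Fin.card_filter_val_lt, min_eq_right hm]

private theorem chb_pre {W m : ℕ} (hm : 2 * m ≤ W) (π : Finset (Fin W)) :
    2 * ((pre π (2 * m) : ℤ) - m) =
      ∑ i ∈ Finset.univ.filter (fun i : Fin W => i.1 < 2 * m), chbE π i := by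
  have h1 : ∀ i : Fin W, chbE π i = 2 * (if i ∈ π then 1 else 0) - 1 := by
    intro i
    unfold chbE
    split_ifs <;> norm_num
  rw [Finset.sum_congr rfl fun i _ => h1 i, Finset.sum_sub_distrib, ← Finset.mul_sum,
    Finset.sum_const, chb_card hm, Finset.sum_ite_mem, Finset.sum_const]
  have h2 : ((Finset.univ.filter (fun i : Fin W => i.1 < 2 * m)) ∩ π) =
      π.filter (fun i => i.1 < 2 * m) := by
    ext i
    simp only [Finset.mem_inter, Finset.mem_filter, Finset.mem_univ, true_and]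
    exact and_comm
  rw [h2]
  unfold pre
  simp only [nsmul_eq_mul, mul_one]
  push_cast
  ring

theorem chb_var {W m : ℕ} (hm : 2 * m ≤ W) :
    2 * ∑ π : Finset (Fin W), ((pre π (2 * m) : ℤ) - m) ^ 2 = m * 2 ^ W := by
  have h1 : ∀ π : Finset (Fin W), 4 * ((pre π (2 * m) : ℤ) - m) ^ 2 =
      ∑ i ∈ Finset.univ.filter (fun i : Fin W => i.1 < 2 * m),
        ∑ j ∈ Finset.univ.filter (fun i : Fin W => i.1 < 2 * m), chbE π i * chbE π j := by
    intro π
    rw [← Finset.sum_mul_sum, ← chb_pre hm]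
    ring
  have h2 : 4 * ∑ π : Finset (Fin W), ((pre π (2 * m) : ℤ) - m) ^ 2 = 2 * m * 2 ^ W := by
    rw [Finset.mul_sum, Finset.sum_congr rfl fun π _ => h1 π, Finset.sum_comm]
    have h3 : ∀ i ∈ Finset.univ.filter (fun i : Fin W => i.1 < 2 * m),
        ∑ π : Finset (Fin W), ∑ j ∈ Finset.univ.filter (fun i : Fin W => i.1 < 2 * m),
          chbE π i * chbE π j = 2 ^ W := by
      intro i hi
      rw [Finset.sum_comm, Finset.sum_eq_single_of_mem i hi]
      · rw [Finset.sum_congr rfl fun π _ => chbE_sq π i, Finset.sum_const, Finset.card_univ,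
          Fintype.card_finset, Fintype.card_fin]
        simp
      · intro j _ hj
        exact chb_cross (Ne.symm hj)
    rw [Finset.sum_congr rfl h3, Finset.sum_const, chb_card hm, nsmul_eq_mul]
    push_cast
    ring
  have h4 : (2 : ℤ) * (2 * ∑ π : Finset (Fin W), ((pre π (2 * m) : ℤ) - m) ^ 2) =
      2 * (m * 2 ^ W) := by
    rw [← mul_assoc, ← mul_assoc]
    norm_num
    exact h2
  exact mul_left_cancel₀ two_ne_zero h4

theorem chb {W m : ℕ} (hm : 2 * m ≤ W) (u : ℕ) :
    2 * u ^ 2 * ((Finset.univ : Finset (Finset (Fin W))).filter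
      (fun π => (u : ℤ) ≤ |(pre π (2 * m) : ℤ) - m|)).card ≤ m * 2 ^ W := by
  have h1 : (((Finset.univ : Finset (Finset (Fin W))).filter
      (fun π => (u : ℤ) ≤ |(pre π (2 * m) : ℤ) - m|)).card : ℤ) * (u : ℤ) ^ 2 ≤
      ∑ π : Finset (Fin W), ((pre π (2 * m) : ℤ) - m) ^ 2 := by
    calc (((Finset.univ : Finset (Finset (Fin W))).filter
        (fun π => (u : ℤ) ≤ |(pre π (2 * m) : ℤ) - m|)).card : ℤ) * (u : ℤ) ^ 2
        = ∑ π ∈ (Finset.univ : Finset (Finset (Fin W))).filter
            (fun π => (u : ℤ) ≤ |(pre π (2 * m) : ℤ) - m|), (u : ℤ) ^ 2 := by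
          rw [Finset.sum_const, nsmul_eq_mul]
      _ ≤ ∑ π ∈ (Finset.univ : Finset (Finset (Fin W))).filter
            (fun π => (u : ℤ) ≤ |(pre π (2 * m) : ℤ) - m|), ((pre π (2 * m) : ℤ) - m) ^ 2 := by
          refine Finset.sum_le_sum fun π hπ => ?_
          rw [Finset.mem_filter] at hπ
          rw [← sq_abs ((pre π (2 * m) : ℤ) - m)]
          exact pow_le_pow_left₀ (Int.natCast_nonneg u) hπ.2 2
      _ ≤ ∑ π : Finset (Fin W), ((pre π (2 * m) : ℤ) - m) ^ 2 :=
          Finset.sum_le_sum_of_subset_of_nonneg (Finset.filter_subset _ _)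
            fun π _ _ => sq_nonneg _
  have h2 := chb_var hm
  have h3 : (2 * (u : ℤ) ^ 2 * (((Finset.univ : Finset (Finset (Fin W))).filter
      (fun π => (u : ℤ) ≤ |(pre π (2 * m) : ℤ) - m|)).card : ℤ)) ≤ m * 2 ^ W := by
    rw [← h2]
    linarith [h1]
  exact_mod_cast h3

end Pool.Agent.H59.TN
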