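import Pool.Agent.H59.TN.CDefs

set_option autoImplicit false

/-!
# Module CnA: types along links

Let `(U, V) = p` be good. All elements of a node are related, so a node does not contain elements of
both `U \ V` and `V \ U`.
`ty_mem`: the first property of `Ty` is clear from the definition of `ty`. Let both halves
`h = (i, eta i x)`, `h' = (i, eta i (sg i x))` be outside `H p`. Then there are `z` with
`eta i z = eta i x` and `z'` with `eta i z' = eta i (sg i x)` on which `U` and `V` do not agree, and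
`z`, `z'` are related (`par`). If `ty x = true`, the node of `x` contains an element of `V \ U`, so none
of `U \ V`, so `z ∈ V \ U`, so `z' ∉ U \ V` (`Good`, `rel_symm`), so `z' ∈ V \ U` and `ty (sg i x) = true`
(`ref`). If `ty x = false` then `z ∈ U \ V`, so `z' ∉ V \ U`, `z' ∈ U \ V`, and the node of `sg i x` contains
no element of `V \ U`.
`nested`: if `H p = ∅` then `ty` is constant by `ty_mem` and `conn`. If it is `true` everywhere, then
`U \ V = ∅`; if it is `false` everywhere then `V \ U = ∅`. (If `Ω` is empty both hold.)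
`pr_mem`: from the definitions.
-/

namespace Pool.Agent.H59.TN

variable {Ω I 𝒱 ℋ : Type} (S : Sys Ω I 𝒱 ℋ) {p : Set Ω × Set Ω}

private lemma CnA_iff (x : Ω) : S.ty p x = true ↔ ∃ y, S.nu y = S.nu x ∧ y ∈ p.2 \ p.1 := by
  unfold Sys.ty
  simp

private lemma CnA_t {x w : Ω} (hw : w ∈ p.2 \ p.1) (h : S.nu w = S.nu x) : S.ty p x = true :=
  (CnA_iff S x).2 ⟨w, h, hw⟩

private lemma CnA_f (hp : S.Good p) {x w : Ω} (hw : w ∈ p.1 \ p.2) (h : S.nu w = S.nu x) :
    S.ty p x = false := by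
  by_contra hne
  have ht : S.ty p x = true := by
    revert hne
    cases S.ty p x <;> simp
  obtain ⟨y, hy, hy2⟩ := (CnA_iff S x).1 ht
  exact hp w hw y hy2 (Or.inl (h.trans hy.symm))

private lemma CnA_ex {i : I} {x : Ω} (h : (i, S.eta i x) ∉ S.H p) :
    ∃ z, S.eta i z = S.eta i x ∧ (z ∈ p.1 \ p.2 ∨ z ∈ p.2 \ p.1) := by
  by_contra hcon
  apply h
  refine ⟨⟨(i, x), rfl⟩, ?_⟩
  intro z hz
  by_contra hne
  apply hcon
  refine ⟨z, hz, ?_⟩
  by_cases h1 : z ∈ p.1
  · left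
    refine ⟨h1, fun h2 => hne ⟨fun _ => h2, fun _ => h1⟩⟩
  · right
    refine ⟨?_, h1⟩
    by_contra h2
    exact hne ⟨fun h => absurd h h1, fun h => absurd h h2⟩

theorem Sys.ty_mem (hp : S.Good p) : S.ty p ∈ S.Ty (S.H p) := by
  refine ⟨?_, ?_⟩
  · intro x y h
    rw [Bool.eq_iff_iff, CnA_iff, CnA_iff, h]
  · intro i x h1 h2
    obtain ⟨z, hz, hz2⟩ := CnA_ex S h1
    obtain ⟨z', hz', hz2'⟩ := CnA_ex S h2
    have hrel : S.rel z z' := Or.inr ⟨i, by rw [hz', S.par i z x hz]⟩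
    have hn := S.ref i _ _ hz
    have hn' := S.ref i _ _ hz'
    rcases hz2 with hz2 | hz2
    · rcases hz2' with hz2' | hz2'
      · rw [CnA_f S hp hz2 hn, CnA_f S hp hz2' hn']
      · exact absurd hrel (hp z hz2 z' hz2')
    · rcases hz2' with hz2' | hz2'
      · exact absurd (S.rel_symm hrel) (hp z' hz2' z hz2)
      · rw [CnA_t S hz2 hn, CnA_t S hz2' hn']

theorem Sys.pr_mem (hp : S.Good p) : p ∈ S.Pr (S.H p) (S.ty p) := by
  refine ⟨?_, ?_, ?_⟩
  · intro x hx hx2
    rw [CnA_f S hp hx2 rfl] at hx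
    exact Bool.false_ne_true hx
  · intro x hx hx2
    rw [CnA_t S hx2 rfl] at hx
    exact Bool.false_ne_true hx.symm
  · rintro x ⟨i, hi⟩
    exact hi.2 x rfl

theorem Sys.nested (hp : S.Good p) (h : S.H p = ∅) : p.1 ⊆ p.2 ∨ p.2 ⊆ p.1 := by
  by_contra hcon
  rw [not_or, Set.not_subset, Set.not_subset] at hcon
  obtain ⟨⟨x, hx1, hx2⟩, y, hy1, hy2⟩ := hcon
  have hm := S.ty_mem hp
  rw [h] at hm
  have e := S.conn (S.ty p) hm.1 (fun i x => hm.2 i x (Set.notMem_empty _) (Set.notMem_empty _)) x y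
  rw [CnA_f S hp ⟨hx1, hx2⟩ rfl, CnA_t S ⟨hy1, hy2⟩ rfl] at e
  exact Bool.false_ne_true e

end Pool.Agent.H59.TN
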