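import Pool.Agent.H59.TN.CDefs

set_option autoImplicit false

/-!
# Module CnB: the number of type functions compatible with a set of halves

If `Ω` is empty there is one function `Ω → Bool`. Otherwise fix `x₀` and for every `h ∈ H` (`H ⊆ halves`)
a point `x_h` with `eta h.1 x_h = h.2`. The map `t ↦ (t x₀, fun h : H => xor (t x_h) (t (sg h.1 x_h)))`
from `Ty H` to `Bool × (H → Bool)` is injective: let `t`, `t'` have the same image and let
`d x = xor (t x) (t' x)`. `d` is constant on nodes. `d (sg i x) = d x`: if both halves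
`(i, eta i x)`, `(i, eta i (sg i x))` are outside `H` this is the second property of `Ty` for `t` and `t'`; if
`h = (i, eta i x) ∈ H` then `t x = t x_h` (`ref`) and `t (sg i x) = t (sg i x_h)` (`par`, `ref`), the same for `t'`,
and the bits at `h` agree; if `h' = (i, eta i (sg i x)) ∈ H` the same with `sg i x` in place of `x`
(`sg i (sg i x) = x`). By `conn` `d` is constant, equal to `d x₀ = false`, so `t = t'`. Cardinality:
`Set.ncard_le_ncard_of_injOn` or `Nat.card` of `Bool × (H → Bool)`, `2 * 2 ^ H.ncard`.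
-/

namespace Pool.Agent.H59.TN

variable {Ω I 𝒱 ℋ : Type} (S : Sys Ω I 𝒱 ℋ)

theorem Sys.card_Ty [Finite Ω] [Finite I] {H : Set (I × ℋ)} (hH : H ⊆ S.halves) :
    (S.Ty H).ncard ≤ 2 * 2 ^ H.ncard := by
  classical
  rcases isEmpty_or_nonempty Ω with hE | ⟨⟨x₀⟩⟩
  · have h1 : (S.Ty H).Subsingleton := fun a _ b _ => Subsingleton.elim a b
    have h2 : (S.Ty H).ncard ≤ 1 := by
      rcases h1.eq_empty_or_singleton with h | ⟨a, h⟩
      · rw [h]; simp
      · rw [h]; simp
    have h3 : 1 ≤ 2 ^ H.ncard := Nat.one_le_two_pow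
    omega
  · have hfin : H.Finite := (Set.finite_range _).subset hH
    have hrep : ∀ h : H, ∃ x, S.eta h.1.1 x = h.1.2 := by
      rintro ⟨h, hh⟩
      obtain ⟨q, hq⟩ := hH hh
      refine ⟨q.2, ?_⟩
      simp only [← hq]
    choose rep hrep using hrep
    have : Finite H := hfin
    let F : (Ω → Bool) → Bool × (H → Bool) := fun t =>
      (t x₀, fun h => xor (t (rep h)) (t (S.sg h.1.1 (rep h))))
    have hkey : ∀ t ∈ S.Ty H, ∀ t' ∈ S.Ty H, F t = F t' → ∀ i x, (i, S.eta i x) ∈ H →
        xor (t x) (t' x) = xor (t (S.sg i x)) (t' (S.sg i x)) := by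
      intro t ht t' ht' hF i x hx
      have h1 := congrFun (congrArg Prod.snd hF) ⟨(i, S.eta i x), hx⟩
      simp only [F] at h1
      have h2 : S.eta i (rep ⟨(i, S.eta i x), hx⟩) = S.eta i x := hrep ⟨(i, S.eta i x), hx⟩
      have h3 := S.ref i _ _ h2
      have h4 := S.ref i _ _ (S.par i _ _ h2)
      rw [ht.1 _ _ h3, ht.1 _ _ h4, ht'.1 _ _ h3, ht'.1 _ _ h4] at h1
      revert h1
      cases t x <;> cases t' x <;> cases t (S.sg i x) <;> cases t' (S.sg i x) <;> simp
    have hinj : Set.InjOn F (S.Ty H) := by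
      intro t ht t' ht' hF
      have hc := S.conn (fun x => xor (t x) (t' x))
        (fun x y hxy => by
          show xor (t x) (t' x) = xor (t y) (t' y)
          rw [ht.1 x y hxy, ht'.1 x y hxy])
        (fun i x => by
          show xor (t (S.sg i x)) (t' (S.sg i x)) = xor (t x) (t' x)
          by_cases h1 : (i, S.eta i x) ∈ H
          · exact (hkey t ht t' ht' hF i x h1).symm
          by_cases h2 : (i, S.eta i (S.sg i x)) ∈ H
          · have h3 := hkey t ht t' ht' hF i (S.sg i x) h2
            rw [S.inv] at h3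
            exact h3
          · rw [ht.2 i x h1 h2, ht'.2 i x h1 h2])
      funext x
      have h0 : t x₀ = t' x₀ := congrArg Prod.fst hF
      have h1 : xor (t x) (t' x) = xor (t x₀) (t' x₀) := hc x x₀
      rw [h0] at h1
      revert h1
      cases t x <;> cases t' x <;> cases t' x₀ <;> simp
    have h5 : (S.Ty H).ncard ≤ (Set.univ : Set (Bool × (H → Bool))).ncard :=
      Set.ncard_le_ncard_of_injOn F (fun _ _ => Set.mem_univ _) hinj Set.finite_univ
    refine h5.trans (le_of_eq ?_)
    rw [Set.ncard_univ, Nat.card_prod, Nat.card_fun, Nat.card_eq_fintype_card, Fintype.card_bool,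
      Nat.card_coe_set_eq]

end Pool.Agent.H59.TN
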