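import Pool.Agent.H59.TN.CDefs

set_option autoImplicit false

/-!
# Module CnC: the number of pairs compatible with a set of halves and a type function

The pairs `(U, V)` correspond to the functions `f : Ω → Prop × Prop` (or `Bool × Bool`),
`f x = (x ∈ U, x ∈ V)`. For `p ∈ Pr H t` the value at `x` lies in `{(0,0), (1,1)}` if `x ∈ X H`, and
otherwise in `{(0,0), (1,1), (0,1)}` (`t x = true`) or `{(0,0), (1,1), (1,0)}` (`t x = false`). So the number is at
most the product over `x` of the cardinalities (`Fintype.piFinset`, `Fintype.card_piFinset`), which is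
`2 ^ |X| * 3 ^ (|Ω| - |X|)` (`Finset.prod_ite` or `Finset.prod_const` on the two parts).
-/

namespace Pool.Agent.H59.TN

variable {Ω I 𝒱 ℋ : Type} (S : Sys Ω I 𝒱 ℋ)

theorem Sys.card_Pr [Finite Ω] (H : Set (I × ℋ)) (t : Ω → Bool) :
    (S.Pr H t).ncard ≤ 2 ^ (S.X H).ncard * 3 ^ (Nat.card Ω - (S.X H).ncard) := by
  classical
  letI := Fintype.ofFinite Ω
  let s : Ω → Finset (Bool × Bool) := fun x =>
    if x ∈ S.X H then {(true, true), (false, false)}
    else if t x = true then {(true, true), (false, false), (false, true)}
    else {(true, true), (false, false), (true, false)}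
  have hc : ∀ x, (s x).card = if x ∈ S.X H then 2 else 3 := by
    intro x
    by_cases h1 : x ∈ S.X H
    · have h2 : s x = {(true, true), (false, false)} := if_pos h1
      rw [h2, if_pos h1]
      decide
    · by_cases h3 : t x = true
      · have h2 : s x = {(true, true), (false, false), (false, true)} :=
          (if_neg h1).trans (if_pos h3)
        rw [h2, if_neg h1]
        decide
      · have h2 : s x = {(true, true), (false, false), (true, false)} :=
          (if_neg h1).trans (if_neg h3)
        rw [h2, if_neg h1]
        decide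
  have h1 : (Finset.univ.filter fun x => x ∈ S.X H).card = (S.X H).ncard := by
    rw [← Set.ncard_coe_finset]
    congr 1
    ext x
    simp
  have h2 : (Finset.univ.filter fun x => ¬ x ∈ S.X H).card = Nat.card Ω - (S.X H).ncard := by
    have h3 := Finset.card_filter_add_card_filter_not (s := (Finset.univ : Finset Ω))
      (fun x => x ∈ S.X H)
    rw [h1, Finset.card_univ, ← Nat.card_eq_fintype_card] at h3
    omega
  have hP : (Fintype.piFinset s).card =
      2 ^ (S.X H).ncard * 3 ^ (Nat.card Ω - (S.X H).ncard) := by
    rw [Fintype.card_piFinset, Finset.prod_congr rfl (fun x _ => hc x), Finset.prod_ite,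
      Finset.prod_const, Finset.prod_const, h1, h2]
  rw [← hP, ← Set.ncard_coe_finset]
  refine Set.ncard_le_ncard_of_injOn
    (fun (p : Set Ω × Set Ω) (x : Ω) => (decide (x ∈ p.1), decide (x ∈ p.2))) ?_ ?_
    (Finset.finite_toSet _)
  · intro p hp
    rw [Finset.mem_coe, Fintype.mem_piFinset]
    intro x
    obtain ⟨ha, hb, hx⟩ := hp
    have ha1 := ha x
    have hb1 := hb x
    have hx1 := hx x
    by_cases h3 : x ∈ S.X H
    · have h4 : s x = {(true, true), (false, false)} := if_pos h3
      have h5 := hx1 h3
      rw [h4]
      by_cases h6 : x ∈ p.1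
      · simp [h6, h5.1 h6]
      · have h7 : x ∉ p.2 := fun h => h6 (h5.2 h)
        simp [h6, h7]
    · by_cases h8 : t x = true
      · have h4 : s x = {(true, true), (false, false), (false, true)} :=
          (if_neg h3).trans (if_pos h8)
        have h5 := ha1 h8
        rw [h4]
        by_cases h6 : x ∈ p.1
        · have h7 : x ∈ p.2 := by
            by_contra h
            exact h5 ⟨h6, h⟩
          simp [h6, h7]
        · by_cases h7 : x ∈ p.2 <;> simp [h6, h7]
      · have h4 : s x = {(true, true), (false, false), (true, false)} :=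
          (if_neg h3).trans (if_neg h8)
        have h9 : t x = false := by simpa using h8
        have h5 := hb1 h9
        rw [h4]
        by_cases h7 : x ∈ p.2
        · have h6 : x ∈ p.1 := by
            by_contra h
            exact h5 ⟨h7, h⟩
          simp [h6, h7]
        · by_cases h6 : x ∈ p.1 <;> simp [h6, h7]
  · intro p _ q _ hpq
    have h3 : ∀ x, (x ∈ p.1 ↔ x ∈ q.1) ∧ (x ∈ p.2 ↔ x ∈ q.2) := by
      intro x
      have h4 := congrFun hpq x
      simp only [Prod.mk.injEq, decide_eq_decide] at h4
      exact h4
    exact Prod.ext (Set.ext fun x => (h3 x).1) (Set.ext fun x => (h3 x).2)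

end Pool.Agent.H59.TN
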