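import Pool.Agent.H59.TN.CDefs

set_option autoImplicit false

/-!
# Module CnD: many halves have many elements

Double counting of the pairs `(h, x)`, `h ∈ H`, `eta h.1 x = h.2` (then `x ∈ X H`): for every `h ∈ H ⊆ halves`
there are at least `s` of them (`hs`), for every `x ∈ X H` at most `Nat.card I` (the first component of
`h` determines `h = (i, eta i x)`). So `|H| q |I| ≤ |H| s ≤ |X H| |I|` (`Finset.sum_card_bipartiteAbove_eq_sum_card_bipartiteBelow` or
`Finset.card_eq_sum_card_fiberwise`, or an injection from the sigma type). If `I` is empty then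
`H = ∅`; otherwise cancel `|I| > 0`.
-/

namespace Pool.Agent.H59.TN

variable {Ω I 𝒱 ℋ : Type} (S : Sys Ω I 𝒱 ℋ)

theorem Sys.le_card_X [Finite Ω] [Finite I] {H : Set (I × ℋ)} (hH : H ⊆ S.halves) {s q : ℕ}
    (hs : ∀ i x, s ≤ {y | S.eta i y = S.eta i x}.ncard) (hq : q * Nat.card I ≤ s) :
    q * H.ncard ≤ (S.X H).ncard := by
  classical
  have hfin : H.Finite := (Set.finite_range fun q : I × Ω => (q.1, S.eta q.1 q.2)).subset hH
  have hX : (S.X H).Finite := Set.toFinite _
  set HF := hfin.toFinset with hHF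
  set XF := hX.toFinset with hXF
  have _ : Fintype I := Fintype.ofFinite I
  have key := Finset.sum_card_bipartiteAbove_eq_sum_card_bipartiteBelow (s := HF) (t := XF)
    (fun (h : I × ℋ) (x : Ω) => S.eta h.1 x = h.2)
  have h1 : ∀ h ∈ HF, s ≤ (XF.bipartiteAbove
      (fun (h : I × ℋ) (x : Ω) => S.eta h.1 x = h.2) h).card := by
    intro h hh
    have hh' : h ∈ H := hfin.mem_toFinset.1 hh
    obtain ⟨⟨i, x⟩, hix⟩ := hH hh'
    have e1 : h.1 = i := by rw [← hix]
    have e2 : h.2 = S.eta i x := by rw [← hix]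
    refine (hs i x).trans ?_
    rw [← Set.ncard_coe_finset]
    refine Set.ncard_le_ncard ?_ (Finset.finite_toSet _)
    intro y hy
    have hy' : S.eta i y = S.eta i x := hy
    rw [Finset.mem_coe, Finset.mem_bipartiteAbove]
    refine ⟨hX.mem_toFinset.2 ⟨i, ?_⟩, ?_⟩
    · rw [hy', ← e2, ← e1]
      exact hh'
    · rw [e1, e2, hy']
  have h2 : ∀ x ∈ XF, (HF.bipartiteBelow
      (fun (h : I × ℋ) (x : Ω) => S.eta h.1 x = h.2) x).card ≤ Nat.card I := by
    intro x _
    rw [Nat.card_eq_fintype_card, ← Finset.card_univ]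
    refine Finset.card_le_card_of_injOn Prod.fst (fun _ _ => Finset.mem_univ _) ?_
    intro h hh h' hh' e
    rw [Finset.mem_coe, Finset.mem_bipartiteBelow] at hh hh'
    refine Prod.ext e ?_
    rw [← hh.2, ← hh'.2, e]
  have h3 := Finset.sum_le_sum h1
  have h4 := Finset.sum_le_sum h2
  rw [Finset.sum_const, smul_eq_mul] at h3 h4
  have h5 : HF.card = H.ncard := (Set.ncard_eq_toFinset_card H hfin).symm
  have h6 : XF.card = (S.X H).ncard := (Set.ncard_eq_toFinset_card (S.X H) hX).symm
  rw [h5] at h3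
  rw [h6] at h4
  have h7 : H.ncard * s ≤ (S.X H).ncard * Nat.card I := h3.trans (key.le.trans h4)
  rcases Nat.eq_zero_or_pos (Nat.card I) with h0 | h0
  · have h8 : HF = ∅ := by
      rw [Finset.eq_empty_iff_forall_notMem]
      intro h _
      have := Finite.card_eq_zero_iff.1 h0
      exact this.false h.1
    rw [h8, Finset.card_empty] at h5
    rw [← h5, mul_zero]
    exact Nat.zero_le _
  · have h9 : q * H.ncard * Nat.card I ≤ (S.X H).ncard * Nat.card I := by
      calc q * H.ncard * Nat.card I = H.ncard * (q * Nat.card I) := by ring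
        _ ≤ H.ncard * s := Nat.mul_le_mul_left _ hq
        _ ≤ _ := h7
    exact Nat.le_of_mul_le_mul_right h9 h0

end Pool.Agent.H59.TN
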