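import Pool.Agent.H59.TN.CnA
import Pool.Agent.H59.TN.CnB
import Pool.Agent.H59.TN.CnC
import Pool.Agent.H59.TN.CnD

set_option autoImplicit false

/-!
# Module CnE: the number of good pairs that are not nested

`N = |Ω|`, `M = |halves| ≤ |I| N`. By `nested`, `ty_mem`, `pr_mem` the set on the left is contained in the union over
the nonempty subsets `H` of `halves` and over `t ∈ Ty H` of `Pr H t`. So its cardinality is at most
`∑ H ≠ ∅, 2 * 2 ^ |H| * 2 ^ |X H| * 3 ^ (N - |X H|)`, in real numbers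
`2 * 3 ^ N * ∑ H ≠ ∅, 2 ^ |H| (2 / 3) ^ |X H| ≤ 2 * 3 ^ N * ∑ H ≠ ∅, (2 (2 / 3) ^ q) ^ |H|` (`le_card_X`)
`= 2 * 3 ^ N * ((1 + y) ^ M - 1)`, `y = 2 (2 / 3) ^ q` (`Finset.sum_pow_mul_eq_add_pow`,
`Finset.powerset`). `(1 + y) ^ M ≤ exp (M y) ≤ 1 + 2 M y` for `M y ≤ 1` (`Real.add_one_le_exp`,
and `Real.exp_bound'`/`Real.abs_exp_sub_one_le`: `|exp z - 1| ≤ 2 |z|` for `|z| ≤ 1`). So the number is at most
`4 * 3 ^ N * M y = 8 M (2 / 3) ^ q 3 ^ N`. (If `M y > 1` use nothing: the hypothesis `h1` excludes it.)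
-/

namespace Pool.Agent.H59.TN

variable {Ω I 𝒱 ℋ : Type} (S : Sys Ω I 𝒱 ℋ)

private theorem cnE_union {α β : Type} [Finite β] (f : α → Set β) (T : Finset α) :
    (⋃ t ∈ T, f t).ncard ≤ ∑ t ∈ T, (f t).ncard := by
  classical
  induction T using Finset.induction_on with
  | empty => simp
  | insert a T ha ih =>
    rw [Finset.set_biUnion_insert, Finset.sum_insert ha]
    exact (Set.ncard_union_le _ _).trans (Nat.add_le_add_left ih _)

private theorem cnE_term {N x m q : ℕ} (hx : x ≤ N) (hq : q * m ≤ x) :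
    ((2 * 2 ^ m * (2 ^ x * 3 ^ (N - x)) : ℕ) : ℝ) ≤
      2 * 3 ^ N * (2 * (2 / 3 : ℝ) ^ q) ^ m := by
  have h1 : (3 : ℝ) ^ N = 3 ^ x * 3 ^ (N - x) := by
    rw [← pow_add]
    congr 1
    omega
  have h2 : (2 / 3 : ℝ) ^ x ≤ (2 / 3 : ℝ) ^ (q * m) :=
    pow_le_pow_of_le_one (by norm_num) (by norm_num) hq
  have h3 : (2 : ℝ) ^ x = (2 / 3 : ℝ) ^ x * 3 ^ x := by
    rw [← mul_pow]
    norm_num
  have h4 : (2 * (2 / 3 : ℝ) ^ q) ^ m = 2 ^ m * (2 / 3 : ℝ) ^ (q * m) := by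
    rw [mul_pow, ← pow_mul]
  push_cast
  rw [h1, h3, h4]
  have h5 : (0 : ℝ) ≤ 2 * 2 ^ m * 3 ^ x * 3 ^ (N - x) := by positivity
  have h6 := mul_le_mul_of_nonneg_left h2 h5
  calc (2 * 2 ^ m * ((2 / 3 : ℝ) ^ x * 3 ^ x * 3 ^ (N - x)))
      = 2 * 2 ^ m * 3 ^ x * 3 ^ (N - x) * (2 / 3 : ℝ) ^ x := by ring
    _ ≤ 2 * 2 ^ m * 3 ^ x * 3 ^ (N - x) * (2 / 3 : ℝ) ^ (q * m) := h6
    _ = 2 * (3 ^ x * 3 ^ (N - x)) * (2 ^ m * (2 / 3 : ℝ) ^ (q * m)) := by ring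

private theorem cnE_exp {y w : ℝ} {M : ℕ} (hy : 0 ≤ y) (hM : (M : ℝ) * y ≤ w) (hw : w ≤ 1) :
    (1 + y) ^ M - 1 ≤ 2 * w := by
  have hw0 : 0 ≤ w := (mul_nonneg (Nat.cast_nonneg M) hy).trans hM
  have h1 : (1 + y) ^ M ≤ Real.exp (M * y) := by
    have h2 : 1 + y ≤ Real.exp y := by
      have := Real.add_one_le_exp y
      linarith
    calc (1 + y) ^ M ≤ (Real.exp y) ^ M := pow_le_pow_left₀ (by linarith) h2 M
      _ = Real.exp (M * y) := (Real.exp_nat_mul y M).symm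
  have h3 : Real.exp (M * y) ≤ Real.exp w := Real.exp_le_exp.2 hM
  have h4 : |Real.exp w - 1| ≤ 2 * |w| := Real.abs_exp_sub_one_le (by
    rw [abs_of_nonneg hw0]
    exact hw)
  rw [abs_of_nonneg hw0] at h4
  have h5 := le_abs_self (Real.exp w - 1)
  linarith

theorem Sys.card_good [Finite Ω] [Finite I] {s q : ℕ}
    (hs : ∀ i x, s ≤ {y | S.eta i y = S.eta i x}.ncard) (hq : q * Nat.card I ≤ s)
    (h1 : 2 * ((Nat.card I : ℝ) * Nat.card Ω) * (2 / 3 : ℝ) ^ q ≤ 1) :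
    (({p : Set Ω × Set Ω | S.Good p ∧ ¬ (p.1 ⊆ p.2 ∨ p.2 ⊆ p.1)}.ncard : ℕ) : ℝ) ≤
      8 * ((Nat.card I : ℝ) * Nat.card Ω) * (2 / 3 : ℝ) ^ q * 3 ^ Nat.card Ω := by
  classical
  have hF : S.halves.Finite := Set.finite_range _
  have hMc : hF.toFinset.card ≤ Nat.card I * Nat.card Ω := by
    rw [← Set.ncard_eq_toFinset_card _ hF, ← Nat.card_prod, ← Set.ncard_univ (I × Ω)]
    unfold Sys.halves
    rw [← Set.image_univ]
    exact Set.ncard_image_le Set.finite_univ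
  set 𝒮 : Finset (Finset (I × ℋ)) := hF.toFinset.powerset.erase ∅ with h𝒮
  have hcov : {p : Set Ω × Set Ω | S.Good p ∧ ¬ (p.1 ⊆ p.2 ∨ p.2 ⊆ p.1)} ⊆
      ⋃ H ∈ 𝒮, ⋃ t ∈ (Set.toFinite (S.Ty (H : Set (I × ℋ)))).toFinset,
        S.Pr (H : Set (I × ℋ)) t := by
    rintro p ⟨hp, hn⟩
    have hHs : S.H p ⊆ S.halves := fun h hh => hh.1
    have hHf : (S.H p).Finite := hF.subset hHs
    have hne : S.H p ≠ ∅ := fun h => hn (S.nested hp h)
    simp only [Set.mem_iUnion]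
    refine ⟨hHf.toFinset, ?_, S.ty p, ?_, ?_⟩
    · rw [h𝒮, Finset.mem_erase, Finset.mem_powerset]
      refine ⟨?_, ?_⟩
      · intro h
        apply hne
        rw [← hHf.coe_toFinset, h, Finset.coe_empty]
      · exact Set.Finite.toFinset_subset_toFinset.2 hHs
    · rw [Set.Finite.mem_toFinset, Set.Finite.coe_toFinset]
      exact S.ty_mem hp
    · rw [Set.Finite.coe_toFinset]
      exact S.pr_mem hp
  have h2 : {p : Set Ω × Set Ω | S.Good p ∧ ¬ (p.1 ⊆ p.2 ∨ p.2 ⊆ p.1)}.ncard ≤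
      ∑ H ∈ 𝒮, 2 * 2 ^ H.card * (2 ^ (S.X (H : Set (I × ℋ))).ncard *
        3 ^ (Nat.card Ω - (S.X (H : Set (I × ℋ))).ncard)) := by
    refine (Set.ncard_le_ncard hcov (Set.toFinite _)).trans ((cnE_union _ _).trans ?_)
    refine Finset.sum_le_sum fun H hH => ?_
    have hHs : (H : Set (I × ℋ)) ⊆ S.halves := by
      rw [h𝒮, Finset.mem_erase, Finset.mem_powerset] at hH
      intro h hh
      exact hF.mem_toFinset.1 (hH.2 (Finset.mem_coe.1 hh))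
    refine (cnE_union _ _).trans ?_
    refine (Finset.sum_le_card_nsmul _ _ _ fun t _ => S.card_Pr (H : Set (I × ℋ)) t).trans ?_
    rw [smul_eq_mul, ← Set.ncard_eq_toFinset_card]
    refine Nat.mul_le_mul_right _ ?_
    have h3 := S.card_Ty hHs
    rw [Set.ncard_coe_finset] at h3
    exact h3
  have h3 : (({p : Set Ω × Set Ω | S.Good p ∧ ¬ (p.1 ⊆ p.2 ∨ p.2 ⊆ p.1)}.ncard : ℕ) : ℝ) ≤
      ∑ H ∈ 𝒮, 2 * 3 ^ Nat.card Ω * (2 * (2 / 3 : ℝ) ^ q) ^ H.card := by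
    refine (Nat.cast_le.2 h2).trans ?_
    rw [Nat.cast_sum]
    refine Finset.sum_le_sum fun H hH => ?_
    have hHs : (H : Set (I × ℋ)) ⊆ S.halves := by
      rw [h𝒮, Finset.mem_erase, Finset.mem_powerset] at hH
      intro h hh
      exact hF.mem_toFinset.1 (hH.2 (Finset.mem_coe.1 hh))
    have hx : (S.X (H : Set (I × ℋ))).ncard ≤ Nat.card Ω := by
      rw [← Set.ncard_univ Ω]
      exact Set.ncard_le_ncard (Set.subset_univ _) Set.finite_univ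
    have hq' := S.le_card_X hHs hs hq
    rw [Set.ncard_coe_finset] at hq'
    exact cnE_term hx hq'
  have h4 : ∑ H ∈ 𝒮, 2 * 3 ^ Nat.card Ω * (2 * (2 / 3 : ℝ) ^ q) ^ H.card =
      2 * 3 ^ Nat.card Ω * ((1 + 2 * (2 / 3 : ℝ) ^ q) ^ hF.toFinset.card - 1) := by
    rw [← Finset.mul_sum]
    congr 1
    have h5 := Finset.sum_pow_mul_eq_add_pow (2 * (2 / 3 : ℝ) ^ q) 1 hF.toFinset
    simp only [one_pow, mul_one] at h5
    have h6 := Finset.sum_erase_add (hF.toFinset.powerset)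
      (fun H => (2 * (2 / 3 : ℝ) ^ q) ^ H.card) (Finset.empty_mem_powerset hF.toFinset)
    simp only [Finset.card_empty, pow_zero] at h6
    rw [h𝒮]
    rw [add_comm (1 : ℝ)]
    linarith
  have hy : (0 : ℝ) ≤ 2 * (2 / 3 : ℝ) ^ q := by positivity
  have hMr : (hF.toFinset.card : ℝ) * (2 * (2 / 3 : ℝ) ^ q) ≤
      2 * ((Nat.card I : ℝ) * Nat.card Ω) * (2 / 3 : ℝ) ^ q := by
    have h7 : (hF.toFinset.card : ℝ) ≤ (Nat.card I : ℝ) * Nat.card Ω := by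
      exact_mod_cast hMc
    have h8 := mul_le_mul_of_nonneg_right h7 hy
    linarith
  have h9 := cnE_exp hy hMr h1
  have h10 : (0 : ℝ) ≤ 2 * 3 ^ Nat.card Ω := by positivity
  have h11 := mul_le_mul_of_nonneg_left h9 h10
  rw [← h4] at h11
  linarith

end Pool.Agent.H59.TN
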