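import Pool.Agent.H59.TN.EncA
import Pool.Agent.H59.TN.Wgt

set_option autoImplicit false

/-!
# Module Ord: the ordering of `T` in a shuffle with a good window state

Let `t₀ = a + b + 1`, `j = pre S t₀ - (a + 1)`, `π = win S t₀ (4 v P)`. Compare `(emb s, emb t)` with
`hgt s, hgt t` in the four cases `s ∈ M`, `t ∈ M`. Both in `M`, or both outside: `lin_inr`, `lin_inl`
and `hgt` both say `p s < p t` (`v > 0`). `s ∈ M`, `t ∉ M`: by `lin_rl` the left side is
`pre S (a + 2 v p t + (b + 2 v p s) + 1) ≤ a + 2 v p t`; the argument is `t₀ + 2 v l`,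
`l = p s + p t ≤ 2 P`, and `pre_add` gives `a + 1 + j + pre π (2 v l) ≤ a + 2 v p t`, that is with
`ε = pre π (2 v l) - v l`, `|ε| < u`: `1 + j + ε ≤ v (p t - p s)`. As
`v k < j + u - u + 1 ≤ j + 1 + ε < v (k + 1)` (from `v k + u ≤ j`, `j + u < v (k + 1)`) this holds iff
`k + 1 ≤ p t - p s` (if `p t - p s ≤ k` then `v (p t - p s) ≤ v k`), i.e.
`2 p s + 2 k + 1 < 2 p t`, which is `hgt s < hgt t`. `s ∉ M`, `t ∈ M`: the negation of the previous case
with `s`, `t` exchanged (`lin_lr`). Conclude by `Subtype.ext`, `funext`, `propext`.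
-/

namespace Pool.Agent.H59.TN

open Pool.Agent.H45.Corr

theorem ord_key {v u P k a b N₁ N₂ : ℕ}
    (ha : a + 2 * v * P < N₁) (hb : b + 2 * v * P < N₂)
    {S : Finset (Fin (N₁ + N₂))} (h1 : a + 1 ≤ pre S (a + b + 1))
    (h2 : (pre S (a + b + 1) - (a + 1), win S (a + b + 1) (4 * v * P)) ∈ Gd v u P k)
    {x y : ℕ} (hx : x ≤ P) (hy : y ≤ P) :
    pre S (a + 2 * v * y + (b + 2 * v * x) + 1) ≤ a + 2 * v * y ↔
      (2 * (x : ℤ) + (2 * (k : ℤ) + 1) < 2 * (y : ℤ)) := by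
  obtain ⟨g1, g2, g3⟩ := h2
  have hl : x + y ≤ 2 * P := by omega
  have g4 := g3 (x + y) hl
  simp only at g1 g2 g4
  have e1 : a + 2 * v * y + (b + 2 * v * x) + 1 = (a + b + 1) + 2 * v * (x + y) := by ring
  have hPP : 4 * v * P = 2 * v * P + 2 * v * P := by ring
  have hW : a + b + 1 + 4 * v * P ≤ N₁ + N₂ := by omega
  have hi : 2 * v * (x + y) ≤ 4 * v * P := by
    calc 2 * v * (x + y) ≤ 2 * v * (2 * P) := Nat.mul_le_mul_left _ hl
      _ = 4 * v * P := by ring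
  rw [e1, pre_add S hW hi]
  set w := pre (win S (a + b + 1) (4 * v * P)) (2 * v * (x + y)) with hw
  obtain ⟨j, hj⟩ : ∃ j, pre S (a + b + 1) = a + 1 + j := ⟨_, (Nat.add_sub_cancel' h1).symm⟩
  rw [hj, Nat.add_sub_cancel_left] at g1 g2
  rw [hj]
  rw [abs_lt] at g4
  obtain ⟨g5, g6⟩ := g4
  have g1' : (v : ℤ) * k + u ≤ j := by exact_mod_cast g1
  have g2' : (j : ℤ) + u < v * (k + 1) := by exact_mod_cast g2
  push_cast at g5 g6
  have hv0 : (0 : ℤ) ≤ v := Int.natCast_nonneg v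
  constructor
  · intro h
    have h' : (a : ℤ) + 1 + j + w ≤ a + 2 * v * y := by exact_mod_cast h
    by_contra hc
    have hc' : (y : ℤ) - x ≤ k := by omega
    have := mul_le_mul_of_nonneg_left hc' hv0
    nlinarith
  · intro h
    have hc' : (k : ℤ) + 1 ≤ (y : ℤ) - x := by omega
    have := mul_le_mul_of_nonneg_left hc' hv0
    have h' : (a : ℤ) + 1 + j + w ≤ a + 2 * v * y := by nlinarith
    exact_mod_cast h'

theorem ord_good {T : Type} (p : T → ℕ) (M : Set T) (hp : Sep (fun t => (p t : ℤ)) M)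
    {v u P k a b N₁ N₂ : ℕ} (hv : 0 < v) (hP : ∀ t, p t ≤ P)
    (ha : a + 2 * v * P < N₁) (hb : b + 2 * v * P < N₂)
    (ha' : ∀ t, a + 2 * v * p t < N₁) (hb' : ∀ t, b + 2 * v * p t < N₂)
    {S : Finset (Fin (N₁ + N₂))} (hS : S.card = N₁) (h1 : a + 1 ≤ pre S (a + b + 1))
    (h2 : (pre S (a + b + 1) - (a + 1), win S (a + b + 1) (4 * v * P)) ∈ Gd v u P k) :
    (lin S hS).restrict ⟨emb p M v a b N₁ N₂ ha' hb', emb_inj p M hp hv a b N₁ N₂ ha' hb'⟩ =
      lineOrd (fun t => (p t : ℤ)) M hp k := by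
  classical
  apply Subtype.ext
  funext s t
  apply propext
  change (lin S hS).1 (emb p M v a b N₁ N₂ ha' hb' s) (emb p M v a b N₁ N₂ ha' hb' t) ↔
    hgt (fun t => (p t : ℤ)) M k s < hgt (fun t => (p t : ℤ)) M k t
  have hv2 : 0 < 2 * v := by omega
  have hk := fun x y hx hy => ord_key (x := x) (y := y) ha hb h1 h2 hx hy
  unfold emb hgt
  by_cases hs : s ∈ M <;> by_cases ht : t ∈ M <;> simp only [hs, ht, if_true, if_false]
  · rw [lin_inr hS, Fin.mk_lt_mk, Nat.add_lt_add_iff_left, Nat.mul_lt_mul_left hv2]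
    omega
  · rw [lin_rl hS]
    have := hk (p s) (p t) (hP s) (hP t)
    simp only [add_zero]
    exact this
  · rw [lin_lr hS]
    have := hk (p t) (p s) (hP t) (hP s)
    simp only [add_zero]
    rw [← not_le, this]
    omega
  · rw [lin_inl hS, Fin.mk_lt_mk, Nat.add_lt_add_iff_left, Nat.mul_lt_mul_left hv2]
    omega

end Pool.Agent.H59.TN
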