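import Pool.Agent.H59.TN.EncB
import Pool.Agent.H59.TN.Ord
import Pool.Agent.H19.UC.Gen

set_option autoImplicit false

/-!
# Module Cnt: the counting inequality for the shuffles of two chains

Let `ι` be the embedding `emb` and let the relation `G` on `Fin N₁ ⊕ Fin N₂` be: `chn`, and
`inl a → inr b`, and `inr (b - r v) → inl (a + r v)`. For a set `𝒲` of orderings of `T` let
`A 𝒲` be the finset of all `S : Finset (Fin (N₁ + N₂))` with `S.card = N₁`,
`a < pre S t₀`, `pre S t₀ ≤ a + r v` (`t₀ = a + b + 1`) and `(lin S _).restrict ι ∈ 𝒲`. Then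
`(gExt ι G 𝒲).ncard = (A 𝒲).card`: `S ↦ lin S` is injective (`lin_eq`), has values in `gExt`
(`lin_inl`, `lin_inr`, `lin_lr` for `p = a`, `q = b`; `lin_rl` for `p = a + r v`, `q = b - r v`, where
`p + q + 1 = t₀`), and is surjective (`lin_surj`). `ext_gen` (module `H19.UC.Gen`) gives
`|A U| |A V| ≤ |A (U ∩ V)| |A univ|`.
Let `x S = (pre S t₀ - (a + 1), win S t₀ (4 v P))`. For `S ∈ A univ`, `x S ∈ AllW v r P`, and for
`y ∈ AllW v r P` the number of `S ∈ A univ` with `x S = y` is `wg .. y` (`card_win` with `n = N₁ + N₂`,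
`N = N₁`, `x = a + 1 + y.1`; `y.2.card ≤ 4 v P`). So `|A univ| = ∑ y ∈ AllW, wg y`
(`Finset.card_eq_sum_card_fiberwise`). If `x S ∈ GdF v u P r k` then the ordering of `T` is
`lineOrd p M hp k` (`ord_good`), and the sets `GdF k` for different `k` are disjoint
(`v k ≤ j < v (k + 1)`), so `∑ k ∈ range r with lineOrd k ∈ 𝒲, ∑ y ∈ GdF k, wg y ≤ |A 𝒲|`. Use this for
`U`, `V` and for the complement of `U ∩ V`, with `|A (U ∩ V)| = |A univ| - |A (U ∩ V)ᶜ|`.
-/

namespace Pool.Agent.H59.TN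

open Pool.Agent.H45.Corr

private abbrev Cnt_S (N₁ N₂ : ℕ) := {S : Finset (Fin (N₁ + N₂)) // S.card = N₁}

private noncomputable def Cnt_A {T : Type} (a b rv N₁ N₂ : ℕ) (ι : T ↪ Fin N₁ ⊕ Fin N₂)
    (W : Set (LinOrd T)) : Finset (Cnt_S N₁ N₂) := by
  classical
  exact Finset.univ.filter (fun S => a < pre S.1 (a + b + 1) ∧ pre S.1 (a + b + 1) ≤ a + rv ∧
    (lin S.1 S.2).restrict ι ∈ W)

private lemma Cnt_mem {T : Type} {a b rv N₁ N₂ : ℕ} {ι : T ↪ Fin N₁ ⊕ Fin N₂}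
    {W : Set (LinOrd T)} {S : Cnt_S N₁ N₂} : S ∈ Cnt_A a b rv N₁ N₂ ι W ↔
      a < pre S.1 (a + b + 1) ∧ pre S.1 (a + b + 1) ≤ a + rv ∧
        (lin S.1 S.2).restrict ι ∈ W := by
  classical
  unfold Cnt_A
  rw [Finset.mem_filter]
  exact ⟨fun h => h.2, fun h => ⟨Finset.mem_univ _, h⟩⟩

private def Cnt_G (N₁ N₂ a b rv : ℕ) (x y : Fin N₁ ⊕ Fin N₂) : Prop :=
  chn N₁ N₂ x y ∨
  (∃ (i : Fin N₁) (j : Fin N₂), i.1 = a ∧ j.1 = b ∧ x = .inl i ∧ y = .inr j) ∨
  (∃ (i : Fin N₁) (j : Fin N₂), i.1 = a + rv ∧ j.1 = b - rv ∧ x = .inr j ∧ y = .inl i)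

private lemma Cnt_ncard {T : Type} {a b rv N₁ N₂ : ℕ} (ha : a + rv < N₁) (hb : b < N₂)
    (hrb : rv ≤ b) (ι : T ↪ Fin N₁ ⊕ Fin N₂) (W : Set (LinOrd T)) :
    (Pool.Agent.H19.UC.gExt ι (Cnt_G N₁ N₂ a b rv) W).ncard =
      (Cnt_A a b rv N₁ N₂ ι W).card := by
  have e : a + rv + (b - rv) + 1 = a + b + 1 := by omega
  have himg : Pool.Agent.H19.UC.gExt ι (Cnt_G N₁ N₂ a b rv) W =
      (fun S : Cnt_S N₁ N₂ => lin S.1 S.2) '' (Cnt_A a b rv N₁ N₂ ι W : Set (Cnt_S N₁ N₂)) := by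
    ext L
    rw [Set.mem_image]
    constructor
    · rintro ⟨h1, h2⟩
      obtain ⟨S, hS, rfl⟩ := lin_surj L (fun x y h => h1 x y (Or.inl h))
      refine ⟨⟨S, hS⟩, Finset.mem_coe.2 (Cnt_mem.2 ⟨?_, ?_, h2⟩), rfl⟩
      · have h3 := h1 (.inl ⟨a, by omega⟩) (.inr ⟨b, hb⟩)
          (Or.inr (Or.inl ⟨_, _, rfl, rfl, rfl, rfl⟩))
        rw [lin_lr hS] at h3
        exact h3
      · have h3 := h1 (.inr ⟨b - rv, by omega⟩) (.inl ⟨a + rv, ha⟩)
          (Or.inr (Or.inr ⟨_, _, rfl, rfl, rfl, rfl⟩))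
        rw [lin_rl hS] at h3
        simp only [e] at h3
        exact h3
    · rintro ⟨S, hS, rfl⟩
      obtain ⟨h1, h2, h3⟩ := Cnt_mem.1 (Finset.mem_coe.1 hS)
      refine ⟨?_, h3⟩
      rintro x y (h | ⟨i, j, hi, hj, rfl, rfl⟩ | ⟨i, j, hi, hj, rfl, rfl⟩)
      · rcases x with x | x <;> rcases y with y | y
        · exact (lin_inl S.2 x y).2 h
        · exact h.elim
        · exact h.elim
        · exact (lin_inr S.2 x y).2 h
      · rw [lin_lr S.2, hi, hj]; exact h1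
      · rw [lin_rl S.2, hi, hj, e]; exact h2
  rw [himg, Set.ncard_image_of_injective, Set.ncard_coe_finset]
  intro S S' h
  exact Subtype.ext (lin_eq h)

private lemma Cnt_sub {T : Type} {a b rv N₁ N₂ : ℕ} (ι : T ↪ Fin N₁ ⊕ Fin N₂)
    (W : Set (LinOrd T)) :
    (Cnt_A a b rv N₁ N₂ ι W).card + (Cnt_A a b rv N₁ N₂ ι Wᶜ).card =
      (Cnt_A a b rv N₁ N₂ ι Set.univ).card := by
  classical
  rw [← Finset.card_union_of_disjoint]
  · congr 1
    ext S
    rw [Finset.mem_union, Cnt_mem, Cnt_mem, Cnt_mem]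
    constructor
    · rintro (h | h)
      · exact ⟨h.1, h.2.1, Set.mem_univ _⟩
      · exact ⟨h.1, h.2.1, Set.mem_univ _⟩
    · rintro ⟨h1, h2, -⟩
      by_cases h : (lin S.1 S.2).restrict ι ∈ W
      · exact Or.inl ⟨h1, h2, h⟩
      · exact Or.inr ⟨h1, h2, h⟩
  · rw [Finset.disjoint_left]
    intro S h1 h2
    exact (Cnt_mem.1 h2).2.2 (Cnt_mem.1 h1).2.2

theorem cnt {T : Type} {U V : Set (LinOrd T)} (h : UnivCorr U V) (p : T → ℕ) (M : Set T)
    (hp : Sep (fun t => (p t : ℤ)) M) {v u P r a b N₁ N₂ : ℕ} (hv : 0 < v) (hP : ∀ t, p t ≤ P)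
    (ha : a + 1 + r * v + 4 * v * P ≤ N₁) (hb : b + 1 + 4 * v * P ≤ N₂) (hrb : r * v ≤ b)
    (g : ℕ → ℝ) (hg : ∀ k, g k = ∑ x ∈ GdF v u P r k, (wg a b N₁ N₂ (4 * v * P) x : ℝ))
    (tot : ℝ) (htot : tot = ∑ x ∈ AllW v r P, (wg a b N₁ N₂ (4 * v * P) x : ℝ)) :
    (∑ k ∈ Finset.range r, {k | lineOrd (fun t => (p t : ℤ)) M hp k ∈ U}.indicator g k) *
      (∑ k ∈ Finset.range r, {k | lineOrd (fun t => (p t : ℤ)) M hp k ∈ V}.indicator g k) ≤
    (tot - ∑ k ∈ Finset.range r,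
      {k | lineOrd (fun t => (p t : ℤ)) M hp k ∉ U ∩ V}.indicator g k) * tot := by
  classical
  have h4 : 4 * v * P = 2 * v * P + 2 * v * P := by ring
  have hvP : ∀ t, 2 * v * p t ≤ 2 * v * P := fun t => Nat.mul_le_mul_left _ (hP t)
  have ha' : ∀ t, a + 2 * v * p t < N₁ := fun t => by have := hvP t; omega
  have hb' : ∀ t, b + 2 * v * p t < N₂ := fun t => by have := hvP t; omega
  let ι : T ↪ Fin N₁ ⊕ Fin N₂ :=
    ⟨emb p M v a b N₁ N₂ ha' hb', emb_inj p M hp hv a b N₁ N₂ ha' hb'⟩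
  let A : Set (LinOrd T) → Finset (Cnt_S N₁ N₂) := fun W => Cnt_A a b (r * v) N₁ N₂ ι W
  let xs : Cnt_S N₁ N₂ → ℕ × Finset (Fin (4 * v * P)) := fun S =>
    (pre S.1 (a + b + 1) - (a + 1), win S.1 (a + b + 1) (4 * v * P))
  have hfib : ∀ x ∈ AllW v r P, ((A Set.univ).filter (fun S => xs S = x)).card =
      wg a b N₁ N₂ (4 * v * P) x := by
    rintro ⟨j, π⟩ hx
    have hj : j < r * v := by
      have := (Finset.mem_product.1 hx).1
      exact Finset.mem_range.1 this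
    have hπ : π.card ≤ 4 * v * P := by
      have := Finset.card_le_univ π
      rwa [Fintype.card_fin] at this
    have hc := card_win (n := N₁ + N₂) (t₀ := a + b + 1) (W := 4 * v * P) (by omega) N₁
      (a + 1 + j) π (by omega)
    unfold wg
    simp only
    rw [← hc, ← Finset.card_map (Function.Embedding.subtype _)]
    congr 1
    ext S
    rw [Finset.mem_map]
    constructor
    · rintro ⟨S', hS', rfl⟩
      obtain ⟨h1, h2⟩ := Finset.mem_filter.1 hS'
      obtain ⟨h3, h4', -⟩ := Cnt_mem.1 h1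
      obtain ⟨h5, h6⟩ := Prod.mk.inj h2
      refine Finset.mem_filter.2 ⟨Finset.mem_univ _, S'.2, ?_, h6⟩
      change pre S'.1 (a + b + 1) = a + 1 + j
      omega
    · intro hS
      obtain ⟨-, h1, h2, h3⟩ := Finset.mem_filter.1 hS
      refine ⟨⟨S, h1⟩, Finset.mem_filter.2 ⟨Cnt_mem.2 ⟨?_, ?_, Set.mem_univ _⟩, ?_⟩, rfl⟩
      · change a < pre S (a + b + 1)
        omega
      · change pre S (a + b + 1) ≤ a + r * v
        omega
      · change (pre S (a + b + 1) - (a + 1), win S (a + b + 1) (4 * v * P)) = (j, π)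
        rw [h3, h2, Nat.add_sub_cancel_left]
  have hmap : ∀ S ∈ A Set.univ, xs S ∈ AllW v r P := by
    intro S hS
    obtain ⟨h1, h2, -⟩ := Cnt_mem.1 hS
    refine Finset.mem_product.2 ⟨Finset.mem_range.2 ?_, Finset.mem_univ _⟩
    change pre S.1 (a + b + 1) - (a + 1) < r * v
    omega
  have hall : ((A Set.univ).card : ℝ) = tot := by
    rw [htot, Finset.card_eq_sum_card_fiberwise hmap, Nat.cast_sum]
    exact Finset.sum_congr rfl fun x hx => by rw [hfib x hx]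
  have hkey : ∀ W : Set (LinOrd T), ∑ k ∈ Finset.range r,
      {k | lineOrd (fun t => (p t : ℤ)) M hp k ∈ W}.indicator g k ≤ ((A W).card : ℝ) := by
    intro W
    let B : ℕ → Finset (Cnt_S N₁ N₂) := fun k =>
      (A Set.univ).filter (fun S => xs S ∈ GdF v u P r k)
    have hB : ∀ k, g k = ((B k).card : ℝ) := by
      intro k
      have hm : ∀ S ∈ B k, xs S ∈ GdF v u P r k := fun S hS => (Finset.mem_filter.1 hS).2
      rw [hg, Finset.card_eq_sum_card_fiberwise hm, Nat.cast_sum]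
      refine Finset.sum_congr rfl fun x hx => ?_
      have hx' : x ∈ AllW v r P := by
        unfold GdF at hx
        exact (Finset.mem_filter.1 hx).1
      rw [← hfib x hx']
      congr 2
      ext S
      rw [Finset.mem_filter, Finset.mem_filter, Finset.mem_filter]
      constructor
      · rintro ⟨h1, h2⟩
        exact ⟨⟨h1, by rw [h2]; exact hx⟩, h2⟩
      · rintro ⟨⟨h1, -⟩, h2⟩
        exact ⟨h1, h2⟩
    have h1 : ∑ k ∈ Finset.range r,
        {k | lineOrd (fun t => (p t : ℤ)) M hp k ∈ W}.indicator g k =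
        ∑ k ∈ (Finset.range r).filter
          (fun k => lineOrd (fun t => (p t : ℤ)) M hp k ∈ W), ((B k).card : ℝ) := by
      rw [Finset.sum_filter]
      refine Finset.sum_congr rfl fun k _ => ?_
      rw [Set.indicator_apply, hB k]
      rfl
    rw [h1, ← Nat.cast_sum, ← Finset.card_biUnion]
    · refine Nat.cast_le.2 (Finset.card_le_card ?_)
      intro S hS
      obtain ⟨k, hk, hSk⟩ := Finset.mem_biUnion.1 hS
      obtain ⟨h2, h3⟩ := Finset.mem_filter.1 hSk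
      obtain ⟨h5, h6, -⟩ := Cnt_mem.1 h2
      have h7 : xs S ∈ Gd v u P k := by
        unfold GdF at h3
        exact (Finset.mem_filter.1 h3).2
      have h8 := ord_good p M hp hv hP (by omega) (by omega) ha' hb' S.2 (by omega) h7
      refine Cnt_mem.2 ⟨h5, h6, ?_⟩
      have h9 : (lin S.1 S.2).restrict ι = lineOrd (fun t => (p t : ℤ)) M hp k := h8
      rw [h9]
      exact (Finset.mem_filter.1 hk).2
    · intro k _ k' _ hkk'
      change Disjoint (B k) (B k')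
      rw [Finset.disjoint_left]
      intro S h2 h3
      apply hkk'
      have h7 : ∀ k, S ∈ B k → v * k ≤ (xs S).1 ∧ (xs S).1 < v * (k + 1) := by
        intro k hk
        have h3 := (Finset.mem_filter.1 hk).2
        unfold GdF at h3
        obtain ⟨h4, h5, -⟩ := (Finset.mem_filter.1 h3).2
        exact ⟨by omega, by omega⟩
      obtain ⟨a1, a2⟩ := h7 k h2
      obtain ⟨a3, a4⟩ := h7 k' h3
      have a5 : k < k' + 1 := Nat.lt_of_mul_lt_mul_left (lt_of_le_of_lt a1 a4)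
      have a6 : k' < k + 1 := Nat.lt_of_mul_lt_mul_left (lt_of_le_of_lt a3 a2)
      omega
  have hext := Pool.Agent.H19.UC.ext_gen ι (Cnt_G N₁ N₂ a b (r * v)) h
  have hnc : ∀ W : Set (LinOrd T),
      (Pool.Agent.H19.UC.gExt ι (Cnt_G N₁ N₂ a b (r * v)) W).ncard = (A W).card := fun W =>
    Cnt_ncard (by omega) (by omega) hrb ι W
  rw [hnc, hnc, hnc, hnc] at hext
  have hext' : ((A U).card : ℝ) * ((A V).card : ℝ) ≤ ((A (U ∩ V)).card : ℝ) * tot := by
    rw [← hall]; exact_mod_cast hext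
  have hsub : ((A (U ∩ V)).card : ℝ) + ((A (U ∩ V)ᶜ).card : ℝ) = tot := by
    rw [← hall]; exact_mod_cast Cnt_sub ι (U ∩ V)
  have hgn : ∀ k, 0 ≤ g k := fun k => by
    rw [hg]; exact Finset.sum_nonneg fun x _ => Nat.cast_nonneg _
  have hnn : ∀ W : Set ℕ, 0 ≤ ∑ k ∈ Finset.range r, W.indicator g k := fun W =>
    Finset.sum_nonneg fun k _ => Set.indicator_nonneg (fun k _ => hgn k) k
  have htn : 0 ≤ tot := by rw [← hall]; exact Nat.cast_nonneg _
  have hC := hkey (U ∩ V)ᶜ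
  calc (∑ k ∈ Finset.range r, {k | lineOrd (fun t => (p t : ℤ)) M hp k ∈ U}.indicator g k) *
      (∑ k ∈ Finset.range r, {k | lineOrd (fun t => (p t : ℤ)) M hp k ∈ V}.indicator g k)
      ≤ ((A U).card : ℝ) * ((A V).card : ℝ) :=
        mul_le_mul (hkey U) (hkey V) (hnn _) (Nat.cast_nonneg _)
    _ ≤ ((A (U ∩ V)).card : ℝ) * tot := hext'
    _ ≤ (tot - ∑ k ∈ Finset.range r,
      {k | lineOrd (fun t => (p t : ℤ)) M hp k ∉ U ∩ V}.indicator g k) * tot := by
        apply mul_le_mul_of_nonneg_right _ htn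
        have : ∑ k ∈ Finset.range r,
            {k | lineOrd (fun t => (p t : ℤ)) M hp k ∉ U ∩ V}.indicator g k ≤
            ((A (U ∩ V)ᶜ).card : ℝ) := hC
        linarith

end Pool.Agent.H59.TN
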