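import Pool.Agent.H45.Corr.Count

set_option autoImplicit false

/-!
# Lines of orderings, unshuffles, and the encoding of the shuffles of two chains
-/

namespace Pool.Agent.H59.TN

open Pool.Agent.H45.Corr

/-- The height of `t` at the time `k`: the elements outside `M` rest at the height `2 p t`, those of
`M` are at `2 p t + 2 k + 1`. -/
noncomputable def hgt {T : Type} (p : T → ℤ) (M : Set T) (k : ℕ) (t : T) : ℤ := by
  classical exact 2 * p t + if t ∈ M then 2 * (k : ℤ) + 1 else 0

/-- `p` is injective on `M` and on the complement of `M` -/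
def Sep {T : Type} (p : T → ℤ) (M : Set T) : Prop := ∀ s t, (s ∈ M ↔ t ∈ M) → p s = p t → s = t

theorem hgt_inj {T : Type} {p : T → ℤ} {M : Set T} (hp : Sep p M) (k : ℕ) :
    Function.Injective (hgt p M k) := by
  classical
  intro s t h
  unfold hgt at h
  by_cases hs : s ∈ M <;> by_cases ht : t ∈ M <;> simp only [hs, ht, if_true, if_false] at h
  · exact hp s t (by simp [hs, ht]) (by omega)
  · omega
  · omega
  · exact hp s t (by simp [hs, ht]) (by omega)

/-- The ordering of `T` at the time `k`, when the elements of `M` move up with unit speed along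
the elements of the complement, which rest. -/
noncomputable def lineOrd {T : Type} (p : T → ℤ) (M : Set T) (hp : Sep p M) (k : ℕ) : LinOrd T :=
  ordBy (hgt p M k) (hgt_inj hp k)

/-- the sum of `lam ^ k` over the `k < r` which lie in `K` -/
noncomputable def wsum (lam : ℝ) (r : ℕ) (K : Set ℕ) : ℝ :=
  ∑ k ∈ Finset.range r, K.indicator (fun k => lam ^ k) k

/-- The ordering `c` is obtained from the ordering `b` by cutting `b` into intervals (the fibres of
`cl`, in increasing order) and moving in each interval the elements of a set `M` above the other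
elements of the interval, without any other change of the ordering. -/
def Unsh {T : Type} (b c : T → T → Prop) : Prop :=
  ∃ (cl : T → ℕ) (M : Set T), (∀ s t, cl s < cl t → b s t ∧ c s t) ∧
    (∀ s t, cl s = cl t → s ∈ M → t ∉ M → c t s) ∧
    ∀ s t, cl s = cl t → (s ∈ M ↔ t ∈ M) → (b s t ↔ c s t)

/-- the union of two chains with `N₁` and `N₂` elements -/
def chn (N₁ N₂ : ℕ) : Fin N₁ ⊕ Fin N₂ → Fin N₁ ⊕ Fin N₂ → Prop
  | .inl a, .inl b => a < b
  | .inr a, .inr b => a < b
  | _, _ => False

/-- the number of elements of `S` below `t` -/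
def pre {n : ℕ} (S : Finset (Fin n)) (t : ℕ) : ℕ := (S.filter (fun i => i.1 < t)).card

/-- the part of `S` in the window `[t₀, t₀ + W)` -/
def win {n : ℕ} (S : Finset (Fin n)) (t₀ W : ℕ) : Finset (Fin W) :=
  Finset.univ.filter (fun i : Fin W => ∃ j ∈ S, j.1 = t₀ + i.1)

theorem compl_card {N₁ N₂ : ℕ} {S : Finset (Fin (N₁ + N₂))} (hS : S.card = N₁) :
    Sᶜ.card = N₂ := by
  rw [Finset.card_compl, Fintype.card_fin, hS]; omega

/-- The linear extension of two chains in which the elements of the first chain have the positions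
`S`. -/
noncomputable def lin {N₁ N₂ : ℕ} (S : Finset (Fin (N₁ + N₂))) (hS : S.card = N₁) :
    LinOrd (Fin N₁ ⊕ Fin N₂) :=
  ⟨fun x y => finSumEquivOfFinset hS (compl_card hS) x < finSumEquivOfFinset hS (compl_card hS) y,
    { trichotomous := fun _ _ h1 h2 => (finSumEquivOfFinset hS (compl_card hS)).injective
        (le_antisymm (not_lt.1 h2) (not_lt.1 h1))
      irrefl := fun _ => lt_irrefl _
      trans := fun _ _ _ => lt_trans }⟩

/-- The embedding of `T` in the two chains: the elements of `M` go to the second chain, to the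
places `b + 2 v p t`, the others to the first chain, to the places `a + 2 v p t`. -/
noncomputable def emb {T : Type} (p : T → ℕ) (M : Set T) (v a b N₁ N₂ : ℕ)
    (ha : ∀ t, a + 2 * v * p t < N₁) (hb : ∀ t, b + 2 * v * p t < N₂) (t : T) :
    Fin N₁ ⊕ Fin N₂ := by
  classical
  exact if t ∈ M then .inr ⟨b + 2 * v * p t, hb t⟩ else .inl ⟨a + 2 * v * p t, ha t⟩

theorem emb_inj {T : Type} (p : T → ℕ) (M : Set T) (hp : Sep (fun t => (p t : ℤ)) M)
    {v : ℕ} (hv : 0 < v) (a b N₁ N₂ : ℕ) (ha : ∀ t, a + 2 * v * p t < N₁)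
    (hb : ∀ t, b + 2 * v * p t < N₂) : Function.Injective (emb p M v a b N₁ N₂ ha hb) := by
  classical
  intro s t h
  unfold emb at h
  have key : ∀ c : ℕ, c + 2 * v * p s = c + 2 * v * p t → p s = p t := fun c hc =>
    Nat.eq_of_mul_eq_mul_left (by positivity) (Nat.add_left_cancel hc)
  by_cases hs : s ∈ M <;> by_cases ht : t ∈ M <;> simp only [hs, ht, if_true, if_false] at h
  · have h1 := congrArg Fin.val (Sum.inr.inj h)
    exact hp s t (by simp [hs, ht]) (congrArg (fun z : ℕ => (z : ℤ)) (key b h1))
  · exact absurd h (by simp)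
  · exact absurd h (by simp)
  · have h1 := congrArg Fin.val (Sum.inl.inj h)
    exact hp s t (by simp [hs, ht]) (congrArg (fun z : ℕ => (z : ℤ)) (key a h1))

/-- The window states `(j, π)` which give the ordering at the time `k`: `j` well inside the block
`[v k, v (k + 1))`, and `π` balanced at all the times `2 v l`, `l ≤ 2 P`. -/
def Gd (v u P k : ℕ) : Set (ℕ × Finset (Fin (4 * v * P))) :=
  {x | v * k + u ≤ x.1 ∧ x.1 + u < v * (k + 1) ∧
    ∀ l ≤ 2 * P, |(pre x.2 (2 * v * l) : ℤ) - v * l| < u}

/-- all window states with `j < r v` -/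
def AllW (v r P : ℕ) : Finset (ℕ × Finset (Fin (4 * v * P))) :=
  Finset.range (r * v) ×ˢ Finset.univ

/-- the good window states as a finite set -/
noncomputable def GdF (v u P r k : ℕ) : Finset (ℕ × Finset (Fin (4 * v * P))) := by
  classical exact (AllW v r P).filter (fun x => x ∈ Gd v u P k)

/-- the number of position sets with a given window state -/
def wg (a b N₁ N₂ W : ℕ) (x : ℕ × Finset (Fin W)) : ℕ :=
  (a + b + 1).choose (a + 1 + x.1) *
    (N₁ + N₂ - (a + b + 1) - W).choose (N₁ - (a + 1 + x.1) - x.2.card)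

end Pool.Agent.H59.TN
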