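import Pool.Agent.H59.TN.Defs

set_option autoImplicit false

/-!
# Module EncA: comparisons in a shuffle of two chains

Let `e = finSumEquivOfFinset hS (compl_card hS)`, so `e (inl a) = S.orderEmbOfFin hS a` and
`e (inr a) = Sᶜ.orderEmbOfFin _ a` (`finSumEquivOfFinset_inl/inr`), both strictly increasing: this
gives `lin_inl`, `lin_inr`. COUNT: for every finset `A` of `Fin n` with `A.card = N` and `i : Fin N`,
`t : ℕ`: `(A.orderEmbOfFin h i).1 < t ↔ i.1 < (A.filter (·.1 < t)).card` (the elements of `A` below
`t` are an initial segment of the enumeration: the filter is the image under `orderEmbOfFin` of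
`{j | (A.orderEmbOfFin h j).1 < t}`, a lower set of `Fin N`; `Finset.range_orderEmbOfFin` or
`Finset.image_orderEmbOfFin_univ`). With `t = p + q + 1`: `(S.filter (· < t)).card = pre S t`, and
`pre S t + (Sᶜ.filter (· < t)).card = p + q + 1` because `t ≤ N₁ + N₂`. So `e (inl p) < t` iff
`p < pre S t`, and `e (inr q) < t` iff `q < p + q + 1 - pre S t` iff `pre S t ≤ p`: exactly one of the
two is below `t`, and this one is the smaller one.
-/

namespace Pool.Agent.H59.TN

open Pool.Agent.H45.Corr

variable {N₁ N₂ : ℕ} {S : Finset (Fin (N₁ + N₂))} (hS : S.card = N₁)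

private theorem EncA_count {n N : ℕ} (A : Finset (Fin n)) (h : A.card = N) (i : Fin N) (t : ℕ) :
    (A.orderEmbOfFin h i).1 < t ↔ i.1 < (A.filter (fun x => x.1 < t)).card := by
  classical
  have himg : (Finset.univ.filter (fun j : Fin N => (A.orderEmbOfFin h j).1 < t)).image
      (A.orderEmbOfFin h) = A.filter (fun x => x.1 < t) := by
    ext x
    simp only [Finset.mem_image, Finset.mem_filter, Finset.mem_univ, true_and]
    constructor
    · rintro ⟨j, hj, rfl⟩
      exact ⟨Finset.orderEmbOfFin_mem A h j, hj⟩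
    · rintro ⟨hx, ht⟩
      have hr : x ∈ Set.range (A.orderEmbOfFin h) := by
        rw [Finset.range_orderEmbOfFin]; exact hx
      obtain ⟨j, hj⟩ := hr
      exact ⟨j, by rw [hj]; exact ht, hj⟩
  have hcard : (A.filter (fun x => x.1 < t)).card =
      (Finset.univ.filter (fun j : Fin N => (A.orderEmbOfFin h j).1 < t)).card := by
    rw [← himg]
    exact Finset.card_image_of_injective _ (A.orderEmbOfFin h).injective
  rw [hcard]
  constructor
  · intro hi
    have hsub : Finset.Iic i ⊆
        Finset.univ.filter (fun j : Fin N => (A.orderEmbOfFin h j).1 < t) := by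
      intro j hj
      rw [Finset.mem_filter]
      refine ⟨Finset.mem_univ _, lt_of_le_of_lt ?_ hi⟩
      have : A.orderEmbOfFin h j ≤ A.orderEmbOfFin h i :=
        (A.orderEmbOfFin h).monotone (Finset.mem_Iic.1 hj)
      exact this
    have hc := Finset.card_le_card hsub
    rw [Fin.card_Iic] at hc
    omega
  · intro hi
    by_contra hcon
    have hsub : Finset.univ.filter (fun j : Fin N => (A.orderEmbOfFin h j).1 < t) ⊆
        Finset.Iio i := by
      intro j hj
      rw [Finset.mem_filter] at hj
      rw [Finset.mem_Iio]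
      by_contra hij
      have : A.orderEmbOfFin h i ≤ A.orderEmbOfFin h j :=
        (A.orderEmbOfFin h).monotone (not_lt.1 hij)
      have h2 : (A.orderEmbOfFin h i).1 ≤ (A.orderEmbOfFin h j).1 := this
      exact hcon (lt_of_le_of_lt h2 hj.2)
    have hc := Finset.card_le_card hsub
    rw [Fin.card_Iio] at hc
    omega

private theorem EncA_compl {n : ℕ} (S : Finset (Fin n)) (t : ℕ) (ht : t ≤ n) :
    pre S t + (Sᶜ.filter (fun x => x.1 < t)).card = t := by
  classical
  unfold pre
  have h1 : (Finset.univ.filter (fun x : Fin n => x.1 < t)).card = t := by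
    have := Fin.card_filter_val_lt (n := n) (m := t)
    rw [this]
    exact min_eq_right ht
  have h2 : (S.filter (fun x => x.1 < t)).card + (Sᶜ.filter (fun x => x.1 < t)).card =
      (Finset.univ.filter (fun x : Fin n => x.1 < t)).card := by
    rw [← Finset.card_union_of_disjoint]
    · congr 1
      rw [← Finset.filter_union, Finset.union_compl]
    · exact Finset.disjoint_filter_filter disjoint_compl_right
  rw [h2, h1]

include hS in
private theorem EncA_inl (p : Fin N₁) (t : ℕ) :
    (finSumEquivOfFinset hS (compl_card hS) (.inl p)).1 < t ↔ p.1 < pre S t := by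
  rw [finSumEquivOfFinset_inl]
  exact EncA_count S hS p t

include hS in
private theorem EncA_inr (q : Fin N₂) (t : ℕ) (ht : t ≤ N₁ + N₂) :
    (finSumEquivOfFinset hS (compl_card hS) (.inr q)).1 < t ↔ q.1 + pre S t < t := by
  rw [finSumEquivOfFinset_inr]
  have h1 := EncA_count Sᶜ (compl_card hS) q t
  have h2 := EncA_compl S t ht
  rw [h1]
  omega

theorem lin_inl (i j : Fin N₁) : (lin S hS).1 (.inl i) (.inl j) ↔ i < j := by
  change finSumEquivOfFinset hS (compl_card hS) (.inl i) <
    finSumEquivOfFinset hS (compl_card hS) (.inl j) ↔ i < j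
  rw [finSumEquivOfFinset_inl, finSumEquivOfFinset_inl]
  exact (S.orderEmbOfFin hS).lt_iff_lt

theorem lin_inr (i j : Fin N₂) : (lin S hS).1 (.inr i) (.inr j) ↔ i < j := by
  change finSumEquivOfFinset hS (compl_card hS) (.inr i) <
    finSumEquivOfFinset hS (compl_card hS) (.inr j) ↔ i < j
  rw [finSumEquivOfFinset_inr, finSumEquivOfFinset_inr]
  exact (Sᶜ.orderEmbOfFin (compl_card hS)).lt_iff_lt

theorem lin_rl (q : Fin N₂) (p : Fin N₁) :
    (lin S hS).1 (.inr q) (.inl p) ↔ pre S (p.1 + q.1 + 1) ≤ p.1 := by
  change (finSumEquivOfFinset hS (compl_card hS) (.inr q)).1 <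
    (finSumEquivOfFinset hS (compl_card hS) (.inl p)).1 ↔ _
  have h1 := EncA_inl hS p (p.1 + q.1 + 1)
  have h2 := EncA_inr hS q (p.1 + q.1 + 1) (by have := p.2; have := q.2; omega)
  constructor
  · intro h
    by_contra hcon
    have h3 := h1.2 (not_le.1 hcon)
    have h4 := h2.1 (lt_trans h h3)
    omega
  · intro h
    have h3 := h2.2 (by omega)
    have h4 : ¬ (finSumEquivOfFinset hS (compl_card hS) (.inl p)).1 < p.1 + q.1 + 1 := by
      rw [h1]; omega
    omega

theorem lin_lr (q : Fin N₂) (p : Fin N₁) :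
    (lin S hS).1 (.inl p) (.inr q) ↔ p.1 < pre S (p.1 + q.1 + 1) := by
  change (finSumEquivOfFinset hS (compl_card hS) (.inl p)).1 <
    (finSumEquivOfFinset hS (compl_card hS) (.inr q)).1 ↔ _
  have h1 := EncA_inl hS p (p.1 + q.1 + 1)
  have h2 := EncA_inr hS q (p.1 + q.1 + 1) (by have := p.2; have := q.2; omega)
  constructor
  · intro h
    by_contra hcon
    have h3 := h2.2 (by omega)
    have h4 := h1.1 (lt_trans h h3)
    omega
  · intro h
    have h3 := h1.2 h
    have h4 : ¬ (finSumEquivOfFinset hS (compl_card hS) (.inr q)).1 < p.1 + q.1 + 1 := by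
      rw [h2]; omega
    omega

end Pool.Agent.H59.TN
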