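import Mathlib

set_option autoImplicit false

/-!
# Module Nst: the number of nested pairs

`card_sub`: the pairs `U ⊆ V` of subsets of `Ω` correspond to the functions `Ω → Fin 3` (`0` outside `V`,
`1` in `V \ U`, `2` in `U`); or: the sum over `V` of `2 ^ |V|` is `3 ^ |Ω|`
(`Finset.sum_pow_mul_eq_add_pow`). `card_nested`: inclusion and exclusion:
`{U ⊆ V} ∪ {V ⊆ U}`, the intersection is `{U = V}`, `2 ^ |Ω|` pairs (`Set.ncard_union_add_ncard_inter`).
-/

namespace Pool.Agent.H59.TN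

private noncomputable def nst_equiv (Ω : Type) :
    {p : Set Ω × Set Ω // p ∈ {p : Set Ω × Set Ω | p.1 ⊆ p.2}} ≃ (Ω → Fin 3) := by
  classical
  exact
  { toFun := fun p x => if x ∈ p.1.1 then 2 else if x ∈ p.1.2 then 1 else 0
    invFun := fun f => ⟨({x | f x = 2}, {x | f x ≠ 0}), fun x hx => by
      have h : f x = 2 := hx
      show f x ≠ 0
      rw [h]
      decide⟩
    left_inv := by
      rintro ⟨⟨U, V⟩, h⟩
      have hUV : U ⊆ V := h
      apply Subtype.ext
      refine Prod.ext ?_ ?_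
      · ext x
        show (if x ∈ U then (2 : Fin 3) else if x ∈ V then 1 else 0) = 2 ↔ x ∈ U
        by_cases h1 : x ∈ U
        · simp [h1]
        · by_cases h2 : x ∈ V
          · simp [h1, h2]
          · simp [h1, h2]
      · ext x
        show (if x ∈ U then (2 : Fin 3) else if x ∈ V then 1 else 0) ≠ 0 ↔ x ∈ V
        by_cases h1 : x ∈ U
        · simp [h1, hUV h1]
        · by_cases h2 : x ∈ V
          · simp [h1, h2]
          · simp [h1, h2]
    right_inv := by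
      intro f
      funext x
      dsimp only
      split_ifs with h1 h2
      · exact (show f x = 2 from h1).symm
      · have key : ∀ a : Fin 3, a ≠ 2 → a ≠ 0 → 1 = a := by decide
        exact key _ h1 h2
      · exact (not_not.1 h2).symm }

private theorem nst_swap (Ω : Type) [Finite Ω] :
    {p : Set Ω × Set Ω | p.2 ⊆ p.1}.ncard = {p : Set Ω × Set Ω | p.1 ⊆ p.2}.ncard := by
  have h : {p : Set Ω × Set Ω | p.2 ⊆ p.1} = Prod.swap '' {p : Set Ω × Set Ω | p.1 ⊆ p.2} := by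
    ext p
    constructor
    · intro hp
      exact ⟨p.swap, hp, Prod.swap_swap p⟩
    · rintro ⟨r, hr, rfl⟩
      exact hr
  rw [h, Set.ncard_image_of_injective _ Prod.swap_injective]

private theorem nst_diag (Ω : Type) [Finite Ω] :
    ({p : Set Ω × Set Ω | p.1 ⊆ p.2} ∩ {p : Set Ω × Set Ω | p.2 ⊆ p.1}).ncard =
      2 ^ Nat.card Ω := by
  classical
  have := Fintype.ofFinite Ω
  have h : ({p : Set Ω × Set Ω | p.1 ⊆ p.2} ∩ {p : Set Ω × Set Ω | p.2 ⊆ p.1}) =
      (fun U : Set Ω => (U, U)) '' Set.univ := by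
    ext p
    constructor
    · rintro ⟨h1, h2⟩
      exact ⟨p.1, trivial, Prod.ext rfl (Set.Subset.antisymm h1 h2)⟩
    · rintro ⟨U, -, rfl⟩
      exact ⟨Set.Subset.rfl, Set.Subset.rfl⟩
  rw [h, Set.ncard_image_of_injective _ (fun U V hUV => congrArg Prod.fst hUV), Set.ncard_univ,
    Nat.card_eq_fintype_card, Fintype.card_set, Nat.card_eq_fintype_card]

theorem card_sub (Ω : Type) [Finite Ω] :
    {p : Set Ω × Set Ω | p.1 ⊆ p.2}.ncard = 3 ^ Nat.card Ω := by
  rw [← Nat.card_coe_set_eq, Nat.card_congr (nst_equiv Ω), Nat.card_fun, Nat.card_eq_fintype_card,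
    Fintype.card_fin]

theorem card_nested (Ω : Type) [Finite Ω] :
    {p : Set Ω × Set Ω | p.1 ⊆ p.2 ∨ p.2 ⊆ p.1}.ncard = 2 * 3 ^ Nat.card Ω - 2 ^ Nat.card Ω := by
  have h1 := card_sub Ω
  have h2 := nst_swap Ω
  have h3 := nst_diag Ω
  have h4 := Set.ncard_union_add_ncard_inter {p : Set Ω × Set Ω | p.1 ⊆ p.2}
    {p : Set Ω × Set Ω | p.2 ⊆ p.1} (Set.toFinite _) (Set.toFinite _)
  have h5 : ({p : Set Ω × Set Ω | p.1 ⊆ p.2} ∪ {p : Set Ω × Set Ω | p.2 ⊆ p.1}) =
      {p : Set Ω × Set Ω | p.1 ⊆ p.2 ∨ p.2 ⊆ p.1} := rfl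
  rw [h5, h3, h2, h1] at h4
  omega

end Pool.Agent.H59.TN
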