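import Mathlib

set_option autoImplicit false

/-!
# Module Num: numerical estimates

Let `m = n / 4`, so `m ≥ 10`, `n ≤ 4 m + 3`, `n / 2 ≥ 2 m`. (1) `5 (4 m + 3) ≤ 2 ^ (m - 2)` for `m ≥ 10`
(`m = 10`: `215 ≤ 256`; induction). So `2 ^ (n / 2 - 2) ≥ 2 ^ (2 m - 2) = 2 ^ (m - 2) 2 ^ m ≥ 5 (4 m + 3) 2 ^ m ≥ 5 n 2 ^ m`, and
`q = 2 ^ (n / 2 - 2) / n ≥ 5 * 2 ^ m`. (2) `(2 / 3) ^ 5 = 32 / 243 ≤ exp (-2)` (`exp 2 ≤ 7.39`,
`Real.exp_one_lt_d9` squared), so `(2 / 3) ^ q ≤ exp (-2 * 2 ^ m)`. (3) `8 n n! ≤ exp (2 ^ m)`: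
`n! ≤ n ^ n`, `8 ≤ n`, `n ≤ 4 m + 3 ≤ 2 ^ m`, so `8 n n! ≤ n ^ (n + 2) ≤ 2 ^ (m (4 m + 5)) ≤ exp (m (4 m + 5))` and
`m (4 m + 5) ≤ 2 ^ m` for `m ≥ 10` (`450 ≤ 1024`; induction). `num1` is the product of (2) and (3); `num2` follows
from it (`2 n n! .. ≤ 8 n n! .. ≤ exp (-2 ^ m) ≤ 1`).
-/

namespace Pool.Agent.H59.TN

private theorem Num_a (m : ℕ) (hm : 10 ≤ m) : 5 * (4 * m + 3) ≤ 2 ^ (m - 2) := by
  induction m, hm using Nat.le_induction with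
  | base => norm_num
  | succ k hk ih =>
    have h : 2 ^ (k + 1 - 2) = 2 * 2 ^ (k - 2) := by
      rw [show k + 1 - 2 = (k - 2) + 1 by omega, pow_succ]; ring
    rw [h]; omega

private theorem Num_b (m : ℕ) (hm : 10 ≤ m) : m * (4 * m + 5) ≤ 2 ^ m := by
  induction m, hm using Nat.le_induction with
  | base => norm_num
  | succ k hk ih =>
    rw [pow_succ]
    nlinarith [ih, hk]

private theorem Num_c (m : ℕ) (hm : 10 ≤ m) : 4 * m + 3 ≤ 2 ^ m := by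
  have h := Num_b m hm
  nlinarith [h, hm]

private theorem Num_q {n : ℕ} (hn : 40 ≤ n) : 5 * 2 ^ (n / 4) ≤ 2 ^ (n / 2 - 2) / n := by
  have hm : 10 ≤ n / 4 := by omega
  rw [Nat.le_div_iff_mul_le (by omega)]
  have h1 := Num_a (n / 4) hm
  have h2 : n ≤ 4 * (n / 4) + 3 := by omega
  have h3 : 2 ^ ((n / 4 - 2) + n / 4) ≤ 2 ^ (n / 2 - 2) :=
    Nat.pow_le_pow_right (by norm_num) (by omega)
  calc 5 * 2 ^ (n / 4) * n ≤ 5 * 2 ^ (n / 4) * (4 * (n / 4) + 3) := Nat.mul_le_mul_left _ h2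
    _ = (5 * (4 * (n / 4) + 3)) * 2 ^ (n / 4) := by ring
    _ ≤ 2 ^ (n / 4 - 2) * 2 ^ (n / 4) := Nat.mul_le_mul_right _ h1
    _ = 2 ^ ((n / 4 - 2) + n / 4) := by rw [pow_add]
    _ ≤ 2 ^ (n / 2 - 2) := h3

private theorem Num_e2 : (2 / 3 : ℝ) ^ 5 ≤ Real.exp (-2) := by
  have h1 : Real.exp 1 < 2.7182818286 := Real.exp_one_lt_d9
  have h2 : Real.exp 2 = Real.exp 1 * Real.exp 1 := by rw [← Real.exp_add]; norm_num
  have h3 : Real.exp 2 ≤ 243 / 32 := by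
    rw [h2]; nlinarith [Real.exp_pos 1]
  rw [Real.exp_neg, le_inv_comm₀ (by norm_num) (Real.exp_pos _)]
  refine h3.trans ?_
  norm_num

private theorem Num_exp {n : ℕ} (hn : 40 ≤ n) :
    (2 / 3 : ℝ) ^ (2 ^ (n / 2 - 2) / n) ≤ Real.exp (-2 * 2 ^ (n / 4)) := by
  have hq := Num_q hn
  calc (2 / 3 : ℝ) ^ (2 ^ (n / 2 - 2) / n) ≤ (2 / 3 : ℝ) ^ (5 * 2 ^ (n / 4)) :=
        pow_le_pow_of_le_one (by norm_num) (by norm_num) hq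
    _ = ((2 / 3 : ℝ) ^ 5) ^ (2 ^ (n / 4)) := by rw [pow_mul]
    _ ≤ (Real.exp (-2)) ^ (2 ^ (n / 4)) := pow_le_pow_left₀ (by norm_num) Num_e2 _
    _ = Real.exp (-2 * 2 ^ (n / 4)) := by
        rw [← Real.exp_nat_mul]; congr 1; push_cast; ring

private theorem Num_fac {n : ℕ} (hn : 40 ≤ n) :
    8 * ((n : ℝ) * n.factorial) ≤ Real.exp ((2 : ℝ) ^ (n / 4)) := by
  have hm : 10 ≤ n / 4 := by omega
  have h1 : 8 * (n * n.factorial) ≤ n ^ (n + 2) := by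
    have hf : n.factorial ≤ n ^ n := Nat.factorial_le_pow n
    calc 8 * (n * n.factorial) ≤ n * (n * n ^ n) :=
          Nat.mul_le_mul (by omega) (Nat.mul_le_mul_left _ hf)
      _ = n ^ (n + 2) := by ring
  have h2 : n ≤ 2 ^ (n / 4) := by
    have := Num_c (n / 4) hm
    omega
  have h3 : n ^ (n + 2) ≤ 2 ^ ((n / 4) * (4 * (n / 4) + 5)) := by
    calc n ^ (n + 2) ≤ (2 ^ (n / 4)) ^ (n + 2) := Nat.pow_le_pow_left h2 _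
      _ = 2 ^ ((n / 4) * (n + 2)) := by rw [pow_mul]
      _ ≤ 2 ^ ((n / 4) * (4 * (n / 4) + 5)) :=
          Nat.pow_le_pow_right (by norm_num) (Nat.mul_le_mul_left _ (by omega))
  have h4 := Num_b (n / 4) hm
  have h5 : 8 * (n * n.factorial) ≤ 2 ^ ((2 : ℕ) ^ (n / 4)) :=
    (h1.trans h3).trans (Nat.pow_le_pow_right (by norm_num) h4)
  have h6 : (8 * ((n : ℝ) * n.factorial)) ≤ (2 : ℝ) ^ ((2 : ℕ) ^ (n / 4)) := by
    exact_mod_cast h5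
  refine h6.trans ?_
  have h7 : (2 : ℝ) ≤ Real.exp 1 := by
    have := Real.add_one_le_exp (1 : ℝ); linarith
  calc (2 : ℝ) ^ ((2 : ℕ) ^ (n / 4)) ≤ (Real.exp 1) ^ ((2 : ℕ) ^ (n / 4)) :=
        pow_le_pow_left₀ (by norm_num) h7 _
    _ = Real.exp ((2 : ℝ) ^ (n / 4)) := by
        rw [← Real.exp_nat_mul]; congr 1; push_cast; ring

theorem num1 {n : ℕ} (hn : 40 ≤ n) :
    8 * ((n : ℝ) * n.factorial) * (2 / 3 : ℝ) ^ (2 ^ (n / 2 - 2) / n) ≤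
      Real.exp (-(2 : ℝ) ^ (n / 4)) := by
  have h1 := Num_fac hn
  have h2 := Num_exp hn
  calc 8 * ((n : ℝ) * n.factorial) * (2 / 3 : ℝ) ^ (2 ^ (n / 2 - 2) / n)
      ≤ Real.exp ((2 : ℝ) ^ (n / 4)) * Real.exp (-2 * 2 ^ (n / 4)) :=
        mul_le_mul h1 h2 (by positivity) (Real.exp_pos _).le
    _ = Real.exp (-(2 : ℝ) ^ (n / 4)) := by
        rw [← Real.exp_add]; congr 1; ring

theorem num2 {n : ℕ} (hn : 40 ≤ n) :
    2 * ((n : ℝ) * n.factorial) * (2 / 3 : ℝ) ^ (2 ^ (n / 2 - 2) / n) ≤ 1 := by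
  have h1 := num1 hn
  have h2 : Real.exp (-(2 : ℝ) ^ (n / 4)) ≤ 1 := by
    rw [Real.exp_le_one_iff]
    have : (0 : ℝ) < 2 ^ (n / 4) := by positivity
    linarith
  have h3 : (0 : ℝ) ≤ ((n : ℝ) * n.factorial) * (2 / 3 : ℝ) ^ (2 ^ (n / 2 - 2) / n) := by
    positivity
  nlinarith [h1, h2, h3]

end Pool.Agent.H59.TN
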