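import Pool.Agent.H59.TN.PDefs

set_option autoImplicit false

/-!
# Module PmB: the size of the halves

Let `J` be the set of the `j < n / 2` with `j ≠ a`, `j ≠ a + 1`: at least `n / 2 - 2` numbers. For `R ⊆ J` let
`τ_R` be the permutation of `Fin n` which exchanges `2 j` and `2 j + 1` for all `j ∈ R` (an involution:
`τ_R x = 2 (x / 2) + (1 - x % 2)` if `x / 2 ∈ R`, otherwise `x`; `2 j + 1 < n` for `j < n / 2`). Then
`etaP a (x.trans τ_R) = etaP a x`, because `τ_R` fixes the places in `[2 a, 2 a + 3]` and keeps `place / 2`, and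
places outside go to places outside. `R ↦ x.trans τ_R` is injective (`j ∈ R` iff `τ_R` moves the place `2 j`).
So the number of `y` is at least the number of subsets of `J`, `2 ^ |J| ≥ 2 ^ (n / 2 - 2)`
(`Finset.card_powerset`; `Set.ncard_le_ncard` and `Set.ncard_image_of_injective` or `Finset.card_le_card_of_injOn`).
-/

namespace Pool.Agent.H59.TN

/-- exchange `2 j` and `2 j + 1` for all `j ∈ R` with `j < n / 2` -/
def pmB_f {n : ℕ} (R : Finset ℕ) (p : Fin n) : Fin n :=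
  if h : p.1 / 2 ∈ R ∧ p.1 / 2 < n / 2 then ⟨2 * (p.1 / 2) + (1 - p.1 % 2), by omega⟩ else p

theorem pmB_f_val_pos {n : ℕ} {R : Finset ℕ} {p : Fin n} (h1 : p.1 / 2 ∈ R) (h2 : p.1 / 2 < n / 2) :
    (pmB_f R p).1 = 2 * (p.1 / 2) + (1 - p.1 % 2) := by
  unfold pmB_f
  rw [dif_pos ⟨h1, h2⟩]

theorem pmB_f_neg {n : ℕ} {R : Finset ℕ} {p : Fin n} (h : ¬ (p.1 / 2 ∈ R ∧ p.1 / 2 < n / 2)) :
    pmB_f R p = p := by
  unfold pmB_f
  rw [dif_neg h]

theorem pmB_invol {n : ℕ} (R : Finset ℕ) : Function.Involutive (pmB_f (n := n) R) := by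
  intro p
  by_cases h : p.1 / 2 ∈ R ∧ p.1 / 2 < n / 2
  · have h1 := pmB_f_val_pos h.1 h.2
    have h3 : (pmB_f R p).1 / 2 = p.1 / 2 := by omega
    have h2 := pmB_f_val_pos (p := pmB_f R p) (R := R) (by rw [h3]; exact h.1) (by rw [h3]; exact h.2)
    apply Fin.ext
    rw [h2]
    omega
  · rw [pmB_f_neg h, pmB_f_neg h]

/-- the permutation of the places -/
def pmB_tau {n : ℕ} (R : Finset ℕ) : Equiv.Perm (Fin n) := (pmB_invol (n := n) R).toPerm

theorem pmB_tau_apply {n : ℕ} (R : Finset ℕ) (p : Fin n) : pmB_tau R p = pmB_f R p := rfl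

theorem pmB_hh {n : ℕ} (a : ℕ) (R : Finset ℕ) (hR : ∀ j ∈ R, j ≠ a ∧ j ≠ a + 1) (p : Fin n) :
    hh a (pmB_f R p).1 = hh a p.1 := by
  by_cases h : p.1 / 2 ∈ R ∧ p.1 / 2 < n / 2
  · have h1 := pmB_f_val_pos h.1 h.2
    have h3 : (pmB_f R p).1 / 2 = p.1 / 2 := by omega
    have h4 := hR _ h.1
    unfold hh
    rw [if_neg (by omega), if_neg (by omega), h3]
  · rw [pmB_f_neg h]

theorem pmB_inj {n : ℕ} {R S : Finset ℕ} (hR : ∀ j ∈ R, j < n / 2)
    (h : pmB_tau (n := n) R = pmB_tau (n := n) S) : R ⊆ S := by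
  intro j hj
  have hjn := hR j hj
  have hlt : 2 * j < n := by omega
  have h0 : (⟨2 * j, hlt⟩ : Fin n).1 / 2 = j := by simp
  have h1 := pmB_f_val_pos (p := (⟨2 * j, hlt⟩ : Fin n)) (R := R) (by rw [h0]; exact hj)
    (by rw [h0]; exact hjn)
  by_contra hjS
  have h2 : pmB_f S (⟨2 * j, hlt⟩ : Fin n) = ⟨2 * j, hlt⟩ :=
    pmB_f_neg (by rw [h0]; exact fun hh => hjS hh.1)
  have h3 : pmB_f R (⟨2 * j, hlt⟩ : Fin n) = pmB_f S (⟨2 * j, hlt⟩ : Fin n) := by
    have := congrArg (fun e : Equiv.Perm (Fin n) => e (⟨2 * j, hlt⟩ : Fin n)) h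
    exact this
  rw [h3, h2] at h1
  have h4 : (⟨2 * j, hlt⟩ : Fin n).1 = 2 * j := rfl
  omega

theorem size_P {T : Type} {n : ℕ} (a : Dir n) (x : T ≃ Fin n) :
    2 ^ (n / 2 - 2) ≤ {y : T ≃ Fin n | etaP a y = etaP a x}.ncard := by
  classical
  have : Finite T := Finite.of_equiv _ x.symm
  set J : Finset ℕ := (Finset.range (n / 2)) \ {a.1.1, a.1.1 + 1} with hJ
  have hJc : n / 2 - 2 ≤ J.card := by
    have h1 := Finset.le_card_sdiff ({a.1.1, a.1.1 + 1} : Finset ℕ) (Finset.range (n / 2))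
    have h2 : ({a.1.1, a.1.1 + 1} : Finset ℕ).card ≤ 2 := Finset.card_le_two
    rw [Finset.card_range] at h1
    rw [hJ]
    omega
  have hmem : ∀ j ∈ J, j < n / 2 ∧ j ≠ a.1.1 ∧ j ≠ a.1.1 + 1 := by
    intro j hj
    rw [hJ, Finset.mem_sdiff, Finset.mem_range] at hj
    refine ⟨hj.1, ?_, ?_⟩
    · intro h
      exact hj.2 (by simp [h])
    · intro h
      exact hj.2 (by simp [h])
  have hinj : Set.InjOn (fun R : Finset ℕ => x.trans (pmB_tau (n := n) R)) (J.powerset : Set (Finset ℕ)) := by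
    intro R hR S hS h
    have hR' : R ⊆ J := Finset.mem_powerset.1 (Finset.mem_coe.1 hR)
    have hS' : S ⊆ J := Finset.mem_powerset.1 (Finset.mem_coe.1 hS)
    have h1 : pmB_tau (n := n) R = pmB_tau (n := n) S := by
      apply Equiv.ext
      intro p
      have := congrArg (fun e : T ≃ Fin n => e (x.symm p)) h
      simpa using this
    exact Finset.Subset.antisymm (pmB_inj (fun j hj => (hmem j (hR' hj)).1) h1)
      (pmB_inj (fun j hj => (hmem j (hS' hj)).1) h1.symm)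
  have hsub : (fun R : Finset ℕ => x.trans (pmB_tau (n := n) R)) '' (J.powerset : Set (Finset ℕ)) ⊆
      {y : T ≃ Fin n | etaP a y = etaP a x} := by
    rintro y ⟨R, hR, rfl⟩
    have hR' : R ⊆ J := Finset.mem_powerset.1 (Finset.mem_coe.1 hR)
    change etaP a (x.trans (pmB_tau R)) = etaP a x
    funext t
    unfold etaP
    exact pmB_hh a.1.1 R (fun j hj => (hmem j (hR' hj)).2) (x t)
  calc 2 ^ (n / 2 - 2) ≤ 2 ^ J.card := Nat.pow_le_pow_right (by norm_num) hJc
    _ = J.powerset.card := (Finset.card_powerset J).symm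
    _ = (J.powerset : Set (Finset ℕ)).ncard := (Set.ncard_coe_finset _).symm
    _ = ((fun R : Finset ℕ => x.trans (pmB_tau (n := n) R)) '' (J.powerset : Set (Finset ℕ))).ncard :=
        hinj.ncard_image.symm
    _ ≤ {y : T ≃ Fin n | etaP a y = etaP a x}.ncard := Set.ncard_le_ncard hsub (Set.toFinite _)

end Pool.Agent.H59.TN
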