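import Pool.Agent.H59.TN.PmA

set_option autoImplicit false

/-!
# Module PmC: related orderings are unshuffles of each other

`unsh_of_pairs`: let `g : ℕ → ℕ` be monotone with fibres of at most two elements on `Fin n`, and
`g (x t) = g (y t)` for all `t`. Take `cl t = g (x t)` and `M = {t | x t < y t}`. (1) `cl s < cl t` implies
`x s < x t` and `y s < y t` (monotone, contrapositive). (2) `cl s = cl t`, `s ∈ M`, `t ∉ M`: `s ≠ t`, and `x s, x t, y s, y t` are in the same
fibre, which has at most two elements, so `{x s, x t} = {y s, y t}` (injectivity); `x s < y s` forces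
`y s = x t`, `y t = x s`, so `y t < y s`. (3) same `cl`, `s ∈ M ↔ t ∈ M`: if `s = t` both sides are false;
otherwise either `x s = y s` and then `x t = y t`; or `y s = x t`, `y t = x s`, and then exactly one of `s`,
`t` is in `M`, a contradiction.
`unsh_rel`: if `nuP x = nuP y` use `g z = z / 2`; if `etaP a y = etaP a (sgP a x)` use `g = gg a.1`:
it is monotone, its fibres have at most two elements (case distinction, `omega`),
`hh a u = hh a w → gg a u = gg a w`, and `gg a (τ u) = gg a u` for the swap `τ` of `2 a + 1`, `2 a + 2`.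
-/

namespace Pool.Agent.H59.TN

open Pool.Agent.H45.Corr

theorem unsh_of_pairs {T : Type} {n : ℕ} (x y : T ≃ Fin n) (g : ℕ → ℕ) (hg : Monotone g)
    (hf : ∀ u v w : ℕ, g u = g v → g v = g w → u = v ∨ v = w ∨ u = w)
    (h : ∀ t, g (x t).1 = g (y t).1) : Unsh (ordP x).1 (ordP y).1 := by
  refine ⟨fun t => g (x t).1, {t | (x t).1 < (y t).1}, ?_, ?_, ?_⟩
  · intro s t hst
    have hst' : g (x s).1 < g (x t).1 := hst
    constructor
    · show x s < x t
      rw [Fin.lt_def]
      by_contra hc
      have := hg (not_lt.1 hc)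
      omega
    · show y s < y t
      rw [Fin.lt_def]
      by_contra hc
      have h1 := hg (not_lt.1 hc)
      have h2 := h s
      have h3 := h t
      omega
  · intro s t hst hs ht
    have hst' : g (x s).1 = g (x t).1 := hst
    have hs' : (x s).1 < (y s).1 := hs
    have ht' : ¬ (x t).1 < (y t).1 := ht
    show y t < y s
    rw [Fin.lt_def]
    have h1 := h s
    have h2 := h t
    have hne : s ≠ t := by
      intro he
      rw [he] at hs'
      exact ht' hs'
    have hx : (x s).1 ≠ (x t).1 := fun he => hne (x.injective (Fin.ext he))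
    have hy : (y s).1 ≠ (y t).1 := fun he => hne (y.injective (Fin.ext he))
    have f1 := hf (x s).1 (x t).1 (y s).1 hst' (by omega)
    have f2 := hf (x s).1 (x t).1 (y t).1 hst' (by omega)
    omega
  · intro s t hst hM
    have hst' : g (x s).1 = g (x t).1 := hst
    have hM' : (x s).1 < (y s).1 ↔ (x t).1 < (y t).1 := hM
    show x s < x t ↔ y s < y t
    rw [Fin.lt_def, Fin.lt_def]
    have h1 := h s
    have h2 := h t
    by_cases hne : s = t
    · rw [hne]
      simp
    · have hx : (x s).1 ≠ (x t).1 := fun he => hne (x.injective (Fin.ext he))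
      have hy : (y s).1 ≠ (y t).1 := fun he => hne (y.injective (Fin.ext he))
      have f1 := hf (x s).1 (x t).1 (y s).1 hst' (by omega)
      have f2 := hf (x s).1 (x t).1 (y t).1 hst' (by omega)
      omega

theorem pmC_gg_mono (a : ℕ) : Monotone (gg a) := by
  intro u v huv
  unfold gg
  split_ifs <;> omega

theorem pmC_gg_fib (a u v w : ℕ) (h1 : gg a u = gg a v) (h2 : gg a v = gg a w) :
    u = v ∨ v = w ∨ u = w := by
  unfold gg at h1 h2
  split_ifs at h1 h2 <;> omega

theorem pmC_hh_gg (a u w : ℕ) (h : hh a u = hh a w) : gg a u = gg a w := by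
  unfold hh at h
  unfold gg
  split_ifs at * <;> omega

theorem pmC_gg_swap (a u : ℕ) :
    gg a (if u = 2 * a + 1 then 2 * a + 2 else if u = 2 * a + 2 then 2 * a + 1 else u)
      = gg a u := by
  unfold gg
  split_ifs <;> omega

theorem unsh_rel {T : Type} {n : ℕ} {x y : T ≃ Fin n} (h : (sysP T n).rel x y) :
    Unsh (ordP x).1 (ordP y).1 := by
  rcases h with h | ⟨a, ha⟩
  · have h' : nuP x = nuP y := h
    apply unsh_of_pairs x y (fun z => z / 2)
    · intro u v huv
      exact Nat.div_le_div_right huv
    · intro u v w h1 h2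
      have h1' : u / 2 = v / 2 := h1
      have h2' : v / 2 = w / 2 := h2
      omega
    · intro t
      exact congrFun h' t
  · have h' : etaP a y = etaP a (sgP a x) := ha
    apply unsh_of_pairs x y (gg a.1.1) (pmC_gg_mono a.1.1) (pmC_gg_fib a.1.1)
    intro t
    have h1 : hh a.1.1 (y t).1 = hh a.1.1 ((sgP a x) t).1 := congrFun h' t
    have h2 := pmC_hh_gg a.1.1 _ _ h1
    rw [h2, pmA_sg_apply]
    exact (pmC_gg_swap a.1.1 (x t).1).symm

end Pool.Agent.H59.TN
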