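import Pool.Agent.H59.TN.Srt
import Pool.Agent.H59.TN.CnE
import Pool.Agent.H59.TN.PmB
import Pool.Agent.H59.TN.PmC
import Pool.Agent.H59.TN.Num
import Pool.Agent.H59.TN.Nst
import Pool.Agent.H45.Corr.ThreeMain

set_option autoImplicit false

/-!
# Module Fin: almost all universally correlated pairs are nested

Let `n = Nat.card T ≥ 40`, `T ≃ Fin n`. `x ↦ ordP x` is a bijection from `Ω = (T ≃ Fin n)` to `LinOrd T`
(injective: two bijections with the same ordering differ by an order automorphism of `Fin n`;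
surjective: `exists_rank`), and `Nat.card Ω = n!`. NONNESTED: the map
`(U, V) ↦ (preimage of U, preimage of V)` is injective and maps the universally correlated pairs which are not
nested into the good pairs of `sysP T n` which are not nested (`not_unsh` and `unsh_rel`). Apply
`card_good` with `s = 2 ^ (n / 2 - 2)` (`size_P`), `q = s / n`, `Nat.card (Dir n) ≤ n`, and `num1`, `num2`
(monotone in `Nat.card (Dir n)`). NESTED: nested pairs are universally correlated
(`univCorr_of_subset`, `UnivCorr.symm`), so the set is `{p | p.1 ⊆ p.2 ∨ p.2 ⊆ p.1}`: `card_nested`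
with `Nat.card (LinOrd T) = n!`.
-/

namespace Pool.Agent.H59.TN

open Pool.Agent.H45.Corr

private theorem Fin_inj {T : Type} {n : ℕ} :
    Function.Injective (fun x : T ≃ Fin n => ordP x) := by
  intro x y h
  have h1 : ∀ s t, (x s < x t ↔ y s < y t) := fun s t =>
    iff_of_eq (congrFun (congrFun (congrArg Subtype.val h) s) t)
  let e : Fin n ≃o Fin n :=
    { toEquiv := x.symm.trans y
      map_rel_iff' := by
        intro a b
        show y (x.symm a) ≤ y (x.symm b) ↔ a ≤ b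
        have h2 := h1 (x.symm b) (x.symm a)
        rw [Equiv.apply_symm_apply, Equiv.apply_symm_apply] at h2
        rw [← not_lt, ← not_lt (a := b), h2] }
  have he : e = OrderIso.refl (Fin n) := Subsingleton.elim _ _
  apply Equiv.ext
  intro t
  have h3 : e (x t) = x t := by rw [he]; rfl
  have h4 : e (x t) = y t := by
    show y (x.symm (x t)) = y t
    rw [Equiv.symm_apply_apply]
  rw [← h3, h4]

private theorem Fin_surj {T : Type} [Finite T] {n : ℕ} (hn : Nat.card T = n) :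
    Function.Surjective (fun x : T ≃ Fin n => ordP x) := by
  have : Fintype T := Fintype.ofFinite T
  intro L
  obtain ⟨e, he⟩ := exists_rank L
  have h1 : Fintype.card T = n := by rw [← hn, Nat.card_eq_fintype_card]
  subst h1
  refine ⟨e, Subtype.ext ?_⟩
  funext a b
  exact propext (he a b).symm

private theorem Fin_cardEquiv {T : Type} [Finite T] {n : ℕ} (hn : Nat.card T = n) :
    Nat.card (T ≃ Fin n) = n.factorial := by
  classical
  have : Fintype T := Fintype.ofFinite T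
  have h1 : Fintype.card T = n := by rw [← hn, Nat.card_eq_fintype_card]
  subst h1
  rw [Nat.card_eq_fintype_card, Fintype.card_equiv (Fintype.equivFin T)]

theorem card_linOrd (T : Type) [Finite T] : Nat.card (LinOrd T) = (Nat.card T).factorial := by
  rw [← Nat.card_eq_of_bijective _ ⟨Fin_inj, Fin_surj (T := T) rfl⟩, Fin_cardEquiv rfl]

theorem nonnested (T : Type) [Finite T] (hn : 40 ≤ Nat.card T) :
    (({p : Set (LinOrd T) × Set (LinOrd T) | UnivCorr p.1 p.2 ∧
      ¬ (p.1 ⊆ p.2 ∨ p.2 ⊆ p.1)}.ncard : ℕ) : ℝ) ≤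
      Real.exp (-(2 : ℝ) ^ (Nat.card T / 4)) * 3 ^ (Nat.card T).factorial := by
  classical
  obtain ⟨n, hnT⟩ : ∃ n, Nat.card T = n := ⟨_, rfl⟩
  rw [hnT] at hn ⊢
  set S := sysP T n with hS
  have hsurj := Fin_surj hnT
  set φ : (T ≃ Fin n) → LinOrd T := fun x => ordP x with hφ
  have hfinΩ : Finite (T ≃ Fin n) := inferInstance
  have h1 : {p : Set (LinOrd T) × Set (LinOrd T) | UnivCorr p.1 p.2 ∧
      ¬ (p.1 ⊆ p.2 ∨ p.2 ⊆ p.1)}.ncard ≤
      {p : Set (T ≃ Fin n) × Set (T ≃ Fin n) | S.Good p ∧ ¬ (p.1 ⊆ p.2 ∨ p.2 ⊆ p.1)}.ncard := by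
    refine Set.ncard_le_ncard_of_injOn (fun p => (φ ⁻¹' p.1, φ ⁻¹' p.2)) ?_ ?_ (Set.toFinite _)
    · rintro p ⟨hp1, hp2⟩
      refine ⟨?_, ?_⟩
      · intro x hx y hy hr
        exact not_unsh hp1 (b := φ x) (c := φ y) ⟨hx.1, hx.2⟩ ⟨hy.1, hy.2⟩ (unsh_rel hr)
      · intro h
        apply hp2
        rcases h with h | h
        · exact Or.inl (hsurj.preimage_subset_preimage_iff.1 h)
        · exact Or.inr (hsurj.preimage_subset_preimage_iff.1 h)
    · rintro p - q - h
      have h2 := congrArg Prod.fst h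
      have h3 := congrArg Prod.snd h
      exact Prod.ext (hsurj.preimage_injective h2) (hsurj.preimage_injective h3)
  have hI : Nat.card (Dir n) ≤ n := by
    have h2 : Nat.card (Dir n) ≤ Nat.card (Fin n) :=
      Nat.card_le_card_of_injective _ Subtype.val_injective
    rwa [Nat.card_eq_fintype_card, Nat.card_eq_fintype_card, Fintype.card_fin,
      ← Nat.card_eq_fintype_card] at h2
  have hΩ : Nat.card (T ≃ Fin n) = n.factorial := Fin_cardEquiv hnT
  have hpow : (0 : ℝ) ≤ (2 / 3 : ℝ) ^ (2 ^ (n / 2 - 2) / n) := by positivity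
  have hIr : (Nat.card (Dir n) : ℝ) ≤ n := by exact_mod_cast hI
  have hm : (Nat.card (Dir n) : ℝ) * (Nat.card (T ≃ Fin n) : ℝ) ≤ (n : ℝ) * n.factorial := by
    rw [hΩ]
    exact mul_le_mul_of_nonneg_right hIr (Nat.cast_nonneg _)
  have h2 := S.card_good (s := 2 ^ (n / 2 - 2)) (q := 2 ^ (n / 2 - 2) / n)
    (fun i x => size_P i x)
    ((Nat.mul_le_mul_left _ hI).trans (Nat.div_mul_le_self _ _))
    (le_trans (mul_le_mul_of_nonneg_right (mul_le_mul_of_nonneg_left hm (by norm_num)) hpow)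
      (num2 hn))
  have h3 : (({p : Set (LinOrd T) × Set (LinOrd T) | UnivCorr p.1 p.2 ∧
      ¬ (p.1 ⊆ p.2 ∨ p.2 ⊆ p.1)}.ncard : ℕ) : ℝ) ≤
      (({p : Set (T ≃ Fin n) × Set (T ≃ Fin n) | S.Good p ∧
        ¬ (p.1 ⊆ p.2 ∨ p.2 ⊆ p.1)}.ncard : ℕ) : ℝ) := Nat.cast_le.2 h1
  refine h3.trans (h2.trans ?_)
  rw [hΩ]
  refine mul_le_mul_of_nonneg_right ?_ (by positivity)
  rw [hΩ] at hm
  exact le_trans (mul_le_mul_of_nonneg_right (mul_le_mul_of_nonneg_left hm (by norm_num)) hpow)
    (num1 hn)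

theorem nested_card (T : Type) [Finite T] :
    {p : Set (LinOrd T) × Set (LinOrd T) | UnivCorr p.1 p.2 ∧
      (p.1 ⊆ p.2 ∨ p.2 ⊆ p.1)}.ncard =
      2 * 3 ^ (Nat.card T).factorial - 2 ^ (Nat.card T).factorial := by
  have h : {p : Set (LinOrd T) × Set (LinOrd T) | UnivCorr p.1 p.2 ∧
      (p.1 ⊆ p.2 ∨ p.2 ⊆ p.1)} =
      {p : Set (LinOrd T) × Set (LinOrd T) | p.1 ⊆ p.2 ∨ p.2 ⊆ p.1} := by
    ext p
    refine ⟨fun h => h.2, fun h => ⟨?_, h⟩⟩
    rcases h with h | h
    · exact univCorr_of_subset h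
    · exact (univCorr_of_subset h).symm
  rw [h, card_nested, card_linOrd]

end Pool.Agent.H59.TN
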