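import Pool.Agent.H59.TN.Chb

set_option autoImplicit false

/-!
# Module Gk: the good window states carry almost all the weight

`W = 4 v P`. GOOD BITS: the number of `π` with `|pre π (2 v l) - v l| < u` for all `l ≤ 2 P` is at least
`2 ^ W - ∑ l ≤ 2 P, (v l) 2 ^ W / (2 u ^ 2) ≥ 2 ^ W (1 - (2 P + 1) v P / u ^ 2)` (`chb` with `m = v l`,
`2 v l ≤ 4 v P`, union bound). PLACES: `GdF v u P r k` for `k < r` is the product of
`{j | v k + u ≤ j, j + u < v (k + 1)}` (all these `j` are `< r v`) and of the good bits, so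
`g k = (∑ j, ρ ^ j) * (number of good bits)`, and if `ρ ^ v = lam` then
`∑ j, ρ ^ j ≥ lam ^ k (Z - 2 u (max 1 lam))`, `Z = ∑ i < v, ρ ^ i`: the omitted terms of the block are
`lam ^ k ρ ^ i` with `i < u` or `v - u ≤ i < v`, and `ρ ^ i ≤ max 1 lam` for `i ≤ v`; also
`Z ≥ v min 1 lam`. So `g k ≥ lam ^ k Z 2 ^ W (1 - 2 u (max 1 lam) / (v (min 1 lam)))
(1 - (2 P + 1) v P / u ^ 2)`. Take `u = y ^ 2`, `v = y ^ 3`, `ρ = lam ^ (1 / v : ℝ)` (`Real.rpow`,
`Real.rpow_natCast`, `Real.rpow_mul`): both correction terms are `O(1 / y)`, so `y` large is good.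
TOTAL: `∑ x ∈ AllW, ρ ^ x.1 = 2 ^ W ∑ j < r v, ρ ^ j = 2 ^ W (∑ k < r, lam ^ k) Z` (split
`j = v k + i`; `Finset.sum_product`, `Finset.sum_range` block decomposition by induction on `r`).
-/

namespace Pool.Agent.H59.TN

private theorem Gk_rho {lam : ℝ} (hl : 0 < lam) {v : ℕ} (hv : 0 < v) :
    ∃ ρ : ℝ, 0 < ρ ∧ ρ ^ v = lam ∧ ∀ i ≤ v, min 1 lam ≤ ρ ^ i ∧ ρ ^ i ≤ max 1 lam := by
  have h0 : 0 < lam ^ ((v : ℝ)⁻¹) := Real.rpow_pos_of_pos hl _
  have h1 : (lam ^ ((v : ℝ)⁻¹)) ^ v = lam := Real.rpow_inv_natCast_pow hl.le hv.ne'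
  refine ⟨lam ^ ((v : ℝ)⁻¹), h0, h1, ?_⟩
  intro i hi
  rcases le_total 1 (lam ^ ((v : ℝ)⁻¹)) with h | h
  · have a1 : 1 ≤ (lam ^ ((v : ℝ)⁻¹)) ^ i := one_le_pow₀ h
    have a2 : (lam ^ ((v : ℝ)⁻¹)) ^ i ≤ (lam ^ ((v : ℝ)⁻¹)) ^ v := pow_le_pow_right₀ h hi
    rw [h1] at a2
    exact ⟨(min_le_left _ _).trans a1, a2.trans (le_max_right _ _)⟩
  · have a1 : (lam ^ ((v : ℝ)⁻¹)) ^ i ≤ 1 := pow_le_one₀ h0.le h
    have a2 : (lam ^ ((v : ℝ)⁻¹)) ^ v ≤ (lam ^ ((v : ℝ)⁻¹)) ^ i := pow_le_pow_of_le_one h0.le h hi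
    rw [h1] at a2
    exact ⟨(min_le_right _ _).trans a2, a1.trans (le_max_left _ _)⟩

private theorem Gk_geo {ρ lam : ℝ} {v : ℕ} (h : ρ ^ v = lam) (r : ℕ) :
    ∑ j ∈ Finset.range (r * v), ρ ^ j =
      (∑ k ∈ Finset.range r, lam ^ k) * ∑ i ∈ Finset.range v, ρ ^ i := by
  induction r with
  | zero => simp
  | succ r ih =>
    rw [Nat.succ_mul, Finset.sum_range_add, ih, Finset.sum_range_succ, add_mul]
    congr 1
    rw [Finset.mul_sum]
    refine Finset.sum_congr rfl fun i _ => ?_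
    rw [pow_add, mul_comm r v, pow_mul, h]

private theorem Gk_tot {ρ lam : ℝ} {v : ℕ} (h : ρ ^ v = lam) (r P : ℕ) :
    ∑ x ∈ AllW v r P, ρ ^ x.1 =
      (∑ k ∈ Finset.range r, lam ^ k) * ((∑ i ∈ Finset.range v, ρ ^ i) * 2 ^ (4 * v * P)) := by
  unfold AllW
  rw [Finset.sum_product]
  have h1 : ∀ j ∈ Finset.range (r * v), ∑ _π : Finset (Fin (4 * v * P)), ρ ^ j =
      ρ ^ j * 2 ^ (4 * v * P) := by
    intro j _
    rw [Finset.sum_const, Finset.card_univ, Fintype.card_finset, Fintype.card_fin, nsmul_eq_mul,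
      mul_comm]
    push_cast
    rfl
  rw [Finset.sum_congr rfl h1, ← Finset.sum_mul, Gk_geo h, mul_assoc]

/-- the good bits -/
private noncomputable def GkG (v u P : ℕ) : Finset (Finset (Fin (4 * v * P))) := by
  classical exact Finset.univ.filter (fun π => ∀ l ≤ 2 * P, |(pre π (2 * v * l) : ℤ) - v * l| < u)

private theorem Gk_bits {v u P : ℕ} (hu : 0 < u) :
    (2 : ℝ) ^ (4 * v * P) * (1 - (2 * P + 1) * (v * P) / u ^ 2) ≤ ((GkG v u P).card : ℝ) := by
  classical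
  let bad : ℕ → Finset (Finset (Fin (4 * v * P))) := fun l => Finset.univ.filter
    (fun π => (u : ℤ) ≤ |(pre π (2 * (v * l)) : ℤ) - ((v * l : ℕ) : ℤ)|)
  have h1 : (Finset.univ : Finset (Finset (Fin (4 * v * P)))) ⊆
      GkG v u P ∪ (Finset.range (2 * P + 1)).biUnion bad := by
    intro π _
    rw [Finset.mem_union]
    by_cases h : π ∈ GkG v u P
    · exact Or.inl h
    · right
      have h2 : ¬ ∀ l ≤ 2 * P, |(pre π (2 * v * l) : ℤ) - v * l| < u := by
        intro h3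
        exact h (by
          unfold GkG
          exact Finset.mem_filter.2 ⟨Finset.mem_univ _, h3⟩)
      simp only [not_forall, not_lt] at h2
      obtain ⟨l, hl, h3⟩ := h2
      refine Finset.mem_biUnion.2 ⟨l, Finset.mem_range.2 (by omega), ?_⟩
      refine Finset.mem_filter.2 ⟨Finset.mem_univ _, ?_⟩
      rw [← mul_assoc]
      push_cast
      exact h3
  have h2 : 2 ^ (4 * v * P) ≤ (GkG v u P).card + ∑ l ∈ Finset.range (2 * P + 1), (bad l).card := by
    calc 2 ^ (4 * v * P) = (Finset.univ : Finset (Finset (Fin (4 * v * P)))).card := by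
          rw [Finset.card_univ, Fintype.card_finset, Fintype.card_fin]
      _ ≤ _ := Finset.card_le_card h1
      _ ≤ (GkG v u P).card + ((Finset.range (2 * P + 1)).biUnion bad).card :=
          Finset.card_union_le _ _
      _ ≤ _ := Nat.add_le_add_left Finset.card_biUnion_le _
  have hu' : (0 : ℝ) < (u : ℝ) ^ 2 := by
    have : (0 : ℝ) < u := by exact_mod_cast hu
    positivity
  have h3 : ∀ l ∈ Finset.range (2 * P + 1), ((bad l).card : ℝ) ≤
      2 ^ (4 * v * P) * (v * P) / u ^ 2 := by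
    intro l hl
    have hl' : l ≤ 2 * P := by
      have := Finset.mem_range.1 hl
      omega
    have hm : 2 * (v * l) ≤ 4 * v * P := by
      calc 2 * (v * l) ≤ 2 * (v * (2 * P)) := by gcongr
        _ = 4 * v * P := by ring
    have h4 := chb hm u
    have h5 : 2 * u ^ 2 * (bad l).card ≤ v * (2 * P) * 2 ^ (4 * v * P) :=
      h4.trans (by gcongr)
    have h6 : (2 : ℝ) * (u : ℝ) ^ 2 * ((bad l).card : ℝ) ≤ (v : ℝ) * (2 * P) * 2 ^ (4 * v * P) := by
      exact_mod_cast h5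
    rw [le_div_iff₀ hu']
    linarith
  have h4 : (2 : ℝ) ^ (4 * v * P) ≤ ((GkG v u P).card : ℝ) +
      ∑ l ∈ Finset.range (2 * P + 1), ((bad l).card : ℝ) := by
    exact_mod_cast h2
  have h5 := Finset.sum_le_sum h3
  rw [Finset.sum_const, Finset.card_range, nsmul_eq_mul] at h5
  push_cast at h5
  have h6 : (2 : ℝ) ^ (4 * v * P) * (1 - (2 * P + 1) * (v * P) / u ^ 2) =
      2 ^ (4 * v * P) - (2 * P + 1) * (2 ^ (4 * v * P) * (v * P) / u ^ 2) := by
    ring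
  rw [h6]
  linarith

/-- the good places -/
private noncomputable def GkJ (v u r k : ℕ) : Finset ℕ := by
  classical exact (Finset.range (r * v)).filter (fun j => v * k + u ≤ j ∧ j + u < v * (k + 1))

private theorem Gk_prod (v u P r k : ℕ) : GdF v u P r k = GkJ v u r k ×ˢ GkG v u P := by
  classical
  ext ⟨j, π⟩
  have hG : (j, π) ∈ GdF v u P r k ↔ (j, π) ∈ AllW v r P ∧ (j, π) ∈ Gd v u P k := by
    unfold GdF
    exact Finset.mem_filter
  have hJ : j ∈ GkJ v u r k ↔ j ∈ Finset.range (r * v) ∧ v * k + u ≤ j ∧ j + u < v * (k + 1) := by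
    unfold GkJ
    exact Finset.mem_filter
  have hB : π ∈ GkG v u P ↔ π ∈ Finset.univ ∧ ∀ l ≤ 2 * P, |(pre π (2 * v * l) : ℤ) - v * l| < u := by
    unfold GkG
    exact Finset.mem_filter
  rw [Finset.mem_product, hG, hJ, hB]
  unfold AllW Gd
  rw [Finset.mem_product]
  constructor
  · rintro ⟨⟨h1, _⟩, h2, h3, h4⟩
    exact ⟨⟨h1, h2, h3⟩, Finset.mem_univ _, h4⟩
  · rintro ⟨⟨h1, h2, h3⟩, _, h4⟩
    exact ⟨⟨h1, Finset.mem_univ _⟩, h2, h3, h4⟩

private theorem Gk_places {ρ lam M : ℝ} {v u r k : ℕ} (h : ρ ^ v = lam) (hl : 0 < lam)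
    (hM : ∀ i ≤ v, ρ ^ i ≤ M) (hM0 : 0 ≤ M) (hk : k < r) :
    lam ^ k * (∑ i ∈ Finset.range v, ρ ^ i - 2 * u * M) ≤ ∑ j ∈ GkJ v u r k, ρ ^ j := by
  classical
  have h1 : ∑ j ∈ GkJ v u r k, ρ ^ j =
      ∑ i ∈ (Finset.range v).filter (fun i => u ≤ i ∧ i + u < v), ρ ^ (v * k + i) := by
    symm
    refine Finset.sum_nbij (fun i => v * k + i) ?_ ?_ ?_ ?_
    · intro i hi
      obtain ⟨h2, h3, h4⟩ := Finset.mem_filter.1 hi
      have h5 := Finset.mem_range.1 h2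
      unfold GkJ
      refine Finset.mem_filter.2 ⟨Finset.mem_range.2 ?_, ?_, ?_⟩
      · have h6 : v * (k + 1) ≤ r * v := by
          rw [mul_comm r v]
          exact Nat.mul_le_mul_left _ hk
        have h7 : v * (k + 1) = v * k + v := by ring
        show v * k + i < r * v
        omega
      · show v * k + u ≤ v * k + i
        omega
      · show v * k + i + u < v * (k + 1)
        have h7 : v * (k + 1) = v * k + v := by ring
        omega
    · intro i _ i' _ hii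
      have : v * k + i = v * k + i' := hii
      omega
    · intro j hj
      unfold GkJ at hj
      obtain ⟨h2, h3, h4⟩ := Finset.mem_filter.1 (Finset.mem_coe.1 hj)
      have h7 : v * (k + 1) = v * k + v := by ring
      refine ⟨j - v * k, Finset.mem_coe.2 (Finset.mem_filter.2
        ⟨Finset.mem_range.2 (by omega), by omega, by omega⟩), ?_⟩
      show v * k + (j - v * k) = j
      omega
    · intro i _
      rfl
  have h2 : ∑ i ∈ (Finset.range v).filter (fun i => u ≤ i ∧ i + u < v), ρ ^ (v * k + i) =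
      lam ^ k * ∑ i ∈ (Finset.range v).filter (fun i => u ≤ i ∧ i + u < v), ρ ^ i := by
    rw [Finset.mul_sum]
    refine Finset.sum_congr rfl fun i _ => ?_
    rw [pow_add, pow_mul, h]
  rw [h1, h2]
  refine mul_le_mul_of_nonneg_left ?_ (by positivity)
  have h3 := Finset.sum_filter_add_sum_filter_not (Finset.range v) (fun i => u ≤ i ∧ i + u < v)
    (fun i => ρ ^ i)
  have h4 : ∑ i ∈ (Finset.range v).filter (fun i => ¬ (u ≤ i ∧ i + u < v)), ρ ^ i ≤ 2 * u * M := by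
    have h5 : ∀ i ∈ (Finset.range v).filter (fun i => ¬ (u ≤ i ∧ i + u < v)), ρ ^ i ≤ M := by
      intro i hi
      exact hM i (Finset.mem_range.1 (Finset.mem_filter.1 hi).1).le
    have h6 := Finset.sum_le_card_nsmul _ _ _ h5
    rw [nsmul_eq_mul] at h6
    have h7 : ((Finset.range v).filter (fun i => ¬ (u ≤ i ∧ i + u < v))).card ≤ 2 * u := by
      have h8 : (Finset.range v).filter (fun i => ¬ (u ≤ i ∧ i + u < v)) ⊆
          Finset.range u ∪ Finset.Ico (v - u) v := by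
        intro i hi
        obtain ⟨h9, h10⟩ := Finset.mem_filter.1 hi
        have h11 := Finset.mem_range.1 h9
        rw [Finset.mem_union, Finset.mem_range, Finset.mem_Ico]
        by_cases h12 : i < u
        · exact Or.inl h12
        · right
          have h13 : ¬ i + u < v := fun h => h10 ⟨not_lt.1 h12, h⟩
          omega
      refine (Finset.card_le_card h8).trans ((Finset.card_union_le _ _).trans ?_)
      rw [Finset.card_range, Nat.card_Ico]
      omega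
    refine h6.trans ?_
    have h8 : ((((Finset.range v).filter (fun i => ¬ (u ≤ i ∧ i + u < v))).card : ℕ) : ℝ) ≤
        2 * u := by
      exact_mod_cast h7
    exact mul_le_mul_of_nonneg_right h8 hM0
  linarith

theorem gk (P r : ℕ) {lam : ℝ} (hl : 0 < lam) {ε : ℝ} (hε : 0 < ε) :
    ∃ (v u : ℕ) (ρ C : ℝ), 0 < v ∧ 0 < ρ ∧ 0 < C ∧
      (∀ k < r, (1 - ε) * lam ^ k * C ≤ ∑ x ∈ GdF v u P r k, ρ ^ x.1) ∧
      ∑ x ∈ AllW v r P, ρ ^ x.1 = (∑ k ∈ Finset.range r, lam ^ k) * C := by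
  have hm0 : 0 < min 1 lam := lt_min one_pos hl
  have hM1 : 1 ≤ max 1 lam := le_max_left _ _
  have hM0 : 0 < max 1 lam := lt_of_lt_of_le one_pos hM1
  have hε' : 0 < min ε 1 := lt_min hε one_pos
  obtain ⟨y, hy⟩ := exists_nat_gt ((2 * max 1 lam / min 1 lam + (2 * P + 1) * P) / min ε 1)
  have hq : 0 ≤ 2 * max 1 lam / min 1 lam + (2 * (P : ℝ) + 1) * P := by positivity
  have hy0 : (0 : ℝ) < y := lt_of_le_of_lt (div_nonneg hq hε'.le) hy
  have hyn : 0 < y := by exact_mod_cast hy0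
  have hy1 : 2 * max 1 lam / min 1 lam / y + (2 * P + 1) * P / y ≤ min ε 1 := by
    rw [div_lt_iff₀ hε'] at hy
    rw [← add_div, div_le_iff₀ hy0]
    linarith
  have hv : 0 < y ^ 3 := by positivity
  have hu : 0 < y ^ 2 := by positivity
  obtain ⟨ρ, hρ0, hρ1, hρ2⟩ := Gk_rho hl hv
  have hZ1 : ((y ^ 3 : ℕ) : ℝ) * min 1 lam ≤ ∑ i ∈ Finset.range (y ^ 3), ρ ^ i := by
    have h1 := Finset.card_nsmul_le_sum (Finset.range (y ^ 3)) (fun i => ρ ^ i) (min 1 lam)
      (fun i hi => (hρ2 i (Finset.mem_range.1 hi).le).1)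
    rw [Finset.card_range, nsmul_eq_mul] at h1
    exact h1
  have hZ0 : 0 < ∑ i ∈ Finset.range (y ^ 3), ρ ^ i :=
    lt_of_lt_of_le (by positivity) hZ1
  refine ⟨y ^ 3, y ^ 2, ρ, (∑ i ∈ Finset.range (y ^ 3), ρ ^ i) * 2 ^ (4 * y ^ 3 * P), hv, hρ0,
    by positivity, ?_, Gk_tot hρ1 r P⟩
  intro k hk
  have e1 : ∑ x ∈ GdF (y ^ 3) (y ^ 2) P r k, ρ ^ x.1 =
      (∑ j ∈ GkJ (y ^ 3) (y ^ 2) r k, ρ ^ j) * ((GkG (y ^ 3) (y ^ 2) P).card : ℝ) := by
    rw [Gk_prod, Finset.sum_product, Finset.sum_mul]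
    refine Finset.sum_congr rfl fun j _ => ?_
    show ∑ _π ∈ GkG (y ^ 3) (y ^ 2) P, ρ ^ j = _
    rw [Finset.sum_const, nsmul_eq_mul, mul_comm]
  rw [e1]
  have hA := Gk_places (v := y ^ 3) (u := y ^ 2) (r := r) (k := k) hρ1 hl
    (fun i hi => (hρ2 i hi).2) hM0.le hk
  have hB := Gk_bits (v := y ^ 3) (u := y ^ 2) (P := P) hu
  have ha : 2 * max 1 lam / min 1 lam / y ≤ 1 := by
    have : 0 ≤ (2 * (P : ℝ) + 1) * P / y := by positivity
    linarith [min_le_right ε 1]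
  have hb : (2 * (P : ℝ) + 1) * P / y ≤ 1 := by
    have : 0 ≤ 2 * max 1 lam / min 1 lam / y := by positivity
    linarith [min_le_right ε 1]
  have hA' : lam ^ k * ((∑ i ∈ Finset.range (y ^ 3), ρ ^ i) *
      (1 - 2 * max 1 lam / min 1 lam / y)) ≤ ∑ j ∈ GkJ (y ^ 3) (y ^ 2) r k, ρ ^ j := by
    refine le_trans ?_ hA
    refine mul_le_mul_of_nonneg_left ?_ (by positivity)
    have h1 : 2 * ((y ^ 2 : ℕ) : ℝ) * max 1 lam ≤
        (∑ i ∈ Finset.range (y ^ 3), ρ ^ i) * (2 * max 1 lam / min 1 lam / y) := by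
      calc 2 * ((y ^ 2 : ℕ) : ℝ) * max 1 lam =
            (((y ^ 3 : ℕ) : ℝ) * min 1 lam) * (2 * max 1 lam / min 1 lam / y) := by
            push_cast
            field_simp
        _ ≤ _ := mul_le_mul_of_nonneg_right hZ1 (by positivity)
    linarith
  have hB' : (2 : ℝ) ^ (4 * y ^ 3 * P) * (1 - (2 * (P : ℝ) + 1) * P / y) ≤
      ((GkG (y ^ 3) (y ^ 2) P).card : ℝ) := by
    refine le_trans (le_of_eq ?_) hB
    congr 2
    push_cast
    field_simp
  have h0 : 0 ≤ lam ^ k * ((∑ i ∈ Finset.range (y ^ 3), ρ ^ i) *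
      (1 - 2 * max 1 lam / min 1 lam / y)) := by
    have : 0 ≤ 1 - 2 * max 1 lam / min 1 lam / y := by linarith
    positivity
  have h0' : 0 ≤ (2 : ℝ) ^ (4 * y ^ 3 * P) * (1 - (2 * (P : ℝ) + 1) * P / y) := by
    have : 0 ≤ 1 - (2 * (P : ℝ) + 1) * P / y := by linarith
    positivity
  have h1 := mul_le_mul hA' hB' h0' (h0.trans hA')
  refine le_trans ?_ h1
  have h2 : 1 - ε ≤ (1 - 2 * max 1 lam / min 1 lam / y) * (1 - (2 * (P : ℝ) + 1) * P / y) := by
    have h3 : 0 ≤ (2 * max 1 lam / min 1 lam / y) * ((2 * (P : ℝ) + 1) * P / y) := by positivity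
    have h4 := min_le_left ε 1
    nlinarith
  have h3 : 0 ≤ lam ^ k * ((∑ i ∈ Finset.range (y ^ 3), ρ ^ i) * 2 ^ (4 * y ^ 3 * P)) := by
    positivity
  calc (1 - ε) * lam ^ k * ((∑ i ∈ Finset.range (y ^ 3), ρ ^ i) * 2 ^ (4 * y ^ 3 * P))
      = (1 - ε) * (lam ^ k * ((∑ i ∈ Finset.range (y ^ 3), ρ ^ i) * 2 ^ (4 * y ^ 3 * P))) := by
        ring
    _ ≤ ((1 - 2 * max 1 lam / min 1 lam / y) * (1 - (2 * (P : ℝ) + 1) * P / y)) *
        (lam ^ k * ((∑ i ∈ Finset.range (y ^ 3), ρ ^ i) * 2 ^ (4 * y ^ 3 * P))) :=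
        mul_le_mul_of_nonneg_right h2 h3
    _ = _ := by ring

end Pool.Agent.H59.TN
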