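import Mathlib

set_option autoImplicit false

/-!
# Module Lim: limits of quotients of binomial coefficients

`lim_pre`: induction on `j`: `C(m, k + 1) (k + 1) = C(m, k) (m - k)` (`Nat.choose_succ_right_eq`) with
`m = (A + B) n`, `k = B n + j` gives the quotient of two consecutive terms
`(A n - j) / (B n + j + 1) → A / B` (for `n` with `j ≤ A n`, and the coefficients are positive).
`lim_suf`: let `f α β n = C(2 n - α, n - β)` for fixed `α`, `β` and `n` large (`n > α + β`).
`f (α + 1) β / f α β → 1 / 2`, because `C(m, k) (m - k) = m C(m - 1, k)` (`Nat.choose_mul_succ_eq`: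
`n.choose k * (n + 1) = (n + 1).choose k * (n + 1 - k)`), `m = 2 n - α`, `k = n - β`,
`m - k = n - α + β`; and `f α (β + 1) / f α β = (n - β) / (n - α + β + 1) → 1`
(`Nat.choose_succ_right_eq`). Start with `f 0 0 n / f 0 0 n = 1` and induct first on `α`, then on `β`.
-/

open Filter Topology

namespace Pool.Agent.H59.TN

private theorem Lim_ratio (a b c d : ℝ) (hb : b ≠ 0) :
    Tendsto (fun n : ℕ => (a * n + c) / (b * n + d)) atTop (𝓝 (a / b)) := by
  have h1 : Tendsto (fun n : ℕ => a + c / n) atTop (𝓝 (a + 0)) :=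
    tendsto_const_nhds.add (tendsto_const_div_atTop_nhds_zero_nat c)
  have h2 : Tendsto (fun n : ℕ => b + d / n) atTop (𝓝 (b + 0)) :=
    tendsto_const_nhds.add (tendsto_const_div_atTop_nhds_zero_nat d)
  have h3 := h1.div h2 (by simpa using hb)
  rw [add_zero, add_zero] at h3
  refine h3.congr' ?_
  filter_upwards [eventually_gt_atTop 0] with n hn
  have hn' : (n : ℝ) ≠ 0 := by exact_mod_cast hn.ne'
  simp only [Pi.div_apply]
  rw [show a * n + c = (a + c / n) * n by field_simp, show b * n + d = (b + d / n) * n by field_simp,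
    mul_div_mul_right _ _ hn']

theorem lim_pre {A B : ℕ} (hA : 0 < A) (hB : 0 < B) (j : ℕ) :
    Tendsto (fun n : ℕ => ((((A + B) * n).choose (B * n + j) : ℕ) : ℝ) /
      ((((A + B) * n).choose (B * n) : ℕ) : ℝ)) atTop (𝓝 (((A : ℝ) / B) ^ j)) := by
  induction j with
  | zero =>
    have : (fun n : ℕ => ((((A + B) * n).choose (B * n + 0) : ℕ) : ℝ) /
      ((((A + B) * n).choose (B * n) : ℕ) : ℝ)) = fun _ => (1 : ℝ) := by
      funext n
      have h : 0 < ((A + B) * n).choose (B * n) := Nat.choose_pos (by nlinarith [Nat.zero_le (A * n)])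
      have h' : ((((A + B) * n).choose (B * n) : ℕ) : ℝ) ≠ 0 := by exact_mod_cast h.ne'
      rw [add_zero, div_self h']
    rw [this, pow_zero]
    exact tendsto_const_nhds
  | succ j ih =>
    have h1 := Lim_ratio (A : ℝ) (B : ℝ) (-(j : ℝ)) ((j : ℝ) + 1) (by exact_mod_cast hB.ne')
    have h2 := ih.mul h1
    rw [pow_succ]
    refine h2.congr' ?_
    filter_upwards [eventually_ge_atTop j] with n hn
    have hjA : j ≤ A * n := hn.trans (Nat.le_mul_of_pos_left n hA)
    have hid := Nat.choose_succ_right_eq ((A + B) * n) (B * n + j)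
    have hsub : (A + B) * n - (B * n + j) = A * n - j := by
      have : (A + B) * n = A * n + B * n := by ring
      omega
    rw [hsub] at hid
    have hid' : ((((A + B) * n).choose (B * n + j + 1) : ℕ) : ℝ) * ((B : ℝ) * n + j + 1)
        = ((((A + B) * n).choose (B * n + j) : ℕ) : ℝ) * ((A : ℝ) * n - j) := by
      have := congrArg (fun z : ℕ => (z : ℝ)) hid
      push_cast [Nat.cast_sub hjA] at this
      exact this
    have hne : ((B : ℝ) * n + (j + 1)) ≠ 0 := by positivity
    have h3 : ((((A + B) * n).choose (B * n + (j + 1)) : ℕ) : ℝ)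
        = ((((A + B) * n).choose (B * n + j) : ℕ) : ℝ) * ((A * n + -(j : ℝ)) / (B * n + (j + 1))) := by
      rw [mul_div_assoc', eq_div_iff hne, ← add_assoc (B * n) j 1]
      rw [show (B : ℝ) * n + (j + 1) = B * n + j + 1 by ring, hid']
      ring
    rw [h3]
    ring

private theorem Lim_a (α β : ℕ) : ∀ᶠ n : ℕ in atTop,
    (((2 * n - (α + 1)).choose (n - β) : ℕ) : ℝ)
      = (((2 * n - α).choose (n - β) : ℕ) : ℝ) * ((1 * n + ((β : ℝ) - α)) / (2 * n + (-(α : ℝ)))) := by
  filter_upwards [eventually_gt_atTop (α + β)] with n hn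
  have hid := Nat.choose_mul_succ_eq (2 * n - (α + 1)) (n - β)
  have e1 : 2 * n - (α + 1) + 1 = 2 * n - α := by omega
  rw [e1] at hid
  have e2 : 2 * n - α - (n - β) = n + β - α := by omega
  rw [e2] at hid
  have hid' : (((2 * n - (α + 1)).choose (n - β) : ℕ) : ℝ) * (2 * n - α)
      = (((2 * n - α).choose (n - β) : ℕ) : ℝ) * (n + β - α) := by
    have := congrArg (fun z : ℕ => (z : ℝ)) hid
    push_cast [Nat.cast_sub (show α ≤ 2 * n by omega), Nat.cast_sub (show α ≤ n + β by omega)] at this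
    exact this
  have hpos : (0 : ℝ) < 2 * n + (-(α : ℝ)) := by
    have : (α : ℝ) + β < n := by exact_mod_cast hn
    have h0 : (0 : ℝ) ≤ β := Nat.cast_nonneg β
    have h1 : (0 : ℝ) ≤ α := Nat.cast_nonneg α
    linarith
  rw [mul_div_assoc', eq_div_iff hpos.ne']
  have : (2 * (n : ℝ) + (-(α : ℝ))) = 2 * n - α := by ring
  rw [this, hid']
  ring

private theorem Lim_b (α β : ℕ) : ∀ᶠ n : ℕ in atTop,
    (((2 * n - α).choose (n - (β + 1)) : ℕ) : ℝ)
      = (((2 * n - α).choose (n - β) : ℕ) : ℝ)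
        * ((1 * n + (-(β : ℝ))) / (1 * n + ((β : ℝ) + 1 - α))) := by
  filter_upwards [eventually_gt_atTop (α + β)] with n hn
  have hid := Nat.choose_succ_right_eq (2 * n - α) (n - (β + 1))
  have e1 : n - (β + 1) + 1 = n - β := by omega
  have e2 : 2 * n - α - (n - (β + 1)) = n + (β + 1) - α := by omega
  rw [e1, e2] at hid
  have hid' : (((2 * n - α).choose (n - β) : ℕ) : ℝ) * (n - β)
      = (((2 * n - α).choose (n - (β + 1)) : ℕ) : ℝ) * (n + (β + 1) - α) := by
    have := congrArg (fun z : ℕ => (z : ℝ)) hid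
    push_cast [Nat.cast_sub (show β ≤ n by omega),
      Nat.cast_sub (show α ≤ n + (β + 1) by omega)] at this
    exact this
  have hpos : (0 : ℝ) < 1 * n + ((β : ℝ) + 1 - α) := by
    have : (α : ℝ) + β < n := by exact_mod_cast hn
    have h0 : (0 : ℝ) ≤ β := Nat.cast_nonneg β
    linarith
  rw [mul_div_assoc', eq_div_iff hpos.ne']
  have : (1 * (n : ℝ) + ((β : ℝ) + 1 - α)) = n + (β + 1) - α := by ring
  rw [this, ← hid']
  ring

theorem lim_suf (α β : ℕ) :
    Tendsto (fun n : ℕ => (((2 * n - α).choose (n - β) : ℕ) : ℝ) /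
      (((2 * n).choose n : ℕ) : ℝ)) atTop (𝓝 ((1 / 2 : ℝ) ^ α)) := by
  induction β with
  | zero =>
    induction α with
    | zero =>
      have : (fun n : ℕ => (((2 * n - 0).choose (n - 0) : ℕ) : ℝ) /
        (((2 * n).choose n : ℕ) : ℝ)) = fun _ => (1 : ℝ) := by
        funext n
        have h : 0 < (2 * n).choose n := Nat.choose_pos (by omega)
        have h' : (((2 * n).choose n : ℕ) : ℝ) ≠ 0 := by exact_mod_cast h.ne'
        rw [Nat.sub_zero, Nat.sub_zero, div_self h']
      rw [this, pow_zero]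
      exact tendsto_const_nhds
    | succ α ih =>
      have h1 := Lim_ratio 1 2 (((0 : ℕ) : ℝ) - α) (-(α : ℝ)) (by norm_num)
      have h2 := ih.mul h1
      rw [pow_succ]
      refine h2.congr' ?_
      filter_upwards [Lim_a α 0] with n hn
      rw [hn]
      ring
  | succ β ih =>
    have h1 := Lim_ratio 1 1 (-(β : ℝ)) ((β : ℝ) + 1 - α) (by norm_num)
    have h2 := ih.mul h1
    rw [div_one, mul_one] at h2
    refine h2.congr' ?_
    filter_upwards [Lim_b α β] with n hn
    rw [hn]
    ring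

end Pool.Agent.H59.TN
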