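import Pool.Agent.H59.TN.Cnt
import Pool.Agent.H59.TN.Lim

set_option autoImplicit false

/-!
# Module Lmt: the inequality for geometric weights, long chains

RATIONAL `ρ = A / B` (`A, B > 0`). For `n` large apply `cnt` with `a = B n - 1`, `b = A n`,
`N₁ = (B + 1) n`, `N₂ = (A + 1) n`. Then `a + b + 1 = (A + B) n`, `a + 1 + j = B n + j`,
`N₁ + N₂ - (a + b + 1) - W = 2 n - W`, `N₁ - (a + 1 + j) - π.card = n - j - π.card =
n - (j + π.card)`. Divide by `Z n ^ 2`, `Z n = C((A + B) n, B n) C(2 n, n) > 0`: the weight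
`wg (j, π) / Z n` tends to `ρ ^ j (1 / 2) ^ W` (`lim_pre`, `lim_suf`), `W = 4 v P`. Limits of finite sums and
products (`le_of_tendsto_of_tendsto`), then multiply by `(2 ^ W) ^ 2`.
REAL `ρ > 0`: both sides are continuous functions of `ρ` (finite sums of powers), and the positive
rationals are dense (for example `le_of_tendsto_of_tendsto` along a sequence of positive rationals
tending to `ρ`, or `closure` of the set where the inequality holds).
-/

open Filter Topology

namespace Pool.Agent.H59.TN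

open Pool.Agent.H45.Corr

private theorem Lmt_wg {A B : ℕ} (hA : 0 < A) (hB : 0 < B) (W : ℕ) (x : ℕ × Finset (Fin W)) :
    Tendsto (fun n : ℕ => ((wg (B * n - 1) (A * n) ((B + 1) * n) ((A + 1) * n) W x : ℕ) : ℝ) /
      (((((A + B) * n).choose (B * n) : ℕ) : ℝ) * (((2 * n).choose n : ℕ) : ℝ))) atTop
      (𝓝 (((A : ℝ) / B) ^ x.1 * (1 / 2 : ℝ) ^ W)) := by
  have h1 := (lim_pre hA hB x.1).mul (lim_suf W (x.1 + x.2.card))
  refine h1.congr' ?_
  filter_upwards [eventually_ge_atTop 1] with n hn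
  have hBn : 1 ≤ B * n := Nat.mul_pos hB hn
  have e1 : B * n - 1 + A * n + 1 = (A + B) * n := by
    have : (A + B) * n = A * n + B * n := by ring
    omega
  have e2 : B * n - 1 + 1 + x.1 = B * n + x.1 := by omega
  have e3 : (B + 1) * n + (A + 1) * n - (A + B) * n - W = 2 * n - W := by
    have h1 : (B + 1) * n + (A + 1) * n = (A + B) * n + 2 * n := by ring
    omega
  have e4 : (B + 1) * n - (B * n + x.1) - x.2.card = n - (x.1 + x.2.card) := by
    have h1 : (B + 1) * n = B * n + n := by ring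
    omega
  unfold wg
  rw [e1, e2, e3, e4]
  push_cast
  rw [div_mul_div_comm]

private theorem Lmt_ind {K : Set ℕ} {r : ℕ} {G : ℕ → ℕ → ℝ} {g : ℕ → ℝ}
    (h : ∀ k, Tendsto (fun n => G n k) atTop (𝓝 (g k))) :
    Tendsto (fun n => ∑ k ∈ Finset.range r, K.indicator (G n) k) atTop
      (𝓝 (∑ k ∈ Finset.range r, K.indicator g k)) := by
  refine tendsto_finsetSum _ fun k _ => ?_
  by_cases hk : k ∈ K
  · simpa [Set.indicator_of_mem hk] using h k
  · simp [Set.indicator_of_notMem hk]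

private theorem Lmt_scale (K : Set ℕ) (r : ℕ) (g : ℕ → ℝ) (c : ℝ) :
    ∑ k ∈ Finset.range r, K.indicator (fun k => g k * c) k
      = (∑ k ∈ Finset.range r, K.indicator g k) * c := by
  rw [Finset.sum_mul]
  refine Finset.sum_congr rfl fun k _ => ?_
  by_cases hk : k ∈ K
  · simp [Set.indicator_of_mem hk]
  · simp [Set.indicator_of_notMem hk]

private theorem Lmt_rat {T : Type} {U V : Set (LinOrd T)} (h : UnivCorr U V) (p : T → ℕ)
    (M : Set T) (hp : Sep (fun t => (p t : ℤ)) M) {v u P r : ℕ} (hv : 0 < v)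
    (hP : ∀ t, p t ≤ P) {A B : ℕ} (hA : 0 < A) (hB : 0 < B) (g : ℕ → ℝ)
    (hg : ∀ k, g k = ∑ x ∈ GdF v u P r k, ((A : ℝ) / B) ^ x.1)
    (tot : ℝ) (htot : tot = ∑ x ∈ AllW v r P, ((A : ℝ) / B) ^ x.1) :
    (∑ k ∈ Finset.range r, {k | lineOrd (fun t => (p t : ℤ)) M hp k ∈ U}.indicator g k) *
      (∑ k ∈ Finset.range r, {k | lineOrd (fun t => (p t : ℤ)) M hp k ∈ V}.indicator g k) ≤
    (tot - ∑ k ∈ Finset.range r,
      {k | lineOrd (fun t => (p t : ℤ)) M hp k ∉ U ∩ V}.indicator g k) * tot := by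
  set Z : ℕ → ℝ := fun n => ((((A + B) * n).choose (B * n) : ℕ) : ℝ) *
    (((2 * n).choose n : ℕ) : ℝ) with hZ
  set w : ℕ → (ℕ × Finset (Fin (4 * v * P))) → ℝ := fun n x =>
    ((wg (B * n - 1) (A * n) ((B + 1) * n) ((A + 1) * n) (4 * v * P) x : ℕ) : ℝ) with hw
  set c : ℝ := (1 / 2 : ℝ) ^ (4 * v * P) with hc
  have hcpos : 0 < c := by positivity
  have hlim : ∀ x, Tendsto (fun n => w n x / Z n) atTop (𝓝 (((A : ℝ) / B) ^ x.1 * c)) :=
    fun x => Lmt_wg hA hB (4 * v * P) x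
  have hG : ∀ k, Tendsto (fun n => (∑ x ∈ GdF v u P r k, w n x) / Z n) atTop (𝓝 (g k * c)) := by
    intro k
    have h1 := tendsto_finsetSum (GdF v u P r k) (fun x _ => hlim x)
    rw [← Finset.sum_mul, ← hg k] at h1
    refine h1.congr fun n => ?_
    rw [Finset.sum_div]
  have hTt : Tendsto (fun n => (∑ x ∈ AllW v r P, w n x) / Z n) atTop (𝓝 (tot * c)) := by
    have h1 := tendsto_finsetSum (AllW v r P) (fun x _ => hlim x)
    rw [← Finset.sum_mul, ← htot] at h1
    refine h1.congr fun n => ?_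
    rw [Finset.sum_div]
  have hl := (Lmt_ind (K := {k | lineOrd (fun t => (p t : ℤ)) M hp k ∈ U}) (r := r) hG).mul
    (Lmt_ind (K := {k | lineOrd (fun t => (p t : ℤ)) M hp k ∈ V}) (r := r) hG)
  have hr := (hTt.sub (Lmt_ind (K := {k | lineOrd (fun t => (p t : ℤ)) M hp k ∉ U ∩ V})
    (r := r) hG)).mul hTt
  have hle : ∀ᶠ n : ℕ in atTop,
      (∑ k ∈ Finset.range r, {k | lineOrd (fun t => (p t : ℤ)) M hp k ∈ U}.indicator
        (fun k => (∑ x ∈ GdF v u P r k, w n x) / Z n) k) *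
      (∑ k ∈ Finset.range r, {k | lineOrd (fun t => (p t : ℤ)) M hp k ∈ V}.indicator
        (fun k => (∑ x ∈ GdF v u P r k, w n x) / Z n) k) ≤
      ((∑ x ∈ AllW v r P, w n x) / Z n - ∑ k ∈ Finset.range r,
        {k | lineOrd (fun t => (p t : ℤ)) M hp k ∉ U ∩ V}.indicator
        (fun k => (∑ x ∈ GdF v u P r k, w n x) / Z n) k) *
        ((∑ x ∈ AllW v r P, w n x) / Z n) := by
    filter_upwards [eventually_ge_atTop (r * v + 4 * v * P + 1)] with n hn
    have hn1 : 1 ≤ n := by omega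
    have hBn : 1 ≤ B * n := Nat.mul_pos hB hn1
    have hAn : n ≤ A * n := Nat.le_mul_of_pos_left n hA
    have ha : B * n - 1 + 1 + r * v + 4 * v * P ≤ (B + 1) * n := by
      have h1 : (B + 1) * n = B * n + n := by ring
      omega
    have hb : A * n + 1 + 4 * v * P ≤ (A + 1) * n := by
      have h1 : (A + 1) * n = A * n + n := by ring
      omega
    have hrb : r * v ≤ A * n := by omega
    have key := cnt h p M hp (u := u) hv hP ha hb hrb (fun k => ∑ x ∈ GdF v u P r k, w n x)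
      (fun k => rfl) (∑ x ∈ AllW v r P, w n x) rfl
    have hZpos : 0 < Z n := by
      have h1 : 0 < ((A + B) * n).choose (B * n) := Nat.choose_pos (by nlinarith [Nat.zero_le (A * n)])
      have h2 : 0 < (2 * n).choose n := Nat.choose_pos (by omega)
      have h1' : (0 : ℝ) < ((((A + B) * n).choose (B * n) : ℕ) : ℝ) := by exact_mod_cast h1
      have h2' : (0 : ℝ) < (((2 * n).choose n : ℕ) : ℝ) := by exact_mod_cast h2
      exact mul_pos h1' h2'
    have hs : ∀ K : Set ℕ, ∑ k ∈ Finset.range r, K.indicator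
        (fun k => (∑ x ∈ GdF v u P r k, w n x) / Z n) k
        = (∑ k ∈ Finset.range r, K.indicator (fun k => ∑ x ∈ GdF v u P r k, w n x) k) *
          (Z n)⁻¹ := by
      intro K
      rw [← Lmt_scale]
      rfl
    rw [hs, hs, hs, div_eq_mul_inv]
    have hZi : 0 ≤ (Z n)⁻¹ * (Z n)⁻¹ := by positivity
    have := mul_le_mul_of_nonneg_right key hZi
    nlinarith [this]
  have hfin := le_of_tendsto_of_tendsto hl hr hle
  rw [Lmt_scale, Lmt_scale, Lmt_scale] at hfin
  have hcc : 0 < c * c := by positivity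
  refine le_of_mul_le_mul_right ?_ hcc
  nlinarith [hfin]

theorem lmt {T : Type} {U V : Set (LinOrd T)} (h : UnivCorr U V) (p : T → ℕ) (M : Set T)
    (hp : Sep (fun t => (p t : ℤ)) M) {v u P r : ℕ} (hv : 0 < v) (hP : ∀ t, p t ≤ P)
    {ρ : ℝ} (hρ : 0 < ρ) (g : ℕ → ℝ) (hg : ∀ k, g k = ∑ x ∈ GdF v u P r k, ρ ^ x.1)
    (tot : ℝ) (htot : tot = ∑ x ∈ AllW v r P, ρ ^ x.1) :
    (∑ k ∈ Finset.range r, {k | lineOrd (fun t => (p t : ℤ)) M hp k ∈ U}.indicator g k) *
      (∑ k ∈ Finset.range r, {k | lineOrd (fun t => (p t : ℤ)) M hp k ∈ V}.indicator g k) ≤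
    (tot - ∑ k ∈ Finset.range r,
      {k | lineOrd (fun t => (p t : ℤ)) M hp k ∉ U ∩ V}.indicator g k) * tot := by
  subst htot
  have hg' : g = fun k => ∑ x ∈ GdF v u P r k, ρ ^ x.1 := funext hg
  subst hg'
  by_contra hcon
  rw [not_le] at hcon
  set F : ℝ → ℝ := fun s =>
    (∑ k ∈ Finset.range r, {k | lineOrd (fun t => (p t : ℤ)) M hp k ∈ U}.indicator
        (fun k => ∑ x ∈ GdF v u P r k, s ^ x.1) k) *
      (∑ k ∈ Finset.range r, {k | lineOrd (fun t => (p t : ℤ)) M hp k ∈ V}.indicator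
        (fun k => ∑ x ∈ GdF v u P r k, s ^ x.1) k) -
    ((∑ x ∈ AllW v r P, s ^ x.1) - ∑ k ∈ Finset.range r,
      {k | lineOrd (fun t => (p t : ℤ)) M hp k ∉ U ∩ V}.indicator
        (fun k => ∑ x ∈ GdF v u P r k, s ^ x.1) k) * (∑ x ∈ AllW v r P, s ^ x.1) with hF
  have hind : ∀ K : Set ℕ, Continuous fun s : ℝ => ∑ k ∈ Finset.range r, K.indicator
      (fun k => ∑ x ∈ GdF v u P r k, s ^ x.1) k := by
    intro K
    refine continuous_finsetSum _ fun k _ => ?_
    by_cases hk : k ∈ K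
    · simp only [Set.indicator_of_mem hk]
      exact continuous_finsetSum _ fun x _ => continuous_pow _
    · simp only [Set.indicator_of_notMem hk]
      exact continuous_const
  have htc : Continuous fun s : ℝ => ∑ x ∈ AllW v r P, s ^ x.1 :=
    continuous_finsetSum _ fun x _ => continuous_pow _
  have hFc : Continuous F := ((hind _).mul (hind _)).sub ((htc.sub (hind _)).mul htc)
  have hop : IsOpen (F ⁻¹' Set.Ioi 0 ∩ Set.Ioi 0) := (isOpen_Ioi.preimage hFc).inter isOpen_Ioi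
  have hne : (F ⁻¹' Set.Ioi 0 ∩ Set.Ioi 0).Nonempty := ⟨ρ, by
    refine ⟨?_, hρ⟩
    simp only [Set.mem_preimage, Set.mem_Ioi, hF]
    linarith⟩
  obtain ⟨q, hq⟩ := Rat.denseRange_cast.exists_mem_open hop hne
  obtain ⟨hq1, hq2⟩ := hq
  have hq2' : (0 : ℝ) < (q : ℝ) := hq2
  have hq0 : 0 < q := by exact_mod_cast hq2'
  have hnum : 0 < q.num := Rat.num_pos.2 hq0
  have hA : 0 < q.num.toNat := by omega
  have hqe : ((q.num.toNat : ℕ) : ℝ) / ((q.den : ℕ) : ℝ) = (q : ℝ) := by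
    have h1 : ((q.num.toNat : ℕ) : ℝ) = ((q.num : ℤ) : ℝ) := by
      have : ((q.num.toNat : ℕ) : ℤ) = q.num := Int.toNat_of_nonneg hnum.le
      exact_mod_cast this
    rw [h1]
    exact_mod_cast Rat.num_div_den q
  have key := Lmt_rat h p M hp (u := u) (r := r) hv hP hA q.den_pos
    (fun k => ∑ x ∈ GdF v u P r k, (q : ℝ) ^ x.1) (fun k => by rw [hqe])
    (∑ x ∈ AllW v r P, (q : ℝ) ^ x.1) (by rw [hqe])
  simp only [Set.mem_preimage, Set.mem_Ioi, hF] at hq1
  linarith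

end Pool.Agent.H59.TN
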