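import Pool.Agent.H59.TN.CDefs
import Pool.Agent.H59.TN.Defs

set_option autoImplicit false

/-!
# The system of nodes and halves on the orderings of a set with `n` elements

The orderings are given by the bijections `x : T ≃ Fin n` (`x t` is the place of `t`).
-/

namespace Pool.Agent.H59.TN

open Pool.Agent.H45.Corr

/-- the ordering of `T` with the places `x` -/
def ordP {T : Type} {n : ℕ} (x : T ≃ Fin n) : LinOrd T :=
  ⟨fun s t => x s < x t,
    { trichotomous := fun _ _ h1 h2 => x.injective (le_antisymm (not_lt.1 h2) (not_lt.1 h1))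
      irrefl := fun _ => lt_irrefl _
      trans := fun _ _ _ => lt_trans }⟩

/-- the link directions: the numbers `a` such that the place `2 a + 2` exists -/
abbrev Dir (n : ℕ) : Type := {a : Fin n // 2 * a.1 + 2 < n}

/-- singles out the places `2 a, 2 a + 1, 2 a + 2, 2 a + 3`, pairs the others -/
def hh (a x : ℕ) : ℕ := if 2 * a ≤ x ∧ x ≤ 2 * a + 3 then x else 2 * (x / 2)

/-- pairs the places, but with the pair `2 a + 1, 2 a + 2` and the single places `2 a`, `2 a + 3` -/
def gg (a x : ℕ) : ℕ :=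
  if x = 2 * a then 2 * a else if x = 2 * a + 1 ∨ x = 2 * a + 2 then 2 * a + 1
  else if x = 2 * a + 3 then 2 * a + 2 else 2 * (x / 2)

/-- the place `2 a + 1` -/
def Dir.lo {n : ℕ} (a : Dir n) : Fin n := ⟨2 * a.1.1 + 1, by have := a.2; omega⟩

/-- the place `2 a + 2` -/
def Dir.hi {n : ℕ} (a : Dir n) : Fin n := ⟨2 * a.1.1 + 2, a.2⟩

/-- nodes: the unordered pairs of places `(0,1), (2,3), ..` -/
def nuP {T : Type} {n : ℕ} (x : T ≃ Fin n) : T → ℕ := fun t => (x t).1 / 2

/-- halves -/
def etaP {T : Type} {n : ℕ} (a : Dir n) (x : T ≃ Fin n) : T → ℕ := fun t => hh a.1.1 (x t).1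

/-- exchange the places `2 a + 1` and `2 a + 2` -/
def sgP {T : Type} {n : ℕ} (a : Dir n) (x : T ≃ Fin n) : T ≃ Fin n :=
  x.trans (Equiv.swap a.lo a.hi)

end Pool.Agent.H59.TN
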