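import Pool.Agent.H59.TN.PDefs

set_option autoImplicit false

/-!
# Module PmA: the system

`hh_ref`: `hh a x = hh a y → x / 2 = y / 2` (and `x = y` if one of them is in `[2 a, 2 a + 3]`): case
distinction and `omega`. `ref`: pointwise. `par`: if `hh a (x t) = hh a (y t)` for all `t` then
`hh a (τ (x t)) = hh a (τ (y t))` for the swap `τ` of `2 a + 1` and `2 a + 2`: if `x t` or `y t` is in `[2 a, 2 a + 3]`
they are equal, otherwise both are fixed by `τ` (`Equiv.swap_apply_of_ne_of_ne`). `inv`:
`Equiv.swap_swap`. `conn`: let `t` be constant on nodes and invariant under all `sgP a`. Then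
`t (x.trans (swap i.castSucc i.succ)) = t x` for every adjacent swap of places (`n = m + 1`; `i` odd:
`i = 2 a + 1`, this is `sgP a`; `i` even: `x` and `x.trans (swap ..)` have the same `nuP`). The adjacent swaps
generate the group: `Equiv.Perm.mclosure_swap_castSucc_succ` (induction with
`Submonoid.closure_induction`): `t (x.trans σ) = t x` for all `σ : Equiv.Perm (Fin n)`, and
`y = x.trans (x.symm.trans y)`. For `n = 0` the type `T ≃ Fin 0` is a subsingleton.
-/

namespace Pool.Agent.H59.TN

open Pool.Agent.H45.Corr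

theorem pmA_hh_div (a x y : ℕ) (h : hh a x = hh a y) : x / 2 = y / 2 := by
  unfold hh at h
  split_ifs at h <;> omega

theorem ref_P {T : Type} {n : ℕ} (a : Dir n) (x y : T ≃ Fin n) (h : etaP a x = etaP a y) :
    nuP x = nuP y := by
  funext t
  exact pmA_hh_div a.1.1 _ _ (congrFun h t)

theorem pmA_sg_apply {T : Type} {n : ℕ} (a : Dir n) (x : T ≃ Fin n) (t : T) :
    ((sgP a x) t).1 = if (x t).1 = 2 * a.1.1 + 1 then 2 * a.1.1 + 2
      else if (x t).1 = 2 * a.1.1 + 2 then 2 * a.1.1 + 1 else (x t).1 := by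
  have h0 : sgP a x t = Equiv.swap a.lo a.hi (x t) := rfl
  rw [h0]
  by_cases h1 : (x t).1 = 2 * a.1.1 + 1
  · have h2 : x t = a.lo := Fin.ext h1
    rw [h2, Equiv.swap_apply_left, if_pos (show (a.lo).1 = 2 * a.1.1 + 1 from rfl)]
    rfl
  · by_cases h2 : (x t).1 = 2 * a.1.1 + 2
    · have h3 : x t = a.hi := Fin.ext h2
      rw [if_neg h1, if_pos h2, h3, Equiv.swap_apply_right]
      rfl
    · rw [if_neg h1, if_neg h2, Equiv.swap_apply_of_ne_of_ne]
      · intro h3
        exact h1 (by rw [h3]; rfl)
      · intro h3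
        exact h2 (by rw [h3]; rfl)

theorem par_P {T : Type} {n : ℕ} (a : Dir n) (x y : T ≃ Fin n) (h : etaP a x = etaP a y) :
    etaP a (sgP a x) = etaP a (sgP a y) := by
  funext t
  have h1 : hh a.1.1 (x t).1 = hh a.1.1 (y t).1 := congrFun h t
  show hh a.1.1 ((sgP a x) t).1 = hh a.1.1 ((sgP a y) t).1
  rw [pmA_sg_apply, pmA_sg_apply]
  generalize (x t).1 = u at *
  generalize (y t).1 = v at *
  generalize a.1.1 = b at *
  unfold hh at *
  split_ifs at * <;> omega

theorem inv_P {T : Type} {n : ℕ} (a : Dir n) (x : T ≃ Fin n) : sgP a (sgP a x) = x := by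
  apply Equiv.ext
  intro t
  show Equiv.swap a.lo a.hi (Equiv.swap a.lo a.hi (x t)) = x t
  have h0 := congrArg (fun e : Equiv.Perm (Fin n) => e (x t)) (Equiv.swap_swap a.lo a.hi)
  exact h0

theorem pmA_adj {T : Type} {m : ℕ} (t : (T ≃ Fin (m + 1)) → Bool)
    (h1 : ∀ x y : T ≃ Fin (m + 1), nuP x = nuP y → t x = t y) (h2 : ∀ a x, t (sgP a x) = t x)
    (i : Fin m) (x : T ≃ Fin (m + 1)) :
    t (x.trans (Equiv.swap i.castSucc i.succ)) = t x := by
  have hi := i.2
  rcases Nat.even_or_odd' i.1 with ⟨b, hb | hb⟩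
  · apply h1
    funext s
    show ((Equiv.swap i.castSucc i.succ (x s))).1 / 2 = (x s).1 / 2
    by_cases e1 : x s = i.castSucc
    · rw [e1, Equiv.swap_apply_left, Fin.val_succ, Fin.val_castSucc]
      omega
    · by_cases e2 : x s = i.succ
      · rw [e2, Equiv.swap_apply_right, Fin.val_succ, Fin.val_castSucc]
        omega
      · rw [Equiv.swap_apply_of_ne_of_ne e1 e2]
  · let a : Dir (m + 1) := ⟨⟨b, by omega⟩, by show 2 * b + 2 < m + 1; omega⟩
    have hlo : a.lo = i.castSucc := Fin.ext (by rw [Fin.val_castSucc]; show 2 * b + 1 = _; omega)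
    have hhi : a.hi = i.succ := Fin.ext (by rw [Fin.val_succ]; show 2 * b + 2 = _; omega)
    rw [← hlo, ← hhi]
    exact h2 a x

theorem conn_P {T : Type} {n : ℕ} (t : (T ≃ Fin n) → Bool)
    (h1 : ∀ x y : T ≃ Fin n, nuP x = nuP y → t x = t y) (h2 : ∀ a x, t (sgP a x) = t x)
    (x y : T ≃ Fin n) : t x = t y := by
  rcases n with _ | m
  · have h3 : x = y := by
      apply Equiv.ext
      intro s
      exact (x s).elim0
    rw [h3]
  · have key : ∀ σ : Equiv.Perm (Fin (m + 1)), ∀ x : T ≃ Fin (m + 1), t (x.trans σ) = t x := by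
      intro σ
      have hσ : σ ∈ Submonoid.closure
          (Set.range fun i : Fin m => Equiv.swap i.castSucc i.succ) := by
        rw [Equiv.Perm.mclosure_swap_castSucc_succ]
        exact Submonoid.mem_top σ
      induction hσ using Submonoid.closure_induction with
      | mem g hg =>
        obtain ⟨i, rfl⟩ := hg
        intro x
        exact pmA_adj t h1 h2 i x
      | one =>
        intro x
        have h4 : x.trans (1 : Equiv.Perm (Fin (m + 1))) = x := Equiv.ext fun _ => rfl
        rw [h4]
      | mul g g' _ _ ih ih' =>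
        intro x
        have h4 : x.trans (g * g') = (x.trans g').trans g := Equiv.ext fun _ => rfl
        rw [h4, ih, ih']
    have h5 := key (x.symm.trans y) x
    have h6 : x.trans (x.symm.trans y) = y := by
      apply Equiv.ext
      intro s
      show y (x.symm (x s)) = y s
      rw [Equiv.symm_apply_apply]
    rw [h6] at h5
    exact h5.symm

/-- the system of nodes and halves -/
def sysP (T : Type) (n : ℕ) : Sys (T ≃ Fin n) (Dir n) (T → ℕ) (T → ℕ) where
  nu := nuP
  eta := etaP
  sg := sgP
  ref := ref_P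
  par := par_P
  inv := inv_P
  conn := conn_P

end Pool.Agent.H59.TN
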