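import Pool.Agent.H59.TN.Lmt
import Pool.Agent.H59.TN.Gk

set_option autoImplicit false

/-!
# Module Seg: the inequality along lines

NATURAL HEIGHTS (`seg_nat`): let `p : T → ℕ`, `p t ≤ P`. Let `Λ = wsum lam r univ`, `Λ_U`, `Λ_V`, `Λ_W`
the sums for `U`, `V`, `U ∩ V`. For `ε ∈ (0, 1)` take `v u ρ C` from `gk` and apply `lmt`: with
`g k ≥ (1 - ε) lam ^ k C` for `k < r` and `tot = Λ C` the left side is at least
`(1 - ε) ^ 2 Λ_U Λ_V C ^ 2` and the right side at most `(Λ C - (1 - ε) (Λ - Λ_W) C) Λ C`. Divide by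
`C ^ 2`: `(1 - ε) ^ 2 Λ_U Λ_V ≤ (Λ_W + ε (Λ - Λ_W)) Λ`. Let `ε → 0`.
GENERAL: `T` is finite; if `T` is nonempty let `m` be the minimum of `p` and `p' t = (p t - m).toNat`
(`p' t = p t - m` as integers); `Sep` for `p'` follows and `lineOrd p' M _ k = lineOrd p M hp k`,
because all heights are shifted by `- 2 m` (`Subtype.ext`, `funext`, `propext`, unfold `ordBy`, `hgt`). `P` is the
maximum of `p'` (`Finite.bddAbove_range` or `Finset.sup`). If `T` is empty take `p' = 0`.
-/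

namespace Pool.Agent.H59.TN

open Pool.Agent.H45.Corr

private theorem seg_ind_le (lam : ℝ) (r : ℕ) (K : Set ℕ) (g : ℕ → ℝ) (c : ℝ)
    (h : ∀ k < r, c * lam ^ k ≤ g k) :
    c * wsum lam r K ≤ ∑ k ∈ Finset.range r, K.indicator g k := by
  classical
  unfold wsum
  rw [Finset.mul_sum]
  refine Finset.sum_le_sum fun k hk => ?_
  by_cases hK : k ∈ K
  · rw [Set.indicator_of_mem hK, Set.indicator_of_mem hK]
    exact h k (Finset.mem_range.1 hk)
  · rw [Set.indicator_of_notMem hK, Set.indicator_of_notMem hK]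
    simp

private theorem seg_wsum_nonneg {lam : ℝ} (hl : 0 < lam) (r : ℕ) (K : Set ℕ) :
    0 ≤ wsum lam r K := by
  unfold wsum
  exact Finset.sum_nonneg fun k _ => Set.indicator_nonneg (fun _ _ => (pow_pos hl _).le) k

private theorem seg_wsum_univ (lam : ℝ) (r : ℕ) :
    wsum lam r Set.univ = ∑ k ∈ Finset.range r, lam ^ k := by
  unfold wsum
  simp

private theorem seg_wsum_compl (lam : ℝ) (r : ℕ) (K : Set ℕ) :
    wsum lam r Kᶜ = wsum lam r Set.univ - wsum lam r K := by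
  classical
  rw [seg_wsum_univ]
  unfold wsum
  rw [← Finset.sum_sub_distrib]
  refine Finset.sum_congr rfl fun k _ => ?_
  by_cases hK : k ∈ K
  · simp [hK]
  · simp [hK]

theorem seg_nat {T : Type} {U V : Set (LinOrd T)} (h : UnivCorr U V) (p : T → ℕ)
    (M : Set T) (hp : Sep (fun t => (p t : ℤ)) M) {P : ℕ} (hP : ∀ t, p t ≤ P) (r : ℕ) {lam : ℝ}
    (hl : 0 < lam) :
    wsum lam r {k | lineOrd (fun t => (p t : ℤ)) M hp k ∈ U} *
      wsum lam r {k | lineOrd (fun t => (p t : ℤ)) M hp k ∈ V} ≤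
    wsum lam r {k | lineOrd (fun t => (p t : ℤ)) M hp k ∈ U ∩ V} * wsum lam r Set.univ := by
  set KU : Set ℕ := {k | lineOrd (fun t => (p t : ℤ)) M hp k ∈ U} with hKU
  set KV : Set ℕ := {k | lineOrd (fun t => (p t : ℤ)) M hp k ∈ V} with hKV
  set KW : Set ℕ := {k | lineOrd (fun t => (p t : ℤ)) M hp k ∈ U ∩ V} with hKW
  have key : ∀ ε : ℝ, 0 < ε → ε < 1 →
      0 ≤ (wsum lam r Set.univ - (1 - ε) * (wsum lam r Set.univ - wsum lam r KW)) *
        wsum lam r Set.univ - (1 - ε) ^ 2 * (wsum lam r KU * wsum lam r KV) := by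
    intro ε h0 h1
    obtain ⟨v, u, ρ, C, hv, hρ, hC, hg, ht⟩ := gk P r hl h0
    have hL := lmt h p M hp (u := u) (r := r) hv hP hρ
      (fun k => ∑ x ∈ GdF v u P r k, ρ ^ x.1) (fun _ => rfl) _ rfl
    rw [ht, ← seg_wsum_univ] at hL
    have hcg : ∀ k < r, (1 - ε) * C * lam ^ k ≤ ∑ x ∈ GdF v u P r k, ρ ^ x.1 := by
      intro k hk
      have := hg k hk
      linarith
    have e1 := seg_ind_le lam r KU (fun k => ∑ x ∈ GdF v u P r k, ρ ^ x.1) _ hcg
    have e2 := seg_ind_le lam r KV (fun k => ∑ x ∈ GdF v u P r k, ρ ^ x.1) _ hcg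
    have e3 := seg_ind_le lam r KWᶜ (fun k => ∑ x ∈ GdF v u P r k, ρ ^ x.1) _ hcg
    rw [seg_wsum_compl] at e3
    have hcompl : {k | lineOrd (fun t => (p t : ℤ)) M hp k ∉ U ∩ V} = KWᶜ := rfl
    rw [hcompl] at hL
    have nU := seg_wsum_nonneg hl r KU
    have nV := seg_wsum_nonneg hl r KV
    have nA := seg_wsum_nonneg hl r Set.univ
    have hc : 0 ≤ (1 - ε) * C := mul_nonneg (by linarith) hC.le
    have f1 : ((1 - ε) * C * wsum lam r KU) * ((1 - ε) * C * wsum lam r KV) ≤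
        (wsum lam r Set.univ * C - (1 - ε) * C * (wsum lam r Set.univ - wsum lam r KW)) *
          (wsum lam r Set.univ * C) := by
      calc ((1 - ε) * C * wsum lam r KU) * ((1 - ε) * C * wsum lam r KV)
          ≤ _ := mul_le_mul e1 e2 (mul_nonneg hc nV) (le_trans (mul_nonneg hc nU) e1)
        _ ≤ _ := hL
        _ ≤ _ := mul_le_mul_of_nonneg_right (by linarith) (mul_nonneg nA hC.le)
    have f2 : 0 ≤ ((wsum lam r Set.univ - (1 - ε) * (wsum lam r Set.univ - wsum lam r KW)) *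
        wsum lam r Set.univ - (1 - ε) ^ 2 * (wsum lam r KU * wsum lam r KV)) * C ^ 2 := by
      nlinarith [f1]
    exact nonneg_of_mul_nonneg_left f2 (by positivity)
  have hlim : Filter.Tendsto (fun ε : ℝ =>
      (wsum lam r Set.univ - (1 - ε) * (wsum lam r Set.univ - wsum lam r KW)) *
        wsum lam r Set.univ - (1 - ε) ^ 2 * (wsum lam r KU * wsum lam r KV))
      (nhdsWithin 0 (Set.Ioi 0))
      (nhds ((wsum lam r Set.univ - (1 - 0) * (wsum lam r Set.univ - wsum lam r KW)) *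
        wsum lam r Set.univ - (1 - 0) ^ 2 * (wsum lam r KU * wsum lam r KV))) := by
    refine Filter.Tendsto.mono_left (Continuous.tendsto ?_ 0) nhdsWithin_le_nhds
    fun_prop
  have hge := ge_of_tendsto hlim (b := 0) (by
    filter_upwards [Ioo_mem_nhdsGT (show (0 : ℝ) < 1 by norm_num)] with ε hε
    exact key ε hε.1 hε.2)
  nlinarith [hge]

theorem seg {T : Type} [Finite T] {U V : Set (LinOrd T)} (h : UnivCorr U V) (p : T → ℤ)
    (M : Set T) (hp : Sep p M) (r : ℕ) {lam : ℝ} (hl : 0 < lam) :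
    wsum lam r {k | lineOrd p M hp k ∈ U} * wsum lam r {k | lineOrd p M hp k ∈ V} ≤
      wsum lam r {k | lineOrd p M hp k ∈ U ∩ V} * wsum lam r Set.univ := by
  classical
  obtain ⟨m, hm⟩ : ∃ m : ℤ, ∀ t, m ≤ p t := by
    obtain ⟨m, hm⟩ := (Set.finite_range p).bddBelow
    exact ⟨m, fun t => hm ⟨t, rfl⟩⟩
  obtain ⟨P, hP⟩ : ∃ P : ℕ, ∀ t, (p t - m).toNat ≤ P := by
    obtain ⟨P, hP⟩ := (Set.finite_range (fun t => (p t - m).toNat)).bddAbove
    exact ⟨P, fun t => hP ⟨t, rfl⟩⟩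
  have hcast : ∀ t, (((p t - m).toNat : ℕ) : ℤ) = p t - m := fun t =>
    Int.toNat_of_nonneg (by have := hm t; omega)
  have hp' : Sep (fun t => (((p t - m).toNat : ℕ) : ℤ)) M := by
    intro s t hst he
    simp only [hcast] at he
    exact hp s t hst (by omega)
  have hlo : ∀ k, lineOrd (fun t => (((p t - m).toNat : ℕ) : ℤ)) M hp' k = lineOrd p M hp k := by
    intro k
    apply Subtype.ext
    funext s t
    apply propext
    have hh : ∀ t, hgt (fun t => (((p t - m).toNat : ℕ) : ℤ)) M k t = hgt p M k t - 2 * m := by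
      intro t
      unfold hgt
      simp only [hcast]
      ring
    show hgt _ M k s < hgt _ M k t ↔ hgt p M k s < hgt p M k t
    rw [hh, hh]
    omega
  have hmain := seg_nat h (fun t => (p t - m).toNat) M hp' hP r hl
  simp only [hlo] at hmain
  exact hmain

end Pool.Agent.H59.TN
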